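import Pool.Agent.Lib.MP_0087d5_lcMT.S5

/-!
# The unions of the least perfect matchings of the graphs which agree outside a set `W`

`w` has no relation with coefficients in `{-1, 0, 1}` between the weights of at most `2 k` pairs (`Diss w k`, for example the weights of `MT/D3`, `exists_diss`).
* `sparse_in`: the union of the least perfect matchings has at most `2 d r log (r ^ 2)` pairs inside a set of `r < d ^ k` vertices (proof: `MT/S5` for the subset).
* `HG_eq`: the union of the least perfect matchings is determined by its pairs inside `W` and the relation outside `W`.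
* `card_HG`, `card_HG_le`: there are at most `2 ^ (8 d r (log r + 1) ^ 2)` such unions for the relations which agree outside `W`.
-/

set_option autoImplicit false

namespace LIN

open Finset MTC

private theorem SG_log {x n : ℕ} (hx : 1 ≤ x) (h : 3 * x ≤ 2 * n) : Nat.log 2 (x ^ 2) + 1 ≤ Nat.log 2 (n ^ 2) := by
  have h1 : x ^ 2 ≠ 0 := (pow_pos hx 2).ne'
  rw [← Nat.log_mul_base (by norm_num) h1]
  refine Nat.log_mono_right ?_
  have h2 : (3 * x) ^ 2 ≤ (2 * n) ^ 2 := Nat.pow_le_pow_left h 2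
  have h3 : (3 * x) ^ 2 = 9 * x ^ 2 := by ring
  have h4 : (2 * n) ^ 2 = 4 * n ^ 2 := by ring
  omega

private theorem SG_arith {d x y n lx ly l a b c : ℕ} (hn : n = x + y) (hx : lx + 1 ≤ l) (hy : ly + 1 ≤ l)
    (ha : a ≤ 2 * d * x * lx) (hb : b ≤ 2 * d * y * ly) (hc : c ≤ 2 * d * n) : a + (b + c) ≤ 2 * d * n * l := by
  obtain ⟨m, rfl⟩ : ∃ m, l = m + 1 := ⟨l - 1, by omega⟩
  have h1 : 2 * d * x * lx ≤ 2 * d * x * m := Nat.mul_le_mul_left _ (by omega)
  have h2 : 2 * d * y * ly ≤ 2 * d * y * m := Nat.mul_le_mul_left _ (by omega)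
  have h3 : 2 * d * n * (m + 1) = 2 * d * x * m + (2 * d * y * m + 2 * d * n) := by
    rw [hn]
    ring
  omega

open Classical in
private theorem SG_ind {V : Type} [Fintype V] [DecidableEq V] (A : V → V → Prop) (hA : ∀ a, ¬ A a a) (w : V → V → ℕ)
    (k d : ℕ) (hk : 1 ≤ k) (hw : Diss w k) (L : Finset (Finset V)) (hLam : Lam L)
    (hL : ∀ v : V → V → ℝ, (∀ a b, v a b = v b a) → (∀ a b, v a b ≠ 0 → HG A w a b) →
      (∀ a, ∑ b, v a b = 0) → (∀ S ∈ L, cut v S = 0) → ∑ a, ∑ b, (w a b : ℝ) * v a b = 0) (U : Finset V) (hd : U.card < d ^ k) :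
    (univ.filter fun q : V × V => HG A w q.1 q.2 ∧ q.1 ∈ U ∧ q.2 ∈ U).card ≤ 2 * d * U.card * Nat.log 2 (U.card ^ 2) := by
  induction U using Finset.strongInduction with
  | H U ih =>
    rcases Nat.lt_or_ge U.card 2 with h | h
    · have h1 : (univ.filter fun q : V × V => HG A w q.1 q.2 ∧ q.1 ∈ U ∧ q.2 ∈ U) = ∅ := by
        refine filter_eq_empty_iff.2 ?_
        rintro q - ⟨⟨f, hf, hfq⟩, h1, h2⟩
        have h3 : q.1 = q.2 := Finset.card_le_one.1 (by omega) _ h1 _ h2
        have h4 := hf.1.2 q.1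
        rw [hfq, ← h3] at h4
        exact hA _ h4
      rw [h1, card_empty]
      exact Nat.zero_le _
    · obtain ⟨X, hXU, hXn, hXne, hX1, hX2, hX3⟩ := exists_sep L hLam U h
      have hX0 : 1 ≤ X.card := hXn.card_pos
      have hs : X ⊂ U := Finset.ssubset_iff_subset_ne.2 ⟨hXU, hXne⟩
      have hY0 : 1 ≤ (U \ X).card := by
        rw [Finset.card_sdiff_of_subset hXU]
        have := Finset.card_lt_card hs
        omega
      have hYs : U \ X ⊂ U := by
        refine Finset.ssubset_iff_subset_ne.2 ⟨sdiff_subset, fun he => ?_⟩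
        have h1 := Finset.card_sdiff_of_subset hXU
        have h2 := Finset.card_lt_card hs
        rw [he] at h1
        omega
      have i1 := ih X hs (lt_of_le_of_lt (Finset.card_le_card hXU) hd)
      have i2 := ih (U \ X) hYs (lt_of_le_of_lt (Finset.card_le_card sdiff_subset) hd)
      have i3 := across A w k d hk hw L hL U X hXU hd hX3
      have hn : U.card = X.card + (U \ X).card := by
        rw [Finset.card_sdiff_of_subset hXU]
        have := Finset.card_le_card hXU
        omega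
      refine le_trans ?_ (SG_arith hn (SG_log hX0 hX1) (SG_log hY0 hX2) i1 i2 i3)
      refine le_trans (Finset.card_le_card ?_) ((Finset.card_union_le _ _).trans (Nat.add_le_add_left (Finset.card_union_le _ _) _))
      intro q hq
      obtain ⟨-, h1, h2, h3⟩ := mem_filter.1 hq
      rw [mem_union, mem_union, mem_filter, mem_filter, mem_filter]
      by_cases c1 : q.1 ∈ X
      · by_cases c2 : q.2 ∈ X
        · exact Or.inl ⟨mem_univ _, h1, c1, c2⟩
        · exact Or.inr (Or.inr ⟨mem_univ _, h1, Or.inl ⟨c1, mem_sdiff.2 ⟨h3, c2⟩⟩⟩)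
      · by_cases c2 : q.2 ∈ X
        · exact Or.inr (Or.inr ⟨mem_univ _, h1, Or.inr ⟨c2, mem_sdiff.2 ⟨h2, c1⟩⟩⟩)
        · exact Or.inr (Or.inl ⟨mem_univ _, h1, mem_sdiff.2 ⟨h2, c1⟩, mem_sdiff.2 ⟨h3, c2⟩⟩)

open Classical in
/-- few pairs inside `W` -/
theorem sparse_in {V : Type} [Fintype V] [DecidableEq V] (A : V → V → Prop) (hA : ∀ a, ¬ A a a) (w : V → V → ℕ) (hs : ∀ a b, w a b = w b a)
    (k d : ℕ) (hk : 1 ≤ k) (hw : Diss w k) (W : Finset V) (hd : W.card < d ^ k) :
    ((W ×ˢ W).filter fun p => HG A w p.1 p.2).card ≤ 2 * d * W.card * Nat.log 2 (W.card ^ 2) := by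
  by_cases hM : ∃ f, IsPM A f
  · obtain ⟨L, hLam, hL⟩ := key A hA w hs hM
    refine le_trans (Finset.card_le_card fun q hq => ?_) (SG_ind A hA w k d hk hw L hLam hL W hd)
    rw [mem_filter, mem_product] at hq
    exact mem_filter.2 ⟨mem_univ _, hq.2, hq.1.1, hq.1.2⟩
  · have h2 : ((W ×ˢ W).filter fun p => HG A w p.1 p.2) = ∅ := by
      refine filter_false_of_mem fun p _ h => hM ?_
      obtain ⟨f, hf, -⟩ := h
      exact ⟨f, hf.1⟩
    rw [h2, card_empty]
    exact Nat.zero_le _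

/-- the number of the subsets with at most `m` elements -/
theorem card_small {X : Type*} [DecidableEq X] (S : Finset X) (m : ℕ) :
    (S.powerset.filter fun T => T.card ≤ m).card ≤ (S.card + 1) ^ m := by
  induction m with
  | zero =>
    have h1 : (S.powerset.filter fun T => T.card ≤ 0) ⊆ {∅} := by
      intro T hT
      rw [mem_filter] at hT
      rw [mem_singleton]
      exact card_eq_zero.1 (Nat.le_zero.1 hT.2)
    have h2 := card_le_card h1
    rwa [card_singleton] at h2
  | succ m ih =>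
    have h1 : (S.powerset.filter fun T => T.card ≤ m + 1) ⊆
        ((S.powerset.filter fun T => T.card ≤ m) ×ˢ (insertNone S)).image
          fun p => p.2.elim p.1 fun x => insert x p.1 := by
      intro T hT
      rw [mem_filter, mem_powerset] at hT
      rw [mem_image]
      rcases T.eq_empty_or_nonempty with h | ⟨x, hx⟩
      · refine ⟨(∅, none), mem_product.2 ⟨mem_filter.2 ⟨mem_powerset.2 (empty_subset _), ?_⟩, none_mem_insertNone⟩, h.symm⟩
        rw [card_empty]
        exact Nat.zero_le _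
      · refine ⟨(T.erase x, some x), mem_product.2 ⟨mem_filter.2 ⟨mem_powerset.2 ((erase_subset _ _).trans hT.1), ?_⟩,
          some_mem_insertNone.2 (hT.1 hx)⟩, ?_⟩
        · rw [card_erase_of_mem hx]
          omega
        · exact insert_erase hx
    refine (card_le_card h1).trans (card_image_le.trans ?_)
    rw [card_product, card_insertNone, pow_succ]
    exact Nat.mul_le_mul_right _ ih

section
variable {V : Type} [Fintype V] [DecidableEq V]

/-- a least perfect matching of `A` is a least perfect matching of `A'` if the relations agree outside `W` and their unions of the least perfect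
matchings agree inside `W` -/
theorem isMin_of (A A' : V → V → Prop) (w : V → V → ℕ) (W : Finset V)
    (hW : ∀ a b, ¬ (a ∈ W ∧ b ∈ W) → (A a b ↔ A' a b))
    (hH : ∀ a ∈ W, ∀ b ∈ W, HG A w a b ↔ HG A' w a b) {f : V → V} (hf : IsMin A w f) : IsMin A' w f := by
  classical
  have tr : ∀ (B B' : V → V → Prop), (∀ a b, ¬ (a ∈ W ∧ b ∈ W) → (B a b ↔ B' a b)) →
      (∀ a ∈ W, ∀ b ∈ W, HG B w a b ↔ HG B' w a b) → ∀ g, IsMin B w g → IsPM B' g := by
    intro B B' h1 h2 g hg
    refine ⟨hg.1.1, fun v => ?_⟩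
    by_cases hv : v ∈ W ∧ g v ∈ W
    · obtain ⟨g', hg', h3⟩ := (h2 v hv.1 (g v) hv.2).1 ⟨g, hg, rfl⟩
      have h4 := hg'.1.2 v
      rwa [h3] at h4
    · exact (h1 v (g v) hv).1 (hg.1.2 v)
  have hf' : IsPM A' f := tr A A' hW hH f hf
  refine ⟨hf', fun g hg => ?_⟩
  obtain ⟨g0, hg0, hmin⟩ := exists_min_image (univ.filter fun g : V → V => IsPM A' g) (fun g => tw w g)
    ⟨f, mem_filter.2 ⟨mem_univ _, hf'⟩⟩
  have hg0m : IsMin A' w g0 := ⟨(mem_filter.1 hg0).2, fun h hh => hmin h (mem_filter.2 ⟨mem_univ _, hh⟩)⟩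
  have h5 := tr A' A (fun a b h => (hW a b h).symm) (fun a ha b hb => (hH a ha b hb).symm) g0 hg0m
  exact (hf.2 g0 h5).trans (hg0m.2 g hg)

/-- the union of the least perfect matchings is determined by its pairs inside `W` -/
theorem HG_eq (A A' : V → V → Prop) (w : V → V → ℕ) (W : Finset V)
    (hW : ∀ a b, ¬ (a ∈ W ∧ b ∈ W) → (A a b ↔ A' a b))
    (hH : ∀ a ∈ W, ∀ b ∈ W, HG A w a b ↔ HG A' w a b) : HG A w = HG A' w := by
  funext a b
  refine propext ⟨?_, ?_⟩
  · rintro ⟨f, hf, h⟩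
    exact ⟨f, isMin_of A A' w W hW hH hf, h⟩
  · rintro ⟨f, hf, h⟩
    exact ⟨f, isMin_of A' A w W (fun a b h => (hW a b h).symm) (fun a ha b hb => (hH a ha b hb).symm) hf, h⟩

open Classical in
/-- the number of the unions of the least perfect matchings of relations which agree outside `W` -/
theorem card_HG {ι : Type*} (s : Finset ι) (A : ι → V → V → Prop) (w : V → V → ℕ) (W : Finset V)
    (hA : ∀ i ∈ s, ∀ a, ¬ A i a a)
    (hW : ∀ i ∈ s, ∀ j ∈ s, ∀ a b, ¬ (a ∈ W ∧ b ∈ W) → (A i a b ↔ A j a b)) (hw : ∀ a b, w a b = w b a)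
    (k d : ℕ) (hk : 1 ≤ k) (hwk : Diss w k) (hd : W.card < d ^ k) :
    (s.image fun i => HG (A i) w).card ≤ (W.card ^ 2 + 1) ^ (2 * d * W.card * Nat.log 2 (W.card ^ 2)) := by
  have h1 : (W ×ˢ W).card = W.card ^ 2 := by rw [card_product, sq]
  rw [← h1]
  refine le_trans ?_ (card_small (W ×ˢ W) _)
  refine card_le_card_of_injOn (fun R => (W ×ˢ W).filter fun p => R p.1 p.2) ?_ ?_
  · intro R hR
    rw [mem_coe, mem_image] at hR
    obtain ⟨i, hi, rfl⟩ := hR
    rw [mem_coe, mem_filter, mem_powerset, h1]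
    exact ⟨filter_subset _ _, sparse_in (A i) (hA i hi) w hw k d hk hwk W hd⟩
  · intro R hR R' hR' h
    rw [mem_coe, mem_image] at hR hR'
    obtain ⟨i, hi, rfl⟩ := hR
    obtain ⟨j, hj, rfl⟩ := hR'
    refine HG_eq (A i) (A j) w W (hW i hi j hj) fun a ha b hb => ?_
    have h2 : ((a, b) ∈ (W ×ˢ W).filter fun p => HG (A i) w p.1 p.2) ↔
        ((a, b) ∈ (W ×ˢ W).filter fun p => HG (A j) w p.1 p.2) := by
      simp only at h
      rw [h]
    rw [mem_filter, mem_filter, mem_product] at h2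
    constructor
    · intro h3
      exact (h2.1 ⟨⟨ha, hb⟩, h3⟩).2
    · intro h3
      exact (h2.2 ⟨⟨ha, hb⟩, h3⟩).2

open Classical in
/-- the number of the unions of the least perfect matchings of relations which agree outside `W`: at most `2 ^ (8 d r (log r + 1) ^ 2)` -/
theorem card_HG_le {ι : Type*} (s : Finset ι) (A : ι → V → V → Prop) (w : V → V → ℕ) (W : Finset V)
    (hA : ∀ i ∈ s, ∀ a, ¬ A i a a)
    (hW : ∀ i ∈ s, ∀ j ∈ s, ∀ a b, ¬ (a ∈ W ∧ b ∈ W) → (A i a b ↔ A j a b)) (hw : ∀ a b, w a b = w b a)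
    (k d : ℕ) (hk : 1 ≤ k) (hwk : Diss w k) (hd : W.card < d ^ k) :
    (s.image fun i => HG (A i) w).card ≤ 2 ^ (8 * d * W.card * (Nat.log 2 W.card + 1) ^ 2) := by
  obtain ⟨l, hl⟩ : ∃ l, l = Nat.log 2 W.card + 1 := ⟨_, rfl⟩
  have hr : W.card < 2 ^ l := by
    rw [hl]
    exact Nat.lt_pow_succ_log_self one_lt_two _
  have hlog : Nat.log 2 (W.card ^ 2) ≤ 2 * l := by
    rcases Nat.eq_zero_or_pos W.card with h | h
    · rw [h, zero_pow two_ne_zero, Nat.log_zero_right]
      exact Nat.zero_le _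
    · refine (Nat.log_lt_of_lt_pow (pow_pos h 2).ne' ?_).le
      rw [mul_comm 2 l, pow_mul]
      exact Nat.pow_lt_pow_left hr two_ne_zero
  refine (card_HG s A w W hA hW hw k d hk hwk hd).trans ?_
  rw [← hl]
  have h1 : W.card ^ 2 + 1 ≤ 2 ^ (2 * l) := by
    rw [mul_comm 2 l, pow_mul]
    have h2 : W.card + 1 ≤ 2 ^ l := hr
    nlinarith [h2]
  calc (W.card ^ 2 + 1) ^ (2 * d * W.card * Nat.log 2 (W.card ^ 2))
      ≤ (2 ^ (2 * l)) ^ (2 * d * W.card * Nat.log 2 (W.card ^ 2)) := Nat.pow_le_pow_left h1 _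
    _ ≤ (2 ^ (2 * l)) ^ (2 * d * W.card * (2 * l)) :=
        Nat.pow_le_pow_right (pow_pos two_pos _) (Nat.mul_le_mul_left _ hlog)
    _ = 2 ^ (8 * d * W.card * l ^ 2) := by
      rw [← pow_mul]
      congr 1
      ring

end

end LIN
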