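import Pool.Agent.Lib.MP_0087d5_lcQN.CDefs
import Pool.Agent.Lib.MP_0087d5_lcQS.SDefs
import Pool.Agent.Lib.MP_0087d5_lcLI.Exc

/-!
# Weak sources and local noise: the algorithm

`X` is the source, a graph on `Fin N`, `L = Nat.log 2 N`. The walk of the folded Reed-Solomon symbols of `X` in `F_q ^ (12 L)` gives the numbers: the coordinate `i` (for `1 ≤ i < 4 L`) is the number of the round `i`, the coordinates `4 L + j`, `8 L + j` (`j < 4 L`) are the numbers of the test.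
The number of the round `0` is a parameter. The parameters are `κ = (K, m, q, g, y, t, r0)`.
-/

set_option autoImplicit false
set_option linter.all false

namespace QLN

open Finset Pool.Agent Pool.Agent.PMNC MTC LIN PRS QRB QSR

section
variable {N : ℕ}

/-- `x ^ (k L)` (if `k L ≤ N`) -/
noncomputable def pL (N k : ℕ) (x : ℤ) : ℤ := ∏ j : Fin N, cnd ((j : ℕ) < k * Nat.log 2 N) x 1

/-- the coordinate `k L + i` of the walk of the source `X` at the time `t`, as an integer -/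
noncomputable def zp (k : ℕ) (X : SimpleGraph (Fin N)) (g y : ℤ) (t i : ℕ) : ℤ :=
  zf X (pL N k g * g ^ i * y) + ∑ s ∈ range t, zf X (pL N 12 g * g ^ (2 * s + 1) * y) * (pL N k (zf X (pL N 12 g * g ^ (2 * s) * y)) * zf X (pL N 12 g * g ^ (2 * s) * y) ^ i)

end

/-- the parameters `K, m, q, g, y, t, r0` -/
abbrev Pq (S : ℕ → Type) (N : ℕ) : Type := S N × (S N × (S N × (S N × (S N × (S N × S N)))))

section
variable {S : ℕ → Type} [Env S] [∀ n, Fintype (S n)] {N : ℕ}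

/-- the coordinate `k L + i` with the parameters `κ` -/
noncomputable def zk (k : ℕ) (X : SimpleGraph (Fin N)) (κ : Pq S N) (i : Fin N) : ℤ :=
  zp k X (nv κ.2.2.2.1) (nv κ.2.2.2.2.1) (nv κ.2.2.2.2.2.1) i

/-- the number of the round `i` -/
noncomputable def nr (X : SimpleGraph (Fin N)) (κ : Pq S N) (i : Fin N) : ℤ :=
  cnd ((i : ℕ) = 0) ((nv κ.2.2.2.2.2.2 : ℕ) : ℤ) ((rz (nv κ.2.2.1) (zk 0 X κ i) : ℕ) : ℤ)

/-- the first number of the row `j` of the test -/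
noncomputable def ns (X : SimpleGraph (Fin N)) (κ : Pq S N) (j : Fin N) : ℤ := ((rz (nv κ.2.2.1) (zk 4 X κ j) : ℕ) : ℤ)

/-- the substituted numbers -/
noncomputable def zY (X : SimpleGraph (Fin N)) (κ : Pq S N) (x y : Fin N) : ℤ :=
  ∏ j : Fin N, cnd ((j : ℕ) < 4 * Nat.log 2 N) (zk 8 X κ j ^ rz (nv κ.2.1) (ns X κ j ^ eid x y)) 1

/-- entries of the matrix for the graph of `P` without `v` and `w`, at the number `t` -/
noncomputable def ent (X : SimpleGraph (Fin N)) (κ : Pq S N) (i : Fin N) (P : Fin N → Fin N → S N → Prop) (v w : Fin N) (t : ℤ) (x y : Fin N) : ℤ :=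
  cnd (x < y) 1 (-1) * zY X κ x y * cnd (¬ v = w ∧ ((x = v ∧ y = w) ∨ (x = w ∧ y = v))) 1
    (cnd (¬ v = w ∧ (x = v ∨ x = w ∨ y = v ∨ y = w)) 0 ((∑ z : S N, cnd (P x y z) ((t ^ nv κ.1) ^ nv z) 0) * t ^ rz (nv κ.2.1) (nr X κ i ^ eid x y)))

/-- the coefficient of `t ^ (q - 1 - e)` of the determinant, up to the sign -/
noncomputable def cfc (X : SimpleGraph (Fin N)) (κ : Pq S N) (i : Fin N) (P : Fin N → Fin N → S N → Prop) (v w : Fin N) (e : S N) : ℤ :=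
  ∑ t : S N, cnd (nv t < nv κ.2.2.1 ∧ ¬ nv t = 0) (((nv t : ℕ) : ℤ) ^ nv e * zdet (T := fun n => Fin n) (ent X κ i P v w ((nv t : ℕ) : ℤ))) 0

/-- the computed least weight -/
def LwC (X : SimpleGraph (Fin N)) (κ : Pq S N) (i : Fin N) (P : Fin N → Fin N → S N → Prop) (v w : Fin N) (c : S N) : Prop :=
  (¬ nv κ.2.1 = 0) ∧ (¬ nv κ.2.2.1 = 0) ∧ (∃ e : S N, (¬ nv e = 0) ∧ nv c + nv e + 1 = nv κ.2.2.1 ∧ nd κ.2.2.1 (cfc X κ i P v w e)) ∧
    ∀ c' e' : S N, nv c' < nv c → nv c' + nv e' + 1 = nv κ.2.2.1 → ¬ nd κ.2.2.1 (cfc X κ i P v w e')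

def MuC (X : SimpleGraph (Fin N)) (κ : Pq S N) (i : Fin N) (P : Fin N → Fin N → S N → Prop) (v : Fin N) (c : S N) : Prop :=
  (∃ w, (¬ w = v) ∧ LwC X κ i P v w c) ∧ ∀ (w : Fin N) (c' : S N), (¬ w = v) → LwC X κ i P v w c' → nv c ≤ nv c'

/-- the weight of the pair `x y` -/
def UvC (X : SimpleGraph (Fin N)) (κ : Pq S N) (i : Fin N) (P : Fin N → Fin N → S N → Prop) (x y : Fin N) (d : S N) : Prop :=
  (¬ nv κ.2.1 = 0) ∧ (¬ nv κ.2.2.1 = 0) ∧ nv d < nv κ.2.2.1 ∧ ∃ z : S N, P x y z ∧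
    ((nv κ.2.2.1 : ℕ) : ℤ) ∣ ((nv d : ℕ) : ℤ) - (((nv κ.1 : ℕ) : ℤ) * ((nv z : ℕ) : ℤ) + ((rz (nv κ.2.1) (nr X κ i ^ eid x y) : ℕ) : ℤ))

def FvC (X : SimpleGraph (Fin N)) (κ : Pq S N) (i : Fin N) (P : Fin N → Fin N → S N → Prop) (x y : Fin N) (d : S N) : Prop :=
  ∃ c c' u s1 s2 : S N, MuC X κ i P x c ∧ MuC X κ i P y c' ∧ UvC X κ i P x y u ∧ nv u + nv u = nv s1 ∧ nv c + nv c' = nv s2 ∧ nv s1 + nv s2 = nv d

def HhC (X : SimpleGraph (Fin N)) (κ : Pq S N) (i : Fin N) (P : Fin N → Fin N → S N → Prop) (x y : Fin N) : Prop :=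
  ∃ c c0 u s1 : S N, LwC X κ i P x y c ∧ LwC X κ i P x x c0 ∧ UvC X κ i P x y u ∧ nv u + nv u = nv s1 ∧ nv c + nv s1 = nv c0

/-- the relation `P` restricted to the computed graph -/
def PnC (X : SimpleGraph (Fin N)) (κ : Pq S N) (i : Fin N) (P : Fin N → Fin N → S N → Prop) (x y : Fin N) (z : S N) : Prop := HhC X κ i P x y ∧ P x y z

/-- the next state -/
def StC (X : SimpleGraph (Fin N)) (κ : Pq S N) (i : Fin N) (P : Fin N → Fin N → S N → Prop) (x y : Fin N) (z : S N) : Prop :=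
  HhC X κ i P x y ∧ nv z = Nat.card {d : S N // (∃ x' y' : Fin N, HhC X κ i P x' y' ∧ FvC X κ i (PnC X κ i P) x' y' d) ∧
    ∃ d' : S N, FvC X κ i (PnC X κ i P) x y d' ∧ nv d < nv d'}

/-- one round for all the stages: `R (i, x, y, z)` is the state `i` -/
def opC (X T : SimpleGraph (Fin N)) (κ : Pq S N) (R : Fin N × (Fin N × (Fin N × S N)) → Prop) (s : Fin N × (Fin N × (Fin N × S N))) : Prop :=
  ((s.1 : ℕ) = 0 ∧ T.Adj s.2.1 s.2.2.1 ∧ nv s.2.2.2 = 0) ∨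
    ∃ j : Fin N, (j : ℕ) + 1 = (s.1 : ℕ) ∧ StC X κ j (fun x y z => R (j, (x, (y, z)))) s.2.1 s.2.2.1 s.2.2.2

/-- the output: the edges of the state `4 L` -/
def OutR (X T : SimpleGraph (Fin N)) (κ : Pq S N) (x y : Fin N) : Prop :=
  T.Adj x y ∧ ∃ (i : Fin N) (z : S N), ((¬ (i : ℕ) < 4 * Nat.log 2 N) ∧ ∀ j : Fin N, j < i → (j : ℕ) < 4 * Nat.log 2 N) ∧
    ((opC X T κ)^[4 * Nat.size N] fun _ => False) (i, (x, (y, z)))

end

section
variable (S : ℕ → Type) [Env S] [∀ n, Fintype (S n)] {N : ℕ}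

/-- the least parameters which give a perfect matching of a tested graph `T1 … d` -/
def LsQ (G : SimpleGraph (Fin N)) (e : Fin N × Pq S N) : Prop :=
  PMr (OutR (SP N G) (T1 N G e.1) e.2) ∧ ∀ e' : Fin N × Pq S N, PMr (OutR (SP N G) (T1 N G e'.1) e'.2) →
    e.1 < e'.1 ∨ (e.1 = e'.1 ∧ nv (S := fun n => Pq S n) e.2 ≤ nv (S := fun n => Pq S n) e'.2)

/-- the matching in the first half -/
def MQ (G : SimpleGraph (Fin N)) (u v : Fin N) : Prop :=
  lo u ∧ lo v ∧ ∃ e : Fin N × Pq S N, LsQ S G e ∧ OutR (SP N G) (T1 N G e.1) e.2 u v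

/-- the set `D` of the decomposition of Gallai and Edmonds, in the first half -/
def GQ (G : SimpleGraph (Fin N)) (v : Fin N) : Prop :=
  lo v ∧ ∃ e : Fin N × Pq S N, LsQ S G e ∧ ∃ κ : Pq S N, PMr (OutR (SP N G) (T2 N G (e.1, v)) κ)

/-- the set `A` of the decomposition of Gallai and Edmonds, in the first half -/
def UQ (G : SimpleGraph (Fin N)) (w : Fin N) : Prop := lo w ∧ ¬ GQ S G w ∧ ∃ u, GQ S G u ∧ G.Adj w u

end

section
variable {N q D : ℕ}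

/-- the numbers of the rounds of the point `z` -/
def rZ (r0 : ℕ) (z : Fin D → ZMod q) (i : ℕ) : ℕ := if i = 0 then r0 else (MTC.ext z i).val

/-- the substituted numbers of the point `z` -/
noncomputable def YZ (R m : ℕ) (z : Fin D → ZMod q) (x y : Fin N) : ZMod q :=
  ∏ j : Fin R, MTC.ext z (2 * R + (j : ℕ)) ^ ((MTC.ext z (R + (j : ℕ))).val ^ eid x y % m)

/-- the point `z` is good for the graph `H` -/
def GoodZ (R K m r0 : ℕ) (H : Fin N → Fin N → Prop) (z : Fin D → ZMod q) : Prop :=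
  (∃ f, MTC.IsPM H f ∧ ∀ f', MTC.IsPM H f' → f' ≠ f →
    MTC.tw (QSR.WS (fun x y => eid x y) K m (rZ r0 z) R) f < MTC.tw (QSR.WS (fun x y => eid x y) K m (rZ r0 z) R) f') ∧
  ∀ i < R, ∀ v w : Fin N,
    GoodY q (Am (Sq H (fun x y => eid x y) K m (rZ r0 z) i).1 v w) (um (UU K m (fun x y => eid x y) (rZ r0 z i) (Sq H (fun x y => eid x y) K m (rZ r0 z) i).2) v w) (YZ R m z) ∧
    GoodY q (Am (Sq H (fun x y => eid x y) K m (rZ r0 z) (i + 1)).1 v w) (um (UU K m (fun x y => eid x y) (rZ r0 z i) (Sq H (fun x y => eid x y) K m (rZ r0 z) i).2) v w) (YZ R m z)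

end

end QLN
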