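import Pool.Agent.Lib.MP_0087d5_lcQN.K1
import Pool.Agent.Lib.MP_0087d5_lcQN.SDefs

/-!
# Leaf E1 (medium): the coefficient at the least weight depends only on the perfect matchings of least weight

`coeff_sub`. Proof: `det_eq_sum_col` for both matrices; the term of a permutation `σ` is `C (sign σ * ∏ b (σ x) x) * X ^ ∑ w x (σ x)` (`hterm` in the proof of `Pool.Agent.FRC.Uni.coeff_det_wm`, file MP_0087d5_lc/FRC/Uni). Let `Col σ` with the colouring `χ` and `∑ w x (σ x) = c`. If all `b (σ x) x ≠ 0`, then `mat σ χ` and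
`mat σ (!χ)` are matchings (`mt_mat`) of total weight `2 c` (`sum_two`), both at least `c` (`hc`), so both `= c`, and by `he` `b'` and `b` agree on their edges, which are the pairs `x, σ x` (or `σ x, x`: skew symmetry). If some `b (σ x) x = 0`, then also `b' (σ x) x = 0` (`hsub`).
`good_sub`. `LW A ω c ↔ LW A' ω c` (`A' ⊆ A`, all least perfect matchings of `A` are along `A'`, `hH`); apply `coeff_sub` with `b = bY p A Y`, `b' = bY p A' Y` (`QSR.bY`, `QSR.zBr`; skew-symmetric with diagonal `0`, see `P1_zBr`, `P1_supp` in QS/P1; `Mt b f → IsPM A f`; `tw ω f = ∑ ω v (f v)`), `c` the least weight.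
`good_am`. `good_sub` for `Am A x y`, `Am (HH A u) x y`, `um u x y`, `x ≠ y` (as `HH A u x y` implies `A x y`). The perfect matchings `f` of `Am A x y` are those of `A` with `f x = y` (for `A x y`), `tw (um u x y) f + 2 * u x y = tw u f`; as `x y` is in `HG A u` (`stp_ok`), those of least weight are the perfect matchings of `A` of least weight
with `f x = y`, all along `HH A u` (see `K1_am`, `K1_am_v`, `K1_am_b`, `K1_am_x` in QS/K1 for `Am`). `good_diag`: `good_sub` with `A' = HH A u`.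
-/

set_option autoImplicit false
set_option linter.all false

namespace QLN

open Finset Pool.Agent Pool.Agent.PMNC MTC LIN PRS QRB QSR

private theorem E1_term {V : Type} [Fintype V] [DecidableEq V] {R : Type} [CommRing R] (b : V → V → R) (w : V → V → ℕ) (hw : ∀ u v, w u v = w v u)
    (σ : Equiv.Perm V) :
    (((Equiv.Perm.sign σ : ℤ) : Polynomial R) * ∏ x, Pool.Agent.FRC.Uni.wm b w (σ x) x) =
      Polynomial.C (((Equiv.Perm.sign σ : ℤ) : R) * ∏ x, b (σ x) x) * Polynomial.X ^ (∑ x, w x (σ x)) := by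
  simp only [Pool.Agent.FRC.Uni.wm, Matrix.of_apply]
  rw [Finset.prod_mul_distrib, Finset.prod_pow_eq_pow_sum, Polynomial.C_mul, ← map_prod]
  have e : ∑ x, w (σ x) x = ∑ x, w x (σ x) := Finset.sum_congr rfl fun x _ => hw _ _
  rw [e]
  simp only [map_intCast]
  ring

private theorem E1_zBr {N : ℕ} (A : Fin N → Fin N → Prop) (hs : ∀ x y, A x y → A y x) (hi : ∀ x, ¬ A x x) (x y : Fin N) :
    zBr A x y = - zBr A y x := by
  unfold zBr
  by_cases h : A x y
  · have h' : A y x := hs x y h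
    have hne : x ≠ y := fun e => hi y (e ▸ h)
    rw [cnd_pos h, cnd_pos h']
    rcases lt_or_gt_of_ne hne with h1 | h1
    · rw [cnd_pos h1, cnd_neg (not_lt.2 h1.le), neg_neg]
    · rw [cnd_neg (not_lt.2 h1.le), cnd_pos h1]
  · have h' : ¬ A y x := fun e => h (hs y x e)
    rw [cnd_neg h, cnd_neg h', neg_zero]

private theorem E1_supp {N P : ℕ} [Fact P.Prime] (A : Fin N → Fin N → Prop) (x y : Fin N) :
    ((zBr A x y : ℤ) : ZMod P) ≠ 0 ↔ A x y := by
  unfold zBr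
  by_cases h : A x y
  · rw [cnd_pos h]
    refine ⟨fun _ => h, fun _ => ?_⟩
    by_cases h1 : x < y
    · rw [cnd_pos h1, Int.cast_one]
      exact one_ne_zero
    · rw [cnd_neg h1, Int.cast_neg, Int.cast_one]
      exact neg_ne_zero.2 one_ne_zero
  · rw [cnd_neg h, Int.cast_zero]
    exact ⟨fun h1 => absurd rfl h1, fun h1 => absurd h1 h⟩

/-- a perfect matching with the edge `v (f v)` -/
private theorem E1_am {V : Type} [Fintype V] [DecidableEq V] {A : V → V → Prop} {f : V → V} (hf : IsPM A f) {v b : V} (hb : f v = b) (hvb : v ≠ b) :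
    IsPM (Am A v b) f := by
  refine ⟨hf.1, fun x => Or.inr ⟨hvb, ?_⟩⟩
  have hbv : f b = v := by rw [← hb]; exact hf.1 v
  by_cases h1 : x = v
  · exact Or.inr (Or.inl ⟨h1, by rw [h1, hb]⟩)
  · by_cases h2 : x = b
    · exact Or.inr (Or.inr ⟨h2, by rw [h2, hbv]⟩)
    · refine Or.inl ⟨hf.2 x, h1, h2, fun h => h2 ?_, fun h => h1 ?_⟩
      · rw [← hf.1 x, h, hb]
      · rw [← hf.1 x, h, hbv]

/-- the matchings of `Am A v b` -/
private theorem E1_am_v {V : Type} [Fintype V] [DecidableEq V] {A : V → V → Prop} {f : V → V} {v b : V} (hf : IsPM (Am A v b) f) (hvb : b ≠ v) : f v = b := by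
  rcases hf.2 v with h | ⟨_, h | h | h⟩
  · exact absurd h.1.symm hvb
  · exact absurd rfl h.2.1
  · exact h.2
  · exact absurd h.1.symm hvb

private theorem E1_am_x {V : Type} [Fintype V] [DecidableEq V] {A : V → V → Prop} {f : V → V} {v b x : V} (hf : IsPM (Am A v b) f) (hvb : b ≠ v) (h1 : x ≠ v) (h2 : x ≠ b) :
    A x (f x) := by
  rcases hf.2 x with h | ⟨_, h | h | h⟩
  · exact absurd h.1.symm hvb
  · exact h.1
  · exact absurd h.1 h1
  · exact absurd h.1 h2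

/-- a perfect matching of `Am A v b` is one of `A` if `v b` is an edge -/
private theorem E1_pm {V : Type} [Fintype V] [DecidableEq V] {A : V → V → Prop} (hs : ∀ x y, A x y → A y x) {f : V → V} {v b : V}
    (hf : IsPM (Am A v b) f) (hvb : b ≠ v) (hA : A v b) : IsPM A f := by
  refine ⟨hf.1, fun x => ?_⟩
  have e1 : f v = b := E1_am_v hf hvb
  have e2 : f b = v := by rw [← e1]; exact hf.1 v
  by_cases h1 : x = v
  · rw [h1, e1]
    exact hA
  · by_cases h2 : x = b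
    · rw [h2, e2]
      exact hs _ _ hA
    · exact E1_am_x hf hvb h1 h2

private theorem E1_tw {V : Type} [Fintype V] [DecidableEq V] (u : V → V → ℕ) (hu : ∀ x y, u x y = u y x) {f : V → V} (hf : ∀ v, f (f v) = v) {x y : V} (hxy : x ≠ y)
    (h : f x = y) : MTC.tw (um u x y) f + 2 * u x y = MTC.tw u f := by
  have h' : f y = x := by rw [← h]; exact hf x
  have e : ∀ v, u v (f v) = um u x y v (f v) + ((if v = x then u x y else 0) + (if v = y then u x y else 0)) := by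
    intro v
    by_cases h1 : v = x
    · have h2 : um u x y v (f v) = 0 := if_pos ⟨hxy, Or.inl ⟨h1, by rw [h1, h]⟩⟩
      rw [h2, if_pos h1, if_neg (fun e => hxy (h1.symm.trans e)), h1, h]
      omega
    · by_cases h2 : v = y
      · have h3 : um u x y v (f v) = 0 := if_pos ⟨hxy, Or.inr ⟨h2, by rw [h2, h']⟩⟩
        rw [h3, if_neg h1, if_pos h2, h2, h', hu]
        omega
      · have h3 : um u x y v (f v) = u v (f v) := if_neg fun e => e.2.elim (fun e => h1 e.1) (fun e => h2 e.1)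
        rw [h3, if_neg h1, if_neg h2, add_zero, add_zero]
  unfold MTC.tw
  rw [Finset.sum_congr rfl fun v _ => e v, Finset.sum_add_distrib, Finset.sum_add_distrib, Finset.sum_ite_eq', Finset.sum_ite_eq',
    if_pos (Finset.mem_univ _), if_pos (Finset.mem_univ _)]
  omega

theorem coeff_sub {V : Type} [Fintype V] [DecidableEq V] {R : Type} [CommRing R] [IsDomain R] (b b' : V → V → R) (h0 : ∀ v, b v v = 0)
    (hb : ∀ u v, b u v = - b v u) (hb' : ∀ u v, b' u v = - b' v u) (hsub : ∀ u v, b' u v = b u v ∨ b' u v = 0) (w : V → V → ℕ) (hw : ∀ u v, w u v = w v u)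
    (c : ℕ) (hc : ∀ f, Pool.Agent.FRC.Uni.Mt b f → c ≤ ∑ v, w v (f v))
    (he : ∀ f, Pool.Agent.FRC.Uni.Mt b f → ∑ v, w v (f v) = c → ∀ v, b' v (f v) = b v (f v)) :
    (Pool.Agent.FRC.Uni.wm b w).det.coeff c = (Pool.Agent.FRC.Uni.wm b' w).det.coeff c := by
  classical
  have h0' : ∀ v, b' v v = 0 := fun v => (hsub v v).elim (fun e => e.trans (h0 v)) id
  rw [Pool.Agent.FRC.Uni.det_eq_sum_col (Pool.Agent.FRC.Uni.wm b w) (fun v => by simp [Pool.Agent.FRC.Uni.wm, h0]) (fun u v => by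
      simp only [Pool.Agent.FRC.Uni.wm, Matrix.of_apply]
      rw [hb u v, hw u v, Polynomial.C_neg, neg_mul]),
    Pool.Agent.FRC.Uni.det_eq_sum_col (Pool.Agent.FRC.Uni.wm b' w) (fun v => by simp [Pool.Agent.FRC.Uni.wm, h0']) (fun u v => by
      simp only [Pool.Agent.FRC.Uni.wm, Matrix.of_apply]
      rw [hb' u v, hw u v, Polynomial.C_neg, neg_mul]),
    Polynomial.finsetSum_coeff, Polynomial.finsetSum_coeff]
  refine Finset.sum_congr rfl fun σ hσ => ?_
  rw [E1_term b w hw, E1_term b' w hw, Polynomial.coeff_C_mul_X_pow, Polynomial.coeff_C_mul_X_pow]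
  by_cases hcs : c = ∑ x, w x (σ x)
  swap
  · rw [if_neg hcs, if_neg hcs]
  rw [if_pos hcs, if_pos hcs]
  refine congrArg _ ?_
  obtain ⟨χ, hχ⟩ := (Finset.mem_filter.1 hσ).2
  by_cases hne : ∀ v, b (σ v) v ≠ 0
  · have h1 := Pool.Agent.FRC.Uni.mt_mat hb hχ hne
    have h2 := Pool.Agent.FRC.Uni.mt_mat hb (χ := fun v => !χ v) (fun v => by simp [hχ v]) hne
    have h3 := Pool.Agent.FRC.Uni.sum_two hχ w hw
    have h4 := hc _ h1
    have h5 := hc _ h2
    have e1 : ∑ v, w v (Pool.Agent.FRC.Uni.mat σ χ v) = c := by omega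
    have e2 : ∑ v, w v (Pool.Agent.FRC.Uni.mat σ (fun v => !χ v) v) = c := by omega
    have h6 := he _ h1 e1
    have h7 := he _ h2 e2
    refine Finset.prod_congr rfl fun v _ => ?_
    have h8 : b' v (σ v) = b v (σ v) := by
      cases hv : χ v with
      | true =>
        have h9 := h6 v
        rw [Pool.Agent.FRC.Uni.mat, if_pos hv] at h9
        exact h9
      | false =>
        have h9 := h7 v
        rw [Pool.Agent.FRC.Uni.mat, if_pos (by rw [hv]; rfl)] at h9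
        exact h9
    rw [hb (σ v) v, hb' (σ v) v, h8]
  · push Not at hne
    obtain ⟨v, hv⟩ := hne
    have hv' : b' (σ v) v = 0 := (hsub (σ v) v).elim (fun e => e.trans hv) id
    have e1 : ∏ x, b (σ x) x = 0 := Finset.prod_eq_zero (Finset.mem_univ v) hv
    have e2 : ∏ x, b' (σ x) x = 0 := Finset.prod_eq_zero (Finset.mem_univ v) hv'
    rw [e1, e2]

theorem good_sub {N p : ℕ} [Fact p.Prime] (A A' : Fin N → Fin N → Prop) (hs : ∀ x y, A x y → A y x) (hi : ∀ x, ¬ A x x) (hs' : ∀ x y, A' x y → A' y x)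
    (hsub : ∀ x y, A' x y → A x y) (ω : Fin N → Fin N → ℕ) (hω : ∀ x y, ω x y = ω y x) (hH : ∀ x y, HG A ω x y → A' x y) (hM : ∃ f, MTC.IsPM A f)
    (Y : Fin N → Fin N → ZMod p) (hY : ∀ x y, Y x y = Y y x) (h : GoodY p A' ω Y) : GoodY p A ω Y := by
  intro c hc
  have hi' : ∀ x, ¬ A' x x := fun x hx => hi x (hsub x x hx)
  have hskew : ∀ (B : Fin N → Fin N → Prop), (∀ x y, B x y → B y x) → (∀ x, ¬ B x x) → ∀ x y, bY p B Y x y = - bY p B Y y x := by
    intro B h1 h2 x y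
    unfold bY
    rw [E1_zBr B h1 h2 x y, hY x y, Int.cast_neg, neg_mul]
  have hpm : ∀ f, IsPM A' f → IsPM A f := fun f hf => ⟨hf.1, fun v => hsub _ _ (hf.2 v)⟩
  have hmt : ∀ f, Pool.Agent.FRC.Uni.Mt (bY p A Y) f → IsPM A f := by
    intro f hf
    refine ⟨hf.invol, fun v => (E1_supp (P := p) A v (f v)).1 fun h0 => hf.supp v ?_⟩
    unfold bY
    rw [h0, zero_mul]
  have hmin : ∀ f, IsPM A f → MTC.tw ω f = c → ∀ v, A' v (f v) := fun f hf hfc v =>
    hH _ _ ⟨f, ⟨hf, fun g hg => hfc.le.trans (hc.2 g hg)⟩, rfl⟩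
  have hc' : LW A' ω c := by
    refine ⟨?_, fun f hf => hc.2 f (hpm f hf)⟩
    obtain ⟨f, hf, hfc⟩ := hc.1
    exact ⟨f, ⟨hf.1, hmin f hf hfc⟩, hfc⟩
  have hzA : ∀ x y, A' x y → bY p A' Y x y = bY p A Y x y := by
    intro x y hxy
    unfold bY zBr
    rw [cnd_pos hxy, cnd_pos (hsub x y hxy)]
  have key := coeff_sub (bY p A Y) (bY p A' Y) (fun v => by
      unfold bY zBr
      rw [cnd_neg (hi v), Int.cast_zero, zero_mul]) (hskew A hs hi) (hskew A' hs' hi') (fun x y => by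
      by_cases hxy : A' x y
      · exact Or.inl (hzA x y hxy)
      · refine Or.inr ?_
        unfold bY zBr
        rw [cnd_neg hxy, Int.cast_zero, zero_mul]) ω hω c (fun f hf => hc.2 f (hmt f hf))
      (fun f hf hfc v => hzA _ _ (hmin f (hmt f hf) hfc v))
  rw [key]
  exact h c hc'

theorem good_am {N p : ℕ} [Fact p.Prime] (A : Fin N → Fin N → Prop) (hs : ∀ x y, A x y → A y x) (hi : ∀ x, ¬ A x x) (u : Fin N → Fin N → ℕ)
    (hu : ∀ x y, u x y = u y x) (hM : ∃ f, MTC.IsPM A f) (Y : Fin N → Fin N → ZMod p) (hY : ∀ x y, Y x y = Y y x) (x y : Fin N) (hxy : HH A u x y)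
    (h : GoodY p (Am (HH A u) x y) (um u x y) Y) : GoodY p (Am A x y) (um u x y) Y := by
  obtain ⟨k1, k2, k3, k4, -⟩ := stp_ok A hs hi u hu hM
  have hA : A x y := k2 x y hxy
  have hne : x ≠ y := fun e => hi y (e ▸ hA)
  obtain ⟨g, hg, hgx⟩ := (k1 x y).1 hxy
  have hg' : IsPM (Am A x y) g := E1_am hg.1 hgx hne
  have hsym : ∀ (B : Fin N → Fin N → Prop), (∀ x y, B x y → B y x) → ∀ a b, Am B x y a b → Am B x y b a := by
    intro B hB a b hab
    rcases hab with ⟨h1, h2⟩ | ⟨h1, ⟨h2, h3, h4, h5, h6⟩ | ⟨h2, h3⟩ | ⟨h2, h3⟩⟩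
    · exact Or.inl ⟨h1, hB _ _ h2⟩
    · exact Or.inr ⟨h1, Or.inl ⟨hB _ _ h2, h5, h6, h3, h4⟩⟩
    · exact Or.inr ⟨h1, Or.inr (Or.inr ⟨h3, h2⟩)⟩
    · exact Or.inr ⟨h1, Or.inr (Or.inl ⟨h3, h2⟩)⟩
  refine good_sub (Am A x y) (Am (HH A u) x y) (hsym A hs) ?_ (hsym _ k3) ?_ (um u x y) ?_ ?_ ⟨g, hg'⟩ Y hY h
  · intro a ha
    rcases ha with ⟨h1, h2⟩ | ⟨h1, ⟨h2, -⟩ | ⟨h2, h3⟩ | ⟨h2, h3⟩⟩
    · exact hi _ h2
    · exact hi _ h2
    · exact hne (h2.symm.trans h3)
    · exact hne (h3.symm.trans h2)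
  · intro a b hab
    rcases hab with ⟨h1, h2⟩ | ⟨h1, ⟨h2, h3⟩ | h2 | h2⟩
    · exact Or.inl ⟨h1, k2 _ _ h2⟩
    · exact Or.inr ⟨h1, Or.inl ⟨k2 _ _ h2, h3⟩⟩
    · exact Or.inr ⟨h1, Or.inr (Or.inl h2)⟩
    · exact Or.inr ⟨h1, Or.inr (Or.inr h2)⟩
  · intro a b
    unfold um
    by_cases h1 : x ≠ y ∧ ((a = x ∧ b = y) ∨ (a = y ∧ b = x))
    · rw [if_pos h1, if_pos ⟨h1.1, h1.2.elim (fun e => Or.inr ⟨e.2, e.1⟩) (fun e => Or.inl ⟨e.2, e.1⟩)⟩]
    · rw [if_neg h1, if_neg fun e => h1 ⟨e.1, e.2.elim (fun e => Or.inr ⟨e.2, e.1⟩) (fun e => Or.inl ⟨e.2, e.1⟩)⟩, hu]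
  · rintro a b ⟨f, hf, rfl⟩
    have hfx : f x = y := E1_am_v hf.1 hne.symm
    have hfA : IsPM A f := E1_pm hs hf.1 hne.symm hA
    have t1 := E1_tw u hu hfA.1 hne hfx
    have t2 := E1_tw u hu hg.1.1 hne hgx
    have t3 := hf.2 g hg'
    have hfm : IsMin A u f := ⟨hfA, fun g' hg'' => by
      have t4 := hg.2 g' hg''
      omega⟩
    have hfH : IsPM (HH A u) f := ⟨hfA.1, fun v => (k1 _ _).2 ⟨f, hfm, rfl⟩⟩
    exact (E1_am hfH hfx hne).2 a

theorem good_diag {N p : ℕ} [Fact p.Prime] (A : Fin N → Fin N → Prop) (hs : ∀ x y, A x y → A y x) (hi : ∀ x, ¬ A x x) (u : Fin N → Fin N → ℕ)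
    (hu : ∀ x y, u x y = u y x) (hM : ∃ f, MTC.IsPM A f) (Y : Fin N → Fin N → ZMod p) (hY : ∀ x y, Y x y = Y y x)
    (h : GoodY p (HH A u) u Y) : GoodY p A u Y := by
  obtain ⟨k1, k2, k3, k4, -⟩ := stp_ok A hs hi u hu hM
  exact good_sub A (HH A u) hs hi k3 k2 u hu (fun x y hxy => (k1 x y).2 hxy) hM Y hY h

end QLN
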