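import Pool.Agent.Lib.MP_0087d5_lcQN.K1

/-!
# Leaf K2 (easy+): the states have the perfect matchings of least weight of the isolating weights

Proof: copy of leaf K2 of MP_0087d5_lcQS (`st_inv`, `st_last`, by helper57) with `stp_ok` (leaf K1) in place of `compress`. `sq_start`: induction on `i`; `i = 0`: `stp T ω = stp (HH T ω) ω` by `hh_hh`, `ω = UU K m e (r 0) (fun _ _ => 0)` (the ranks of the state `0` of both are `0`).
-/

set_option autoImplicit false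
set_option linter.all false

namespace QLN

open Finset MTC QSR

section
variable {V : Type} [Fintype V] [DecidableEq V]

omit [DecidableEq V] in
private theorem K2_tw (K : ℕ) (ρ w : V → V → ℕ) (f : V → V) :
    tw (fun x y => K * ρ x y + w x y) f = K * tw ρ f + tw w f := by
  unfold tw
  rw [mul_sum, ← sum_add_distrib]

omit [DecidableEq V] in
private theorem K2_dom {K : ℕ} (A : V → V → Prop) (ρ w : V → V → ℕ) (hw : ∀ f, tw w f < K) (f : V → V) :
    IsMin A (fun x y => K * ρ x y + w x y) f ↔ IsMin A ρ f ∧ ∀ g, IsMin A ρ g → tw w f ≤ tw w g := by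
  constructor
  · rintro ⟨h1, h2⟩
    have h3 : ∀ g, IsPM A g → tw ρ f ≤ tw ρ g := by
      intro g hg
      have h4 := h2 g hg
      rw [K2_tw, K2_tw] at h4
      by_contra h5
      have h6 : K * (tw ρ g + 1) ≤ K * tw ρ f := Nat.mul_le_mul_left K (by omega)
      rw [mul_add, mul_one] at h6
      have h7 := hw g
      omega
    refine ⟨⟨h1, h3⟩, fun g hg => ?_⟩
    have h4 := h2 g hg.1
    rw [K2_tw, K2_tw] at h4
    have h5 : tw ρ f = tw ρ g := le_antisymm (h3 g hg.1) (hg.2 f h1)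
    rw [h5] at h4
    omega
  · rintro ⟨h1, h2⟩
    refine ⟨h1.1, fun g hg => ?_⟩
    rw [K2_tw, K2_tw]
    have h3 := h1.2 g hg
    rcases Nat.lt_or_ge (tw ρ f) (tw ρ g) with h4 | h4
    · have h6 : K * (tw ρ f + 1) ≤ K * tw ρ g := Nat.mul_le_mul_left K h4
      rw [mul_add, mul_one] at h6
      have h7 := hw f
      omega
    · have h5 : tw ρ f = tw ρ g := le_antisymm h3 h4
      have h6 : IsMin A ρ g := ⟨hg, fun g' hg' => by
        rw [← h5]
        exact h1.2 g' hg'⟩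
      have h7 := h2 g h6
      rw [h5]
      omega

omit [DecidableEq V] in
private theorem K2_exists {A : V → V → Prop} (w : V → V → ℕ) (hM : ∃ f, IsPM A f) : ∃ f, IsMin A w f := by
  classical
  obtain ⟨n, hn⟩ : ∃ n, n = Nat.find (p := fun n => ∃ f, IsPM A f ∧ tw w f = n)
      (by obtain ⟨f, hf⟩ := hM; exact ⟨_, f, hf, rfl⟩) := ⟨_, rfl⟩
  obtain ⟨f, hf, hf2⟩ := Nat.find_spec (p := fun n => ∃ f, IsPM A f ∧ tw w f = n)
      (by obtain ⟨f, hf⟩ := hM; exact ⟨_, f, hf, rfl⟩)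
  refine ⟨f, hf, fun g hg => ?_⟩
  rw [hf2]
  exact Nat.find_min' _ ⟨g, hg, rfl⟩

omit [DecidableEq V] in
private theorem K2_bd (e : V → V → ℕ) {K m : ℕ} (hm : 0 < m) (hK : Fintype.card V * m < K) (r : ℕ) (f : V → V) :
    tw (fun x y => r ^ e x y % m) f < K := by
  refine lt_of_le_of_lt ?_ hK
  unfold tw
  rw [← smul_eq_mul, ← Finset.card_univ]
  exact Finset.sum_le_card_nsmul _ _ _ fun u _ => (Nat.mod_lt _ hm).le

theorem sq_inv (T : V → V → Prop) (hs : ∀ x y, T x y → T y x) (hi : ∀ x, ¬ T x x) (e : V → V → ℕ) (he : ∀ x y, e x y = e y x) (K m : ℕ) (hm : 0 < m)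
    (hK : Fintype.card V * m < K) (r : ℕ → ℕ) (hM : ∃ f, IsPM T f) (i : ℕ) :
    (∀ x y, (Sq T e K m r i).1 x y → (Sq T e K m r i).1 y x) ∧ (∀ x y, (Sq T e K m r i).1 x y → T x y) ∧
      (∃ f, IsPM (Sq T e K m r i).1 f) ∧ (∀ x y, (Sq T e K m r i).2 x y ≤ Fintype.card V) ∧
      (∀ x y, (Sq T e K m r i).2 x y = (Sq T e K m r i).2 y x) ∧
      ∀ f, IsMin (Sq T e K m r i).1 (Sq T e K m r i).2 f ↔ IsMin T (WS e K m r i) f := by
  induction i with
  | zero =>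
    refine ⟨hs, fun x y h => h, hM, fun x y => Nat.zero_le _, fun x y => rfl, fun f => ?_⟩
    have h1 : WS e K m r 0 = fun _ _ => 0 := by
      funext x y
      rfl
    rw [h1]
    exact Iff.rfl
  | succ i ih =>
    obtain ⟨i1, i2, i3, i4, i5, i6⟩ := ih
    obtain ⟨A, hA⟩ : ∃ A, A = (Sq T e K m r i).1 := ⟨_, rfl⟩
    obtain ⟨ρ, hρ⟩ : ∃ ρ, ρ = (Sq T e K m r i).2 := ⟨_, rfl⟩
    have hS : Sq T e K m r (i + 1) = (HH A (UU K m e (r i) ρ), rkn (HH A (UU K m e (r i) ρ)) (UU K m e (r i) ρ)) := by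
      rw [hA, hρ]
      rfl
    rw [hS]
    rw [← hA] at i1 i2 i3
    rw [← hρ] at i4 i5
    rw [← hA, ← hρ] at i6
    dsimp only
    have hu : ∀ x y, UU K m e (r i) ρ x y = UU K m e (r i) ρ y x := by
      intro x y
      unfold UU
      rw [i5 x y, he x y]
    obtain ⟨c1, c2, c3, c4, c5, c6, c7, c8⟩ := stp_ok A i1 (fun x h => hi x (i2 x x h)) (UU K m e (r i) ρ) hu i3
    have hUU : UU K m e (r i) ρ = fun x y => K * ρ x y + (fun x y => r i ^ e x y % m) x y := by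
      funext x y
      rfl
    have hWS : WS e K m r (i + 1) = fun x y => K * WS e K m r i x y + (fun x y => r i ^ e x y % m) x y := by
      funext x y
      rfl
    refine ⟨c3, fun x y h => i2 x y (c2 x y h), c4, c7, c8, fun f => ?_⟩
    rw [c6 f, hUU, hWS, K2_dom A ρ _ (K2_bd e hm hK (r i)), K2_dom T _ _ (K2_bd e hm hK (r i)), i6 f]
    exact and_congr_right fun _ => forall_congr' fun g => by rw [i6 g]

theorem sq_last (T : V → V → Prop) (hs : ∀ x y, T x y → T y x) (hi : ∀ x, ¬ T x x) (e : V → V → ℕ) (he : ∀ x y, e x y = e y x) (K m : ℕ) (hm : 0 < m)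
    (hK : Fintype.card V * m < K) (r : ℕ → ℕ) (i : ℕ)
    (h : ∃ f, IsPM T f ∧ ∀ f', IsPM T f' → f' ≠ f → tw (WS e K m r (i + 1)) f < tw (WS e K m r (i + 1)) f') :
    ∃ f, IsPM T f ∧ ∀ x y, (Sq T e K m r (i + 1)).1 x y ↔ f x = y := by
  obtain ⟨f, hf, hf2⟩ := h
  refine ⟨f, hf, ?_⟩
  have hmin : ∀ g, IsMin T (WS e K m r (i + 1)) g ↔ g = f := by
    intro g
    constructor
    · intro hg
      by_contra h1
      have h2 := hf2 g hg.1 h1
      have h3 := hg.2 f hf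
      omega
    · rintro rfl
      refine ⟨hf, fun g' hg' => ?_⟩
      by_cases h1 : g' = g
      · rw [h1]
      · exact (hf2 g' hg' h1).le
  obtain ⟨i1, i2, i3, i4, i5, i6⟩ := sq_inv T hs hi e he K m hm hK r ⟨f, hf⟩ i
  obtain ⟨j1, j2, j3, j4, j5, j6⟩ := sq_inv T hs hi e he K m hm hK r ⟨f, hf⟩ (i + 1)
  obtain ⟨A, hA⟩ : ∃ A, A = (Sq T e K m r i).1 := ⟨_, rfl⟩
  obtain ⟨ρ, hρ⟩ : ∃ ρ, ρ = (Sq T e K m r i).2 := ⟨_, rfl⟩
  have hS : Sq T e K m r (i + 1) = (HH A (UU K m e (r i) ρ), rkn (HH A (UU K m e (r i) ρ)) (UU K m e (r i) ρ)) := by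
    rw [hA, hρ]
    rfl
  rw [hS] at j6 ⊢
  rw [← hA] at i1 i2 i3
  rw [← hρ] at i5
  dsimp only at j6 ⊢
  have hu : ∀ x y, UU K m e (r i) ρ x y = UU K m e (r i) ρ y x := by
    intro x y
    unfold UU
    rw [i5 x y, he x y]
  obtain ⟨c1, c2, c3, c4, c5, c6, c7, c8⟩ := stp_ok A i1 (fun x h => hi x (i2 x x h)) (UU K m e (r i) ρ) hu i3
  intro x y
  rw [c1]
  constructor
  · rintro ⟨g, hg, hxy⟩
    have h1 : g = f := (hmin g).1 ((j6 g).1 ((c6 g).2 hg))
    rw [← h1]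
    exact hxy
  · intro hxy
    exact ⟨f, (c6 f).1 ((j6 f).2 ((hmin f).2 rfl)), hxy⟩

theorem sq_start (T : V → V → Prop) (hs : ∀ x y, T x y → T y x) (hi : ∀ x, ¬ T x x) (e : V → V → ℕ) (he : ∀ x y, e x y = e y x) (K m : ℕ) (r : ℕ → ℕ)
    (hM : ∃ f, IsPM T f) (i : ℕ) : Sq T e K m r (i + 1) = Sq (HH T (UU K m e (r 0) fun _ _ => 0)) e K m r (i + 1) := by
  induction i with
  | zero =>
    have h1 : Sq T e K m r (0 + 1) = (HH T (UU K m e (r 0) fun _ _ => 0),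
        rkn (HH T (UU K m e (r 0) fun _ _ => 0)) (UU K m e (r 0) fun _ _ => 0)) := rfl
    have h2 : Sq (HH T (UU K m e (r 0) fun _ _ => 0)) e K m r (0 + 1) =
        (HH (HH T (UU K m e (r 0) fun _ _ => 0)) (UU K m e (r 0) fun _ _ => 0),
        rkn (HH (HH T (UU K m e (r 0) fun _ _ => 0)) (UU K m e (r 0) fun _ _ => 0)) (UU K m e (r 0) fun _ _ => 0)) := rfl
    have hu : ∀ x y, UU K m e (r 0) (fun _ _ => 0) x y = UU K m e (r 0) (fun _ _ => 0) y x := by
      intro x y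
      unfold UU
      rw [he x y]
    rw [h1, h2, hh_hh T hs hi _ hu hM]
  | succ i ih =>
    show stp (Sq T e K m r (i + 1)).1 (UU K m e (r (i + 1)) (Sq T e K m r (i + 1)).2) =
      stp (Sq (HH T (UU K m e (r 0) fun _ _ => 0)) e K m r (i + 1)).1
        (UU K m e (r (i + 1)) (Sq (HH T (UU K m e (r 0) fun _ _ => 0)) e K m r (i + 1)).2)
    rw [ih]

end

end QLN
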