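import Pool.Agent.Lib.MP_0087d5_lcQN.CDefs

/-!
# Leaf K1 (easy+): one round

Proof: everything follows from `QSR.compress` (MP_0087d5_lcQS/K1), applied to `A` and to `B = HH A u`. `HH A u x y ↔ HG A u x y` (first clause for `A`), so `B` is symmetric, irreflexive, contained in `A`, and contains all the perfect matchings of least weight of `A`; hence `IsMin B u f ↔ IsMin A u f`, `HG B u x y ↔ HG A u x y`,
so `HH B u x y ↔ B x y` (`hh_hh`; as functions: `funext`, `propext`), and the clauses 3, 4, 5 of `compress` for `B`.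
-/

set_option autoImplicit false
set_option linter.all false

namespace QLN

open Finset MTC QSR

section
variable {V : Type} [Fintype V] [DecidableEq V]

private theorem K1_min (A : V → V → Prop) (u : V → V → ℕ) (h : ∃ f, IsPM A f) : ∃ f, IsMin A u f := by
  classical
  obtain ⟨f0, h0⟩ := h
  obtain ⟨f, hf, hmin⟩ := exists_min_image (univ.filter fun f : V → V => IsPM A f) (tw u) ⟨f0, mem_filter.2 ⟨mem_univ _, h0⟩⟩
  exact ⟨f, (mem_filter.1 hf).2, fun g hg => hmin g (mem_filter.2 ⟨mem_univ _, hg⟩)⟩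

/-- the facts about the graph `HH A u` which come from the first clause of `compress` -/
private theorem K1_fac (A : V → V → Prop) (hs : ∀ x y, A x y → A y x) (hi : ∀ x, ¬ A x x) (u : V → V → ℕ) (hu : ∀ x y, u x y = u y x) (hM : ∃ f, IsPM A f) :
    (∀ x y, HH A u x y ↔ HG A u x y) ∧ (∀ x y, HH A u x y → A x y) ∧ (∀ x y, HH A u x y → HH A u y x) ∧ (∃ f, IsPM (HH A u) f) ∧
      ∀ f, IsMin (HH A u) u f ↔ IsMin A u f := by
  have h1 := (compress A hs hi u hu hM).1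
  obtain ⟨f0, hf0⟩ := K1_min A u hM
  have hAHH : ∀ f, IsPM (HH A u) f → IsPM A f := fun f hf => ⟨hf.1, fun v => (hf.2 v).1⟩
  have hHHm : ∀ f, IsMin A u f → IsPM (HH A u) f := fun f hf => ⟨hf.1.1, fun v => (h1 v (f v)).2 ⟨f, hf, rfl⟩⟩
  refine ⟨h1, fun x y h => h.1, fun x y h => ?_, ⟨f0, hHHm f0 hf0⟩, fun f => ⟨fun hf => ?_, fun hf => ?_⟩⟩
  · obtain ⟨f, hf, hfx⟩ := (h1 x y).1 h
    exact (h1 y x).2 ⟨f, hf, by rw [← hfx]; exact hf.1.1 x⟩
  · exact ⟨hAHH f hf.1, fun g hg => (hf.2 f0 (hHHm f0 hf0)).trans (hf0.2 g hg)⟩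
  · exact ⟨hHHm f hf, fun g hg => hf.2 g (hAHH g hg)⟩

theorem hh_hh (A : V → V → Prop) (hs : ∀ x y, A x y → A y x) (hi : ∀ x, ¬ A x x) (u : V → V → ℕ) (hu : ∀ x y, u x y = u y x) (hM : ∃ f, IsPM A f) :
    HH (HH A u) u = HH A u := by
  obtain ⟨h1, h2, h3, h4, h5⟩ := K1_fac A hs hi u hu hM
  have hi' : ∀ x, ¬ HH A u x x := fun x h => hi x (h2 x x h)
  obtain ⟨k1, -, -, -, -⟩ := K1_fac (HH A u) h3 hi' u hu h4
  funext x y
  apply propext
  rw [k1, h1]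
  constructor
  · rintro ⟨f, hf, hfx⟩
    exact ⟨f, (h5 f).1 hf, hfx⟩
  · rintro ⟨f, hf, hfx⟩
    exact ⟨f, (h5 f).2 hf, hfx⟩

theorem stp_ok (A : V → V → Prop) (hs : ∀ x y, A x y → A y x) (hi : ∀ x, ¬ A x x) (u : V → V → ℕ) (hu : ∀ x y, u x y = u y x) (hM : ∃ f, IsPM A f) :
    (∀ x y, HH A u x y ↔ HG A u x y) ∧ (∀ x y, HH A u x y → A x y) ∧ (∀ x y, HH A u x y → HH A u y x) ∧ (∃ f, IsPM (HH A u) f) ∧
      (∀ f, IsMin (HH A u) u f ↔ IsMin A u f) ∧ (∀ f, IsMin (HH A u) (rkn (HH A u) u) f ↔ IsMin A u f) ∧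
      (∀ x y, rkn (HH A u) u x y ≤ Fintype.card V) ∧ ∀ x y, rkn (HH A u) u x y = rkn (HH A u) u y x := by
  obtain ⟨h1, h2, h3, h4, h5⟩ := K1_fac A hs hi u hu hM
  have hi' : ∀ x, ¬ HH A u x x := fun x h => hi x (h2 x x h)
  obtain ⟨-, -, c3, c4, c5⟩ := compress (HH A u) h3 hi' u hu h4
  rw [hh_hh A hs hi u hu hM] at c3
  exact ⟨h1, h2, h3, h4, h5, fun f => (c3 f).trans (h5 f), c4, c5⟩

end

end QLN
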