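import Pool.Agent.Lib.MP_0087d5_lcQN.SDefs
import Pool.Agent.Lib.MP_0087d5_lcQN.K1
import Pool.Agent.Lib.MP_0087d5_lcQS.S3

/-!
# Leaf S3 (medium): one stage

Proof. Let `U = UU …`, `B = HH A U`. Adapt leaf S3 of MP_0087d5_lcQS (`step_rep`, by helper68). `Am A x x = A`, `um U x x = U`. `UvC … P x y d ↔ A x y ∧ nv d = U x y`.
(1) `HhC … P x y ↔ B x y`. (←) `B x y` gives `A x y` and `c, c0` with `LW (Am A x y) … c`, `LW A U c0`, `c + 2 * U x y = c0` (all at most `N * M`, values of `nv`); `h1`, `h2`. (→) `c, c0, u` with `c + 2 * U x y = c0`, `LW A U c0` (`h1`), `A x y`; by `h3` the least weight `c'` of `Am A x y` is at most `c`; a perfect matching of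
`Am A x y` of weight `c'` is a perfect matching of `A` of weight `c' + 2 * U x y` (`x ≠ y`, `A x y`), so `c0 ≤ c' + 2 * U x y`, and `c' = c`: this is `HH A U x y`.
(2) `PnC … P` is `Rep` of `B, ρ` (`B x y → A x y`). So by `h4` and as in the old leaf: `MuC … (PnC …) v c ↔ MU B U v (nv c)`, `UvC … (PnC …) x y d ↔ B x y ∧ nv d = U x y`, `FvC … (PnC …) x y d ↔ B x y ∧ FV B U x y (nv d)`.
(3) The rank is `rkn B U x y` (for `B x y`), as `HH B U = B` (`hh_hh`, leaf K1).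
-/

set_option autoImplicit false
set_option linter.all false

namespace QLN

open Finset Pool.Agent Pool.Agent.PMNC MTC LIN PRS QRB QSR

private theorem S3_Am {V : Type} (A : V → V → Prop) (x : V) : Am A x x = A := by
  funext a b
  apply propext
  constructor
  · rintro (⟨_, h⟩ | ⟨h, _⟩)
    · exact h
    · exact absurd rfl h
  · exact fun h => Or.inl ⟨rfl, h⟩

private theorem S3_um {V : Type} [DecidableEq V] (u : V → V → ℕ) (x : V) : um u x x = u := by
  funext a b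
  unfold um
  rw [if_neg (fun h => h.1 rfl)]

private theorem S3_le {V : Type} [DecidableEq V] (u : V → V → ℕ) (v b x y : V) : um u v b x y ≤ u x y := by
  unfold um
  split_ifs
  · exact Nat.zero_le _
  · exact le_rfl

private theorem S3_LW {N : ℕ} {A : Fin N → Fin N → Prop} {u : Fin N → Fin N → ℕ} {M : ℕ} (hM : ∀ x y, u x y ≤ M) {c : ℕ}
    (h : LW A u c) : c ≤ N * M := by
  obtain ⟨⟨f, _, hf⟩, _⟩ := h
  rw [← hf]
  unfold MTC.tw
  refine (Finset.sum_le_card_nsmul _ _ M fun i _ => hM _ _).trans (le_of_eq ?_)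
  rw [Finset.card_univ, Fintype.card_fin, smul_eq_mul]

private theorem S3_MU {N : ℕ} {A : Fin N → Fin N → Prop} {u : Fin N → Fin N → ℕ} {M : ℕ} (hM : ∀ x y, u x y ≤ M) {v : Fin N} {c : ℕ}
    (h : MU A u v c) : c ≤ N * M := by
  obtain ⟨⟨b, _, hb⟩, _⟩ := h
  exact S3_LW (fun x y => (S3_le u v b x y).trans (hM x y)) hb

private theorem S3_FV {N : ℕ} {A : Fin N → Fin N → Prop} {u : Fin N → Fin N → ℕ} {M : ℕ} (hM : ∀ x y, u x y ≤ M) {x y : Fin N} {d : ℕ}
    (h : FV A u x y d) : d ≤ 2 * M + 2 * (N * M) := by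
  obtain ⟨c, c', hc, hc', rfl⟩ := h
  have h1 := S3_MU hM hc
  have h2 := S3_MU hM hc'
  have h3 := hM x y
  omega

/-- the perfect matchings of `Am A x y` for an edge `x y` -/
private theorem S3_pm {N : ℕ} {A : Fin N → Fin N → Prop} (hs : ∀ x y, A x y → A y x) {x y : Fin N} (hxy : x ≠ y) (hA : A x y) {f : Fin N → Fin N}
    (hf : MTC.IsPM (Am A x y) f) : MTC.IsPM A f ∧ f x = y ∧ f y = x := by
  have hx : f x = y := by
    rcases hf.2 x with h | ⟨_, h | h | h⟩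
    · exact absurd h.1 hxy
    · exact absurd rfl h.2.1
    · exact h.2
    · exact absurd h.1 hxy
  have hy : f y = x := by rw [← hx]; exact hf.1 x
  refine ⟨⟨hf.1, fun v => ?_⟩, hx, hy⟩
  rcases hf.2 v with h | ⟨_, h | h | h⟩
  · exact absurd h.1 hxy
  · exact h.1
  · rw [h.2, h.1]; exact hA
  · rw [h.2, h.1]; exact hs x y hA

private theorem S3_tw {N : ℕ} {u : Fin N → Fin N → ℕ} (hu : ∀ x y, u x y = u y x) {x y : Fin N} (hxy : x ≠ y) {f : Fin N → Fin N}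
    (hx : f x = y) (hy : f y = x) : MTC.tw u f = MTC.tw (um u x y) f + 2 * u x y := by
  have h1 : ∀ v, u v (f v) = um u x y v (f v) + ((if v = x then u x y else 0) + (if v = y then u x y else 0)) := by
    intro v
    unfold um
    by_cases h1 : v = x
    · rw [h1, hx, if_pos ⟨hxy, Or.inl ⟨rfl, rfl⟩⟩, if_pos rfl, if_neg hxy]
      omega
    · by_cases h2 : v = y
      · rw [h2, hy, if_pos ⟨hxy, Or.inr ⟨rfl, rfl⟩⟩, if_pos rfl, if_neg (Ne.symm hxy), hu y x]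
        omega
      · rw [if_neg (fun h => h.2.elim (fun h => h1 h.1) (fun h => h2 h.1)), if_neg h1, if_neg h2]
        omega
  unfold MTC.tw
  rw [Finset.sum_congr rfl fun v _ => h1 v, Finset.sum_add_distrib, Finset.sum_add_distrib, Finset.sum_ite_eq' Finset.univ x, Finset.sum_ite_eq' Finset.univ y,
    if_pos (Finset.mem_univ _), if_pos (Finset.mem_univ _)]
  omega

theorem step_rep {S : ℕ → Type} [Env S] [∀ n, Fintype (S n)] {N : ℕ} (hN : 2 ≤ N) (X : SimpleGraph (Fin N)) (κ : Pq S N)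
    (hm0 : ¬ nv κ.2.1 = 0) (hq0 : ¬ nv κ.2.2.1 = 0) (i : Fin N) (P : Fin N → Fin N → S N → Prop) (A : Fin N → Fin N → Prop) (hs : ∀ x y, A x y → A y x) (hi : ∀ x, ¬ A x x)
    (hPM : ∃ f, MTC.IsPM A f) (ρ : Fin N → Fin N → ℕ) (hρs : ∀ x y, ρ x y = ρ y x) (hP : Rep P A ρ) (hρ : ∀ x y, ∃ z : S N, nv z = ρ x y)
    (r : ℕ) (hr : ∀ x y : Fin N, rz (nv κ.2.1) (nr X κ i ^ eid x y) = r ^ eid x y % nv κ.2.1) (M : ℕ)
    (hM : ∀ x y, UU (nv κ.1) (nv κ.2.1) (fun x y => eid x y) r ρ x y ≤ M) (hMp : N * M < nv κ.2.2.1 - 1) (hB : 4 * (N * M + M + 1) < N ^ dim S)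
    (h1 : ∀ (x : Fin N) (c : S N), QLN.LwC X κ i P x x c ↔ LW A (UU (nv κ.1) (nv κ.2.1) (fun x y => eid x y) r ρ) (nv c))
    (h2 : ∀ x y : Fin N, HH A (UU (nv κ.1) (nv κ.2.1) (fun x y => eid x y) r ρ) x y → ∀ c : S N,
      QLN.LwC X κ i P x y c ↔ LW (Am A x y) (um (UU (nv κ.1) (nv κ.2.1) (fun x y => eid x y) r ρ) x y) (nv c))
    (h3 : ∀ (x y : Fin N) (c : S N), QLN.LwC X κ i P x y c → ∃ c', LW (Am A x y) (um (UU (nv κ.1) (nv κ.2.1) (fun x y => eid x y) r ρ) x y) c' ∧ c' ≤ nv c)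
    (h4 : ∀ P' : Fin N → Fin N → S N → Prop, Rep P' (HH A (UU (nv κ.1) (nv κ.2.1) (fun x y => eid x y) r ρ)) ρ → ∀ (v w : Fin N) (c : S N),
      QLN.LwC X κ i P' v w c ↔ LW (Am (HH A (UU (nv κ.1) (nv κ.2.1) (fun x y => eid x y) r ρ)) v w) (um (UU (nv κ.1) (nv κ.2.1) (fun x y => eid x y) r ρ) v w) (nv c)) :
    Rep (QLN.StC X κ i P) (HH A (UU (nv κ.1) (nv κ.2.1) (fun x y => eid x y) r ρ))
      (rkn (HH A (UU (nv κ.1) (nv κ.2.1) (fun x y => eid x y) r ρ)) (UU (nv κ.1) (nv κ.2.1) (fun x y => eid x y) r ρ)) := by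
  obtain ⟨U, hU⟩ : ∃ U, U = UU (nv κ.1) (nv κ.2.1) (fun x y => eid x y) r ρ := ⟨_, rfl⟩
  rw [← hU] at hM h1 h2 h3 h4 ⊢
  have hUs : ∀ x y, U x y = U y x := by
    intro x y
    rw [hU]
    show nv κ.1 * ρ x y + r ^ eid x y % nv κ.2.1 = nv κ.1 * ρ y x + r ^ eid y x % nv κ.2.1
    rw [hρs x y, eid_comm x y]
  have hMN : M ≤ N * M := Nat.le_mul_of_pos_left M (by omega)
  have hD1 : N * M < N ^ dim S := by omega
  have hD2 : 2 * M + 2 * (N * M) < N ^ dim S := by omega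
  -- the weights
  have hUv : ∀ (P' : Fin N → Fin N → S N → Prop) (A' : Fin N → Fin N → Prop), Rep P' A' ρ → ∀ x y (d : S N), QLN.UvC X κ i P' x y d ↔ A' x y ∧ nv d = U x y := by
    intro P' A' hP' x y d
    constructor
    · rintro ⟨_, _, hd, z, hz, hdv⟩
      obtain ⟨hA, hz'⟩ := (hP' x y z).1 hz
      refine ⟨hA, ?_⟩
      rw [hz', hr] at hdv
      have g1 : ((nv d : ℕ) : ℤ) - (((nv κ.1 : ℕ) : ℤ) * ((ρ x y : ℕ) : ℤ) + ((r ^ eid x y % nv κ.2.1 : ℕ) : ℤ)) =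
          ((nv d : ℕ) : ℤ) - ((U x y : ℕ) : ℤ) := by
        rw [hU]
        unfold UU
        push_cast
        ring
      rw [g1] at hdv
      have g2 : U x y < nv κ.2.2.1 := by
        have g3 := hM x y
        omega
      have g4 : ((nv d : ℕ) : ℤ) - ((U x y : ℕ) : ℤ) = 0 := by
        refine Int.eq_zero_of_abs_lt_dvd hdv ?_
        rw [abs_lt]
        constructor <;> omega
      omega
    · rintro ⟨hA, hd⟩
      obtain ⟨z, hz⟩ := hρ x y
      refine ⟨hm0, hq0, ?_, z, (hP' x y z).2 ⟨hA, hz⟩, ?_⟩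
      · have g3 := hM x y
        omega
      · rw [hz, hr, hd, hU]
        unfold UU
        push_cast
        rw [sub_self]
        exact dvd_zero _
  have hUe : ∀ x y, ∃ u : S N, nv u = U x y := fun x y => nv_surj (by
    have g3 := hM x y
    omega)
  -- the edges of the perfect matchings of least weight
  have hHh : ∀ x y, QLN.HhC X κ i P x y ↔ HH A U x y := by
    intro x y
    constructor
    · rintro ⟨c, c0, u, s1, g1, g2, g3, g4, g5⟩
      rw [h1] at g2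
      obtain ⟨hA, hu⟩ := (hUv P A hP x y u).1 g3
      have hxy : x ≠ y := fun h => hi y (h ▸ hA)
      obtain ⟨c', hc', hle⟩ := h3 x y c g1
      obtain ⟨f, hf, hfc⟩ := hc'.1
      obtain ⟨hfA, hfx, hfy⟩ := S3_pm hs hxy hA hf
      have g6 := S3_tw hUs hxy hfx hfy
      have g7 := g2.2 f hfA
      have g8 : c' = nv c := by omega
      rw [g8] at hc'
      exact ⟨hA, nv c, nv c0, hc', g2, by omega⟩
    · intro hB
      obtain ⟨hA, c, c0, g1, g2, g3⟩ := id hB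
      have b1 := S3_LW (fun a b => (S3_le U x y a b).trans (hM a b)) g1
      have b2 := S3_LW hM g2
      have b3 := hM x y
      obtain ⟨c', hc⟩ := nv_surj (S := S) (n := N) (m := c) (by omega)
      obtain ⟨c0', hc0⟩ := nv_surj (S := S) (n := N) (m := c0) (by omega)
      obtain ⟨u', hu⟩ := hUe x y
      obtain ⟨s', hs'⟩ := nv_surj (S := S) (n := N) (m := 2 * U x y) (by omega)
      refine ⟨c', c0', u', s', ?_, ?_, (hUv P A hP x y u').2 ⟨hA, hu⟩, by omega, by omega⟩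
      · rw [h2 x y hB, hc]
        exact g1
      · rw [h1, hc0]
        exact g2
  -- the restricted relation
  obtain ⟨B, hBd⟩ : ∃ B, B = HH A U := ⟨_, rfl⟩
  have hBB : HH B U = B := by
    rw [hBd]
    exact hh_hh A hs hi U hUs hPM
  rw [← hBd] at h4 ⊢
  have hHh' : ∀ x y, QLN.HhC X κ i P x y ↔ B x y := by
    intro x y
    rw [hBd]
    exact hHh x y
  have hPn : Rep (QLN.PnC X κ i P) B ρ := by
    intro x y z
    constructor
    · rintro ⟨g1, g2⟩
      exact ⟨(hHh' x y).1 g1, ((hP x y z).1 g2).2⟩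
    · rintro ⟨g1, g2⟩
      refine ⟨(hHh' x y).2 g1, (hP x y z).2 ⟨?_, g2⟩⟩
      rw [hBd] at g1
      exact g1.1
  have hlw := h4 _ hPn
  have hUv' := hUv _ B hPn
  -- the numbers `μ`
  have hMu : ∀ v (c : S N), QLN.MuC X κ i (QLN.PnC X κ i P) v c ↔ MU B U v (nv c) := by
    intro v c
    constructor
    · rintro ⟨⟨w, hw, g1⟩, g2⟩
      refine ⟨⟨w, hw, (hlw v w c).1 g1⟩, fun w' c' hw' hc' => ?_⟩
      have b1 := S3_LW (fun x y => (S3_le U v w' x y).trans (hM x y)) hc'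
      obtain ⟨c'', hc''⟩ := nv_surj (S := S) (n := N) (m := c') (by omega)
      have g3 := g2 w' c'' hw' ((hlw v w' c'').2 (by rw [hc'']; exact hc'))
      omega
    · rintro ⟨⟨w, hw, g1⟩, g2⟩
      exact ⟨⟨w, hw, (hlw v w c).2 g1⟩, fun w' c' hw' hc' => g2 w' (nv c') hw' ((hlw v w' c').1 hc')⟩
  -- the values
  have hFv : ∀ x y (d : S N), QLN.FvC X κ i (QLN.PnC X κ i P) x y d ↔ B x y ∧ FV B U x y (nv d) := by
    intro x y d
    constructor
    · rintro ⟨c, c', u, s1, s2, g1, g2, g3, g4, g5, g6⟩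
      obtain ⟨hA, hu⟩ := (hUv' x y u).1 g3
      exact ⟨hA, nv c, nv c', (hMu x c).1 g1, (hMu y c').1 g2, by omega⟩
    · rintro ⟨hA, c, c', g1, g2, g3⟩
      have b1 := S3_MU hM g1
      have b2 := S3_MU hM g2
      have b3 := hM x y
      obtain ⟨e, he⟩ := nv_surj (S := S) (n := N) (m := c) (by omega)
      obtain ⟨e', he'⟩ := nv_surj (S := S) (n := N) (m := c') (by omega)
      obtain ⟨u', hu⟩ := hUe x y
      obtain ⟨s1, hs1⟩ := nv_surj (S := S) (n := N) (m := 2 * U x y) (by omega)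
      obtain ⟨s2, hs2⟩ := nv_surj (S := S) (n := N) (m := c + c') (by omega)
      exact ⟨e, e', u', s1, s2, (hMu x e).2 (by rw [he]; exact g1), (hMu y e').2 (by rw [he']; exact g2),
        (hUv' x y u').2 ⟨hA, hu⟩, by omega, by omega, by omega⟩
  -- the ranks
  have hcard : ∀ x y, B x y → Nat.card {d : S N // (∃ x' y' : Fin N, QLN.HhC X κ i P x' y' ∧ QLN.FvC X κ i (QLN.PnC X κ i P) x' y' d) ∧
      ∃ d' : S N, QLN.FvC X κ i (QLN.PnC X κ i P) x y d' ∧ nv d < nv d'} = rkn B U x y := by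
    intro x y hA
    unfold rkn
    rw [hBB]
    refine Nat.card_congr (Equiv.ofBijective (fun d => ⟨nv d.1, ?_, ?_⟩) ⟨?_, ?_⟩)
    · obtain ⟨x', y', g1, g2⟩ := d.2.1
      exact ⟨x', y', (hHh' x' y').1 g1, ((hFv x' y' d.1).1 g2).2⟩
    · obtain ⟨d', g1, g2⟩ := d.2.2
      exact ⟨nv d', ((hFv x y d').1 g1).2, g2⟩
    · intro d d' h
      exact Subtype.ext (nv_injective (congrArg Subtype.val h))
    · rintro ⟨d, ⟨x', y', g1, g2⟩, d', g3, g4⟩
      have b1 := S3_FV hM g2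
      have b2 := S3_FV hM g3
      obtain ⟨e, he⟩ := nv_surj (S := S) (n := N) (m := d) (by omega)
      obtain ⟨e', he'⟩ := nv_surj (S := S) (n := N) (m := d') (by omega)
      refine ⟨⟨e, ⟨x', y', (hHh' x' y').2 g1, (hFv x' y' e).2 ⟨g1, by rw [he]; exact g2⟩⟩, e',
        (hFv x y e').2 ⟨hA, by rw [he']; exact g3⟩, by omega⟩, Subtype.ext he⟩
  intro x y z
  constructor
  · rintro ⟨g1, g2⟩
    have g3 := (hHh' x y).1 g1
    rw [hcard x y g3] at g2
    exact ⟨g3, g2⟩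
  · rintro ⟨g3, g2⟩
    refine ⟨(hHh' x y).2 g3, ?_⟩
    rw [hcard x y g3]
    exact g2

end QLN
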