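import Pool.Agent.Lib.MP_0087d5_lcQN.S2
import Pool.Agent.Lib.MP_0087d5_lcQN.S3
import Pool.Agent.Lib.MP_0087d5_lcQN.E1
import Pool.Agent.Lib.MP_0087d5_lcQN.K2
import Pool.Agent.Lib.MP_0087d5_lcQS.S4

/-!
# Leaf S4 (medium): all stages

Proof. Adapt leaf S4 of MP_0087d5_lcQS (`out_complete`, by helper21). Let `e = eid`, `ω = UU K m e (r 0) 0`, `H = HH T ω`. `Sq T … (i + 1) = Sq H … (i + 1)` (`sq_start`, leaf K2). By induction on `i ≤ 4 L` and `k`: for `i < k` the relation `fun x y z => ((opC …)^[k] fun _ => False) (i, (x, (y, z)))` is `Rep` of `Sq T … i`.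
Step from `i` to `i + 1` (`step_rep`, leaf S3, with `A = (Sq T … i).1`, `ρ = (Sq T … i).2`, `U = UU … (r i) ρ`; `HH A U = (Sq T … (i + 1)).1 = (Sq H … (i + 1)).1` by definition of `stp`): `h4` is `lwc_iff` (leaf S2) with the second half of `hg i`. For `i = 0`: `A = T`, `U = ω`; `h1`, `h2` are `lwc_iff` with `good_diag`, `good_am`
(leaf E1) and the first half of `hg 0` (`(Sq H … 0).1 = H`, `Am H x x = H`, `um ω x x = ω`); for `i ≥ 1`: `A = (Sq H … i).1`, `lwc_iff` with the first half of `hg i`. `h3` is `lwc_sound` (leaf S2). Symmetry, irreflexivity, perfect matchings, bounds of the ranks: `sq_inv` (leaf K2) for `T` (and `H`).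
At the end `4 * Nat.size N = 4 * (L + 1) > 4 L`; `OutR x y ↔ (Sq T … (4 L)).1 x y`, and `Sq T … (4 L) = Sq H … (4 L)` with `4 L = (4 L - 1) + 1`, and `sq_last` for `H` with `hiso`; a perfect matching of `H` is one of `T`.
-/

set_option autoImplicit false
set_option linter.all false

namespace QLN

open Finset Pool.Agent Pool.Agent.PMNC MTC LIN PRS QRB QSR

private theorem S4_Am {V : Type} (A : V → V → Prop) (x : V) : Am A x x = A := by
  funext a b
  apply propext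
  constructor
  · rintro (⟨_, h⟩ | ⟨h, _⟩)
    · exact h
    · exact absurd rfl h
  · exact fun h => Or.inl ⟨rfl, h⟩

private theorem S4_um {V : Type} [DecidableEq V] (u : V → V → ℕ) (x : V) : um u x x = u := by
  funext a b
  unfold um
  rw [if_neg (fun h => h.1 rfl)]

/-- one round, from the two goodness conditions -/
private theorem S4_step {S : ℕ → Type} [Env S] [∀ n, Fintype (S n)] {N : ℕ} (hN : 2 ≤ N) (X : SimpleGraph (Fin N)) (κ : Pq S N) [Fact (nv κ.2.2.1).Prime]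
    (hm0 : ¬ nv κ.2.1 = 0) (hq0 : ¬ nv κ.2.2.1 = 0) (i : Fin N) (P : Fin N → Fin N → S N → Prop) (A : Fin N → Fin N → Prop) (hs : ∀ x y, A x y → A y x) (hi : ∀ x, ¬ A x x)
    (hPM : ∃ f, MTC.IsPM A f) (ρ : Fin N → Fin N → ℕ) (hρs : ∀ x y, ρ x y = ρ y x) (hP : Rep P A ρ) (hρ : ∀ x y, ∃ z : S N, nv z = ρ x y)
    (r : ℕ) (hr : ∀ x y : Fin N, rz (nv κ.2.1) (nr X κ i ^ eid x y) = r ^ eid x y % nv κ.2.1) (M : ℕ) (U : Fin N → Fin N → ℕ)
    (hU : U = UU (nv κ.1) (nv κ.2.1) (fun x y => eid x y) r ρ)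
    (hM : ∀ x y, U x y ≤ M) (hMp : N * M < nv κ.2.2.1 - 1) (hB : 4 * (N * M + M + 1) < N ^ dim S)
    (hgA : ∀ v w, (v = w ∨ HH A U v w) → GoodY (nv κ.2.2.1) (Am A v w) (um U v w) (fun x y => ((QLN.zY X κ x y : ℤ) : ZMod (nv κ.2.2.1))))
    (hgB : ∀ v w, GoodY (nv κ.2.2.1) (Am (HH A U) v w) (um U v w) (fun x y => ((QLN.zY X κ x y : ℤ) : ZMod (nv κ.2.2.1)))) :
    Rep (QLN.StC X κ i P) (HH A U) (rkn (HH A U) U) := by
  subst hU
  have hUs : ∀ x y : Fin N, UU (nv κ.1) (nv κ.2.1) (fun x y => eid x y) r ρ x y = UU (nv κ.1) (nv κ.2.1) (fun x y => eid x y) r ρ y x := by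
    intro x y
    unfold UU
    dsimp only
    rw [hρs x y, eid_comm x y]
  obtain ⟨g1, g2, g3, g4, g5, g6, g7, g8⟩ := stp_ok A hs hi _ hUs hPM
  refine step_rep hN X κ hm0 hq0 i P A hs hi hPM ρ hρs hP hρ r hr M hM hMp hB ?_ ?_ ?_ ?_
  · intro x c
    have h1 := lwc_iff X κ hm0 i P A hs hi ρ hρs hP hρ r hr x x M hM hMp (hgA x x (Or.inl rfl)) c
    rw [S4_Am, S4_um] at h1
    exact h1
  · intro x y hxy c
    exact lwc_iff X κ hm0 i P A hs hi ρ hρs hP hρ r hr x y M hM hMp (hgA x y (Or.inr hxy)) c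
  · intro x y c h
    exact lwc_sound X κ hm0 i P A hs hi ρ hρs hP hρ r hr x y M hM hMp c h
  · intro P' hP' v w c
    exact lwc_iff X κ hm0 i P' _ g3 (fun x h => hi x (g2 x x h)) ρ hρs hP' hρ r hr v w M hM hMp (hgB v w) c

theorem out_complete {S : ℕ → Type} [Env S] [∀ n, Fintype (S n)] {N : ℕ} (hN : 2 ≤ N) (X T : SimpleGraph (Fin N)) (κ : Pq S N)
    (hm : (nv κ.2.1).Prime) (hp : (nv κ.2.2.1).Prime) (hK : N * nv κ.2.1 < nv κ.1) (M : ℕ) (hM : nv κ.1 * N + nv κ.2.1 ≤ M) (hMp : N * M < nv κ.2.2.1 - 1)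
    (hB : 4 * (N * M + M + 1) < N ^ dim S) (hL : 4 * Nat.log 2 N < N) (hT : ∃ f, MTC.IsPM T.Adj f) (r : ℕ → ℕ)
    (hr : ∀ i : Fin N, (i : ℕ) < 4 * Nat.log 2 N → ∀ x y : Fin N, rz (nv κ.2.1) (nr X κ i ^ eid x y) = r i ^ eid x y % nv κ.2.1)
    (H : Fin N → Fin N → Prop) (hH : H = HH T.Adj (UU (nv κ.1) (nv κ.2.1) (fun x y => eid x y) (r 0) fun _ _ => 0))
    (hiso : ∃ f, MTC.IsPM H f ∧ ∀ f', MTC.IsPM H f' → f' ≠ f → MTC.tw (QSR.WS (fun x y => eid x y) (nv κ.1) (nv κ.2.1) r (4 * Nat.log 2 N)) f <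
      MTC.tw (QSR.WS (fun x y => eid x y) (nv κ.1) (nv κ.2.1) r (4 * Nat.log 2 N)) f')
    (hg : ∀ i < 4 * Nat.log 2 N, ∀ v w : Fin N,
      GoodY (nv κ.2.2.1) (Am (Sq H (fun x y => eid x y) (nv κ.1) (nv κ.2.1) r i).1 v w)
        (um (UU (nv κ.1) (nv κ.2.1) (fun x y => eid x y) (r i) (Sq H (fun x y => eid x y) (nv κ.1) (nv κ.2.1) r i).2) v w)
        (fun x y => ((QLN.zY X κ x y : ℤ) : ZMod (nv κ.2.2.1))) ∧
      GoodY (nv κ.2.2.1) (Am (Sq H (fun x y => eid x y) (nv κ.1) (nv κ.2.1) r (i + 1)).1 v w)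
        (um (UU (nv κ.1) (nv κ.2.1) (fun x y => eid x y) (r i) (Sq H (fun x y => eid x y) (nv κ.1) (nv κ.2.1) r i).2) v w)
        (fun x y => ((QLN.zY X κ x y : ℤ) : ZMod (nv κ.2.2.1)))) :
    ∃ f, MTC.IsPM T.Adj f ∧ ∀ x y, QLN.OutR X T κ x y ↔ f x = y := by
  haveI : Fact (nv κ.2.2.1).Prime := ⟨hp⟩
  have hm0 : ¬ nv κ.2.1 = 0 := hm.pos.ne'
  have hq0 : ¬ nv κ.2.2.1 = 0 := hp.pos.ne'
  have hcard : Fintype.card (Fin N) * nv κ.2.1 < nv κ.1 := by rw [Fintype.card_fin]; exact hK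
  have hNM : N ≤ M := by
    have h1 : 1 ≤ nv κ.1 := by omega
    have h2 : 1 * N ≤ nv κ.1 * N := Nat.mul_le_mul_right N h1
    omega
  have hTs : ∀ x y, T.Adj x y → T.Adj y x := fun x y h => h.symm
  have hTi : ∀ x, ¬ T.Adj x x := fun x h => SimpleGraph.irrefl T h
  have hY : ∀ x y : Fin N, (fun x y => ((QLN.zY X κ x y : ℤ) : ZMod (nv κ.2.2.1))) x y = (fun x y => ((QLN.zY X κ x y : ℤ) : ZMod (nv κ.2.2.1))) y x := by
    intro x y
    show ((QLN.zY X κ x y : ℤ) : ZMod (nv κ.2.2.1)) = ((QLN.zY X κ y x : ℤ) : ZMod (nv κ.2.2.1))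
    rw [zY_symm]
  have hus : ∀ x y : Fin N, UU (nv κ.1) (nv κ.2.1) (fun x y => eid x y) (r 0) (fun _ _ => 0) x y =
      UU (nv κ.1) (nv κ.2.1) (fun x y => eid x y) (r 0) (fun _ _ => 0) y x := by
    intro x y
    unfold UU
    dsimp only
    rw [eid_comm x y]
  have inv := fun i : ℕ => sq_inv T.Adj hTs hTi (fun x y => eid x y) (fun x y => eid_comm x y)
    (nv κ.1) (nv κ.2.1) hm.pos hcard r hT i
  have hstart : ∀ i : ℕ, Sq T.Adj (fun x y => eid x y) (nv κ.1) (nv κ.2.1) r (i + 1) = Sq H (fun x y => eid x y) (nv κ.1) (nv κ.2.1) r (i + 1) := by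
    intro i
    rw [hH]
    exact sq_start T.Adj hTs hTi (fun x y => eid x y) (fun x y => eid_comm x y) (nv κ.1) (nv κ.2.1) r hT i
  obtain ⟨g1, g2, g3, g4, g5, g6, g7, g8⟩ := stp_ok T.Adj hTs hTi _ hus hT
  rw [← hH] at g1 g2 g3 g4
  have hval : ∀ i : ℕ, ∀ x y : Fin N, ∃ z : S N, nv z = (Sq T.Adj (fun x y => eid x y) (nv κ.1) (nv κ.2.1) r i).2 x y := by
    intro i x y
    apply nv_surj
    have h1 := (inv i).2.2.2.1 x y
    rw [Fintype.card_fin] at h1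
    have h2 : 0 ≤ N * M := Nat.zero_le _
    omega
  have hgB : ∀ i < 4 * Nat.log 2 N, ∀ v w : Fin N, GoodY (nv κ.2.2.1) (Am (Sq T.Adj (fun x y => eid x y) (nv κ.1) (nv κ.2.1) r (i + 1)).1 v w)
      (um (UU (nv κ.1) (nv κ.2.1) (fun x y => eid x y) (r i) (Sq T.Adj (fun x y => eid x y) (nv κ.1) (nv κ.2.1) r i).2) v w)
      (fun x y => ((QLN.zY X κ x y : ℤ) : ZMod (nv κ.2.2.1))) := by
    intro i hi v w
    have h := (hg i hi v w).2
    rw [hstart i]
    rcases i with _ | i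
    · exact h
    · rw [hstart i]
      exact h
  have hgA : ∀ i < 4 * Nat.log 2 N, ∀ v w : Fin N, (v = w ∨ HH (Sq T.Adj (fun x y => eid x y) (nv κ.1) (nv κ.2.1) r i).1
      (UU (nv κ.1) (nv κ.2.1) (fun x y => eid x y) (r i) (Sq T.Adj (fun x y => eid x y) (nv κ.1) (nv κ.2.1) r i).2) v w) →
      GoodY (nv κ.2.2.1) (Am (Sq T.Adj (fun x y => eid x y) (nv κ.1) (nv κ.2.1) r i).1 v w)
      (um (UU (nv κ.1) (nv κ.2.1) (fun x y => eid x y) (r i) (Sq T.Adj (fun x y => eid x y) (nv κ.1) (nv κ.2.1) r i).2) v w)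
      (fun x y => ((QLN.zY X κ x y : ℤ) : ZMod (nv κ.2.2.1))) := by
    intro i hi v w hvw
    rcases i with _ | i
    · have h := (hg 0 hi v w).1
      have h' : GoodY (nv κ.2.2.1) (Am H v w) (um (UU (nv κ.1) (nv κ.2.1) (fun x y => eid x y) (r 0) (fun _ _ => 0)) v w)
        (fun x y => ((QLN.zY X κ x y : ℤ) : ZMod (nv κ.2.2.1))) := h
      rw [hH] at h'
      show GoodY (nv κ.2.2.1) (Am T.Adj v w) (um (UU (nv κ.1) (nv κ.2.1) (fun x y => eid x y) (r 0) (fun _ _ => 0)) v w)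
        (fun x y => ((QLN.zY X κ x y : ℤ) : ZMod (nv κ.2.2.1)))
      rcases hvw with hvw | hvw
      · subst hvw
        rw [S4_Am, S4_um] at h' ⊢
        exact good_diag T.Adj hTs hTi _ hus hT _ hY h'
      · exact good_am T.Adj hTs hTi _ hus hT _ hY v w hvw h'
    · rw [hstart i]
      exact (hg (i + 1) hi v w).1
  have main : ∀ i : ℕ, i ≤ 4 * Nat.log 2 N → ∀ k : ℕ, i < k → ∀ I : Fin N, (I : ℕ) = i →
      Rep (fun x y z => ((opC X T κ)^[k] fun _ => False) (I, (x, (y, z))))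
        (Sq T.Adj (fun x y => eid x y) (nv κ.1) (nv κ.2.1) r i).1 (Sq T.Adj (fun x y => eid x y) (nv κ.1) (nv κ.2.1) r i).2 := by
    intro i
    induction i with
    | zero =>
      intro _ k hk I hI x y z
      obtain ⟨k', rfl⟩ : ∃ k', k = k' + 1 := ⟨k - 1, by omega⟩
      show ((opC X T κ)^[k' + 1] fun _ => False) (I, (x, (y, z))) ↔ T.Adj x y ∧ nv z = 0
      rw [Function.iterate_succ_apply']
      unfold opC
      constructor
      · rintro (⟨_, h1, h2⟩ | ⟨j, hj, _⟩)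
        · exact ⟨h1, h2⟩
        · exfalso
          have hj' : (j : ℕ) + 1 = (I : ℕ) := hj
          omega
      · rintro ⟨h1, h2⟩
        exact Or.inl ⟨hI, h1, h2⟩
    | succ i ih =>
      intro hi k hk I hI x y z
      obtain ⟨k', rfl⟩ : ∃ k', k = k' + 1 := ⟨k - 1, by omega⟩
      have hiN : i < N := by omega
      have hrep := ih (by omega) k' (by omega) ⟨i, hiN⟩ rfl
      have hri : ∀ x y : Fin N, rz (nv κ.2.1) (nr X κ (⟨i, hiN⟩ : Fin N) ^ eid x y) = r i ^ eid x y % nv κ.2.1 := by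
        intro x y
        exact hr ⟨i, hiN⟩ (show i < 4 * Nat.log 2 N by omega) x y
      have hU : ∀ x y : Fin N, UU (nv κ.1) (nv κ.2.1) (fun x y => eid x y) (r i)
          (Sq T.Adj (fun x y => eid x y) (nv κ.1) (nv κ.2.1) r i).2 x y ≤ M := by
        intro x y
        unfold UU
        have h1 := (inv i).2.2.2.1 x y
        rw [Fintype.card_fin] at h1
        have h2 := Nat.mul_le_mul_left (nv κ.1) h1
        have h3 : r i ^ eid x y % nv κ.2.1 < nv κ.2.1 := Nat.mod_lt _ hm.pos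
        show nv κ.1 * _ + r i ^ eid x y % nv κ.2.1 ≤ M
        omega
      have hstep := S4_step hN X κ hm0 hq0 ⟨i, hiN⟩ _ _ (inv i).1 (fun x h => hTi x ((inv i).2.1 x x h)) (inv i).2.2.1 _ (inv i).2.2.2.2.1 hrep (hval i) (r i) hri M _ rfl hU hMp hB
        (fun v w hvw => hgA i (by omega) v w hvw) (fun v w => hgB i (by omega) v w)
      show ((opC X T κ)^[k' + 1] fun _ => False) (I, (x, (y, z))) ↔ _
      rw [Function.iterate_succ_apply']
      unfold opC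
      constructor
      · rintro (⟨h1, _⟩ | ⟨j, hj, h2⟩)
        · exfalso
          have h1' : (I : ℕ) = 0 := h1
          omega
        · have hj' : (j : ℕ) + 1 = (I : ℕ) := hj
          have hji : j = ⟨i, hiN⟩ := by
            apply Fin.ext
            show (j : ℕ) = i
            omega
          subst hji
          exact (hstep x y z).1 h2
      · intro h
        refine Or.inr ⟨⟨i, hiN⟩, hI.symm, ?_⟩
        exact (hstep x y z).2 h
  have hLp : 1 ≤ Nat.log 2 N := Nat.log_pos (by norm_num) hN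
  have hsz : Nat.size N = Nat.log 2 N + 1 := size_log (by omega)
  have hout : ∀ x y, OutR X T κ x y ↔ (Sq T.Adj (fun x y => eid x y) (nv κ.1) (nv κ.2.1) r (4 * Nat.log 2 N)).1 x y := by
    intro x y
    have hfin := main (4 * Nat.log 2 N) le_rfl (4 * Nat.size N) (by omega) ⟨4 * Nat.log 2 N, hL⟩ rfl
    constructor
    · rintro ⟨_, i, z, ⟨h1, h2⟩, h3⟩
      have hi : i = ⟨4 * Nat.log 2 N, hL⟩ := by
        apply Fin.ext
        show (i : ℕ) = 4 * Nat.log 2 N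
        by_contra hne
        have h4 := h2 ⟨4 * Nat.log 2 N, hL⟩ (by
          rw [Fin.lt_def]
          show 4 * Nat.log 2 N < (i : ℕ)
          omega)
        exact absurd (show 4 * Nat.log 2 N < 4 * Nat.log 2 N from h4) (lt_irrefl _)
      subst hi
      exact ((hfin x y z).1 h3).1
    · intro h
      obtain ⟨z, hz⟩ := hval (4 * Nat.log 2 N) x y
      refine ⟨(inv _).2.1 x y h, ⟨4 * Nat.log 2 N, hL⟩, z, ⟨?_, ?_⟩, ?_⟩
      · show ¬ 4 * Nat.log 2 N < 4 * Nat.log 2 N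
        exact lt_irrefl _
      · intro j hj
        rw [Fin.lt_def] at hj
        exact hj
      · exact (hfin x y z).2 ⟨h, hz⟩
  have hlast : ∃ i, 4 * Nat.log 2 N = i + 1 := ⟨4 * Nat.log 2 N - 1, by omega⟩
  obtain ⟨i, hi⟩ := hlast
  obtain ⟨f, hf, hfe⟩ := sq_last H g3 (fun x h => hTi x (g2 x x h)) (fun x y => eid x y) (fun x y => eid_comm x y)
    (nv κ.1) (nv κ.2.1) hm.pos hcard r i (by rw [← hi]; exact hiso)
  refine ⟨f, ⟨hf.1, fun x => g2 x (f x) (hf.2 x)⟩, fun x y => ?_⟩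
  rw [hout, hi, hstart i]
  exact hfe x y

end QLN
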