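import Pool.Agent.Lib.MP_0087d5_lcQN.SDefs
import Pool.Agent.Lib.MP_0087d5_lcQS.P2

/-!
# Leaf C1 (medium): few bad numbers of the test, for a fixed graph and fixed weights

Proof: adapt leaf P2 of MP_0087d5_lcQS (`bad2_count`, by helper20). If `A` has no perfect matching, `GoodY` is trivial. Otherwise let `c₀ = tw ω f` for a perfect matching of least weight; `K = N * m + 1`, `s = Nat.clog 2 N`; the sets `B` of `hW`.
(1) The number of the `ρ : Fin R → ZMod q` with `(ρ j).val % m ∈ B j (fun l => (ρ l).val % m)` for some `j < s` is at most `R * (N ^ C * (q / m + 1)) * q ^ (R - 1)` (times `q`: `R * N ^ C * (q / m + 1) * q ^ R`): for fixed other coordinates the set does not depend on the coordinate `j`, and each residue modulo `m` has at most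
`q / m + 1` representatives below `q` (`rc_count` in QB/Q7 is the same count for an injective map; redo its proof for a map with fibres of at most `q / m + 1` elements).
(2) For all other `ρ` the weights `K ^ s * ω + WS eid K m (ρ · % m) s` isolate a perfect matching of least `ω` weight, so do `K ^ R * ω + WS … R` (as in `iso_ext`), and `(ρ j).val ^ e % m = ((ρ j).val % m) ^ e % m` (`Nat.pow_mod`). So by `coeff_ne` (QS/P1) the coefficient `c₀`, a polynomial in the `R` variables, is not zero; its degree is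
at most `N * (R * m)` (`coeff_deg`), its value is the coefficient for `Y` (`coeff_eval`), and `MvPolynomial.schwartz_zippel_totalDegree` (with all of `ZMod q` as the finite set; or `sz_count` in QB/Q7) bounds the number of the `ξ` with value `0` by `N * (R * m) * q ^ (R - 1)`.
-/

set_option autoImplicit false
set_option linter.all false

namespace QLN

open Finset Pool.Agent Pool.Agent.PMNC MTC LIN PRS QRB QSR

private theorem C1_sum {V : Type} (e : V → V → ℕ) (K m : ℕ) (r : ℕ → ℕ) (R : ℕ) (u v : V) :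
    QSR.WS e K m r R u v = ∑ i : Fin R, K ^ (R - 1 - (i : ℕ)) * (r i ^ e u v % m) := by
  induction R with
  | zero => simp [QSR.WS]
  | succ R ih =>
    change K * QSR.WS e K m r R u v + r R ^ e u v % m = _
    rw [ih, Fin.sum_univ_castSucc, Finset.mul_sum]
    congr 1
    · refine Finset.sum_congr rfl fun i _ => ?_
      rw [← mul_assoc, ← pow_succ']
      have h : R - 1 - (i : ℕ) + 1 = R + 1 - 1 - (i.castSucc : ℕ) := by
        have := i.2
        simp only [Fin.val_castSucc]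
        omega
      rw [h]
      rfl
    · simp

/-- the isolation persists -/
private theorem C1_pers {N : ℕ} (A : Fin N → Fin N → Prop) (ω : Fin N → Fin N → ℕ) (e : Fin N → Fin N → ℕ) (K m : ℕ)
    (hm : 0 < m) (hK : N * m < K) (r : ℕ → ℕ) {s R : ℕ} (hs : s ≤ R) (f : Fin N → Fin N)
    (h : ∀ f', MTC.IsPM A f' → f' ≠ f → MTC.tw (fun x y => K ^ s * ω x y + QSR.WS e K m r s x y) f <
      MTC.tw (fun x y => K ^ s * ω x y + QSR.WS e K m r s x y) f') :
    ∀ f', MTC.IsPM A f' → f' ≠ f → MTC.tw (fun x y => K ^ R * ω x y + QSR.WS e K m r R x y) f <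
      MTC.tw (fun x y => K ^ R * ω x y + QSR.WS e K m r R x y) f' := by
  obtain ⟨d, rfl⟩ := Nat.exists_eq_add_of_le hs
  clear hs
  induction d with
  | zero => exact h
  | succ d ih =>
    intro f' hf' hne
    have h1 := ih f' hf' hne
    have h2 : ∀ g : Fin N → Fin N, MTC.tw (fun x y => K ^ (s + (d + 1)) * ω x y + QSR.WS e K m r (s + (d + 1)) x y) g =
        K * MTC.tw (fun x y => K ^ (s + d) * ω x y + QSR.WS e K m r (s + d) x y) g + ∑ u, (r (s + d) ^ e u (g u) % m) := by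
      intro g
      unfold MTC.tw
      rw [Finset.mul_sum, ← Finset.sum_add_distrib]
      refine Finset.sum_congr rfl fun u _ => ?_
      change K ^ (s + (d + 1)) * ω u (g u) + (K * QSR.WS e K m r (s + d) u (g u) + r (s + d) ^ e u (g u) % m) = _
      rw [← add_assoc s d 1, pow_succ]
      ring
    have h3 : ∑ u, (r (s + d) ^ e u (f u) % m) ≤ N * m := by
      refine (Finset.sum_le_card_nsmul Finset.univ _ m fun u _ => (Nat.mod_lt _ hm).le).trans ?_
      simp
    rw [h2, h2]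
    have h4 : K * (MTC.tw (fun x y => K ^ (s + d) * ω x y + QSR.WS e K m r (s + d) x y) f + 1) ≤
      K * MTC.tw (fun x y => K ^ (s + d) * ω x y + QSR.WS e K m r (s + d) x y) f' := Nat.mul_le_mul_left _ h1
    rw [mul_add, mul_one] at h4
    omega

private def C1_ext {R : ℕ} {Z : Type} (φ : Z → ℕ) (ρ : Fin R → Z) (j : ℕ) : ℕ := if h : j < R then φ (ρ ⟨j, h⟩) else 0

private theorem C1_ext_eq {R : ℕ} {Z : Type} (φ : Z → ℕ) (ρ ρ' : Fin R → Z) (i : Fin R) (h : ∀ j, j ≠ i → ρ j = ρ' j) :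
    ∀ j < (i : ℕ), C1_ext φ ρ j = C1_ext φ ρ' j := by
  intro j hj
  have hjR : j < R := hj.trans i.2
  have hne : (⟨j, hjR⟩ : Fin R) ≠ i := by
    intro hh
    rw [← hh] at hj
    exact absurd hj (lt_irrefl _)
  simp only [C1_ext, dif_pos hjR, h _ hne]

private theorem C1_one {R M s : ℕ} {Z : Type} [Fintype Z] [DecidableEq Z] (φ : Z → ℕ)
    (hφ : ∀ v, (Finset.univ.filter fun z => φ z = v).card ≤ s) (B : ℕ → (ℕ → ℕ) → Finset ℕ)
    (hB : ∀ i r, (B i r).card ≤ M) (hB2 : ∀ i r r', (∀ j < i, r j = r' j) → B i r = B i r') (i : Fin R) :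
    (Finset.univ.filter fun ρ : Fin R → Z => φ (ρ i) ∈ B i (C1_ext φ ρ)).card * Fintype.card Z ≤
      s * M * Fintype.card Z ^ R := by
  classical
  have h1 : (Finset.univ.filter fun ρ : Fin R → Z => φ (ρ i) ∈ B i (C1_ext φ ρ)).card * Fintype.card Z =
      ((Finset.univ.filter fun ρ : Fin R → Z => φ (ρ i) ∈ B i (C1_ext φ ρ)) ×ˢ (Finset.univ : Finset Z)).card := by
    rw [Finset.card_product, Finset.card_univ]
  have h2 : Fintype.card Z ^ R = (Finset.univ : Finset (Fin R → Z)).card := by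
    rw [Finset.card_univ, Fintype.card_fun, Fintype.card_fin]
  rw [h1, h2]
  refine Finset.card_le_mul_card_image_of_maps_to (f := fun x : (Fin R → Z) × Z => Function.update x.1 i x.2)
    (fun _ _ => Finset.mem_univ _) (s * M) ?_
  intro ρ' _
  have h3 : (Finset.univ.filter fun z => φ z ∈ B i (C1_ext φ ρ')).card ≤ s * M := by
    refine (Finset.card_le_mul_card_image_of_maps_to (f := φ) (t := B i (C1_ext φ ρ'))
      (fun z hz => (Finset.mem_filter.1 hz).2) s fun v _ => ?_).trans (Nat.mul_le_mul_left _ (hB _ _))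
    refine (Finset.card_le_card ?_).trans (hφ v)
    intro z hz
    exact Finset.mem_filter.2 ⟨Finset.mem_univ _, (Finset.mem_filter.1 hz).2⟩
  refine (Finset.card_le_card_of_injOn (t := Finset.univ.filter fun z => φ z ∈ B i (C1_ext φ ρ'))
    (fun x : (Fin R → Z) × Z => x.1 i) ?_ ?_).trans h3
  · rintro ⟨ρ, y⟩ hx
    have hx1 := Finset.mem_filter.1 (Finset.mem_coe.1 hx)
    have hx2 := (Finset.mem_filter.1 (Finset.mem_product.1 hx1.1).1).2
    have hx3 : Function.update ρ i y = ρ' := hx1.2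
    have hx4 : B i (C1_ext φ ρ) = B i (C1_ext φ ρ') := by
      refine hB2 _ _ _ (C1_ext_eq φ ρ ρ' i fun j hj => ?_)
      rw [← hx3, Function.update_of_ne hj]
    refine Finset.mem_coe.2 (Finset.mem_filter.2 ⟨Finset.mem_univ _, ?_⟩)
    rw [← hx4]
    exact hx2
  · rintro ⟨ρ, y⟩ hx ⟨ρ1, y1⟩ hx1 hh
    have e1 : Function.update ρ i y = ρ' := (Finset.mem_filter.1 (Finset.mem_coe.1 hx)).2
    have e2 : Function.update ρ1 i y1 = ρ' := (Finset.mem_filter.1 (Finset.mem_coe.1 hx1)).2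
    have e3 : ρ i = ρ1 i := hh
    have e4 : y = y1 := by
      have a1 := congrFun e1 i
      have a2 := congrFun e2 i
      rw [Function.update_self] at a1 a2
      rw [a1, a2]
    have e5 : ρ = ρ1 := by
      funext j
      by_cases hj : j = i
      · rw [hj]
        exact e3
      · have a1 := congrFun e1 j
        have a2 := congrFun e2 j
        rw [Function.update_of_ne hj] at a1 a2
        rw [a1, a2]
    rw [e4, e5]

private theorem C1_rc {R M s : ℕ} {Z : Type} [Fintype Z] [DecidableEq Z] (φ : Z → ℕ)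
    (hφ : ∀ v, (Finset.univ.filter fun z => φ z = v).card ≤ s) (B : ℕ → (ℕ → ℕ) → Finset ℕ) (hB : ∀ i r, (B i r).card ≤ M)
    (hB2 : ∀ i r r', (∀ j < i, r j = r' j) → B i r = B i r') :
    Nat.card {ρ : Fin R → Z // ∃ i : Fin R, φ (ρ i) ∈ B i (C1_ext φ ρ)} * Fintype.card Z ≤
      R * (s * M) * Fintype.card Z ^ R := by
  classical
  rw [Nat.card_eq_fintype_card, Fintype.card_subtype]
  have h1 : (Finset.univ.filter fun ρ : Fin R → Z => ∃ i : Fin R, φ (ρ i) ∈ B i (C1_ext φ ρ)).card ≤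
      ∑ i : Fin R, (Finset.univ.filter fun ρ : Fin R → Z => φ (ρ i) ∈ B i (C1_ext φ ρ)).card := by
    refine (Finset.card_le_card ?_).trans (Finset.card_biUnion_le (s := Finset.univ)
      (t := fun i : Fin R => Finset.univ.filter fun ρ : Fin R → Z => φ (ρ i) ∈ B i (C1_ext φ ρ)))
    intro ρ hρ
    obtain ⟨i, hi⟩ := (Finset.mem_filter.1 hρ).2
    exact Finset.mem_biUnion.2 ⟨i, Finset.mem_univ _, Finset.mem_filter.2 ⟨Finset.mem_univ _, hi⟩⟩
  refine (Nat.mul_le_mul_right _ h1).trans ?_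
  rw [Finset.sum_mul]
  refine (Finset.sum_le_sum fun i _ => C1_one φ hφ B hB hB2 i).trans ?_
  rw [Finset.sum_const, Finset.card_univ, Fintype.card_fin, smul_eq_mul]
  exact le_of_eq (by ring)

private theorem C1_fib {q m : ℕ} [NeZero q] (v : ℕ) :
    (Finset.univ.filter fun z : ZMod q => z.val % m = v).card ≤ q / m + 1 := by
  classical
  rw [← Finset.card_range (q / m + 1)]
  refine Finset.card_le_card_of_injOn (fun z => z.val / m) ?_ ?_
  · intro z _
    refine Finset.mem_coe.2 (Finset.mem_range.2 (Nat.lt_succ_of_le (Nat.div_le_div_right (ZMod.val_lt z).le)))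
  · intro z hz z' hz' hh
    have h1 : z.val % m = v := (Finset.mem_filter.1 (Finset.mem_coe.1 hz)).2
    have h2 : z'.val % m = v := (Finset.mem_filter.1 (Finset.mem_coe.1 hz')).2
    have h3 : z.val / m = z'.val / m := hh
    apply ZMod.val_injective q
    rw [← Nat.div_add_mod z.val m, ← Nat.div_add_mod z'.val m, h1, h2, h3]

private theorem C1_sz {q R : ℕ} [Fact q.Prime] (F : MvPolynomial (Fin R) (ZMod q)) (hF : F ≠ 0) :
    Nat.card {ξ : Fin R → ZMod q // MvPolynomial.eval ξ F = 0} * q ≤ F.totalDegree * q ^ R := by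
  classical
  have h0 := MvPolynomial.schwartz_zippel_totalDegree hF (Finset.univ : Finset (ZMod q))
  rw [Finset.card_univ, ZMod.card] at h0
  have h3 : Nat.card {ξ : Fin R → ZMod q // MvPolynomial.eval ξ F = 0} ≤
      (Finset.filter (fun f => MvPolynomial.eval f F = 0)
        (Fintype.piFinset fun _ : Fin R => (Finset.univ : Finset (ZMod q)))).card := by
    rw [Nat.card_eq_fintype_card, Fintype.card_subtype]
    refine Finset.card_le_card ?_
    intro ξ hξ
    refine Finset.mem_filter.2 ⟨?_, (Finset.mem_filter.1 hξ).2⟩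
    rw [Fintype.mem_piFinset]
    exact fun i => Finset.mem_univ _
  set N : ℕ := (Finset.filter (fun f => MvPolynomial.eval f F = 0)
    (Fintype.piFinset fun _ : Fin R => (Finset.univ : Finset (ZMod q)))).card with hN
  have h4 : N * q ≤ F.totalDegree * q ^ R := by
    have hq : 0 < q := (Fact.out : q.Prime).pos
    have hpos : (0 : NNRat) < (q : NNRat) := by exact_mod_cast hq
    have hpos' : (0 : NNRat) < (q : NNRat) ^ R := pow_pos hpos R
    rw [div_le_div_iff₀ hpos' hpos] at h0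
    exact_mod_cast h0
  exact (Nat.mul_le_mul_right _ h3).trans h4

/-- the count for good numbers -/
private theorem C1_good {N R m q : ℕ} [Fact q.Prime] (hR : Nat.clog 2 N ≤ R) (hm : m.Prime)
    (A : Fin N → Fin N → Prop) (hs : ∀ x y, A x y → A y x) (hi : ∀ x, ¬ A x x)
    (ω : Fin N → Fin N → ℕ) (hω : ∀ x y, ω x y = ω y x) {B : ℕ → (ℕ → ℕ) → Finset ℕ}
    (hB3 : ∀ r : ℕ → ℕ, (∀ i < Nat.clog 2 N, r i < m ∧ r i ∉ B i r) → ∃ f, MTC.IsMin A ω f ∧ ∀ f', MTC.IsPM A f' → f' ≠ f →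
        MTC.tw (fun x y => (N * m + 1) ^ Nat.clog 2 N * ω x y + QSR.WS eid (N * m + 1) m r (Nat.clog 2 N) x y) f <
          MTC.tw (fun x y => (N * m + 1) ^ Nat.clog 2 N * ω x y + QSR.WS eid (N * m + 1) m r (Nat.clog 2 N) x y) f')
    (ρ : Fin R → ZMod q)
    (hρ : ¬ ∃ i : Fin R, (fun x : ZMod q => x.val % m) (ρ i) ∈ B i (C1_ext (fun x : ZMod q => x.val % m) ρ)) :
    Nat.card {ξ : Fin R → ZMod q //
      ¬ GoodY q A ω (fun x x' => ∏ j, ξ j ^ ((ρ j).val ^ eid x x' % m))} * q ≤ N * (R * m) * q ^ R := by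
  obtain ⟨r, hr⟩ : ∃ r : ℕ → ℕ, r = C1_ext (fun x : ZMod q => x.val % m) ρ := ⟨_, rfl⟩
  have hr1 : ∀ i : Fin R, r i = (ρ i).val % m := by
    intro i
    rw [hr]
    unfold C1_ext
    rw [dif_pos i.2]
  obtain ⟨f, hf, h1⟩ := hB3 r fun i hi' => by
    have hi'' : i < R := lt_of_lt_of_le hi' hR
    have h2 := hr1 ⟨i, hi''⟩
    dsimp only at h2
    refine ⟨?_, fun h3 => hρ ⟨⟨i, hi''⟩, ?_⟩⟩
    · rw [h2]
      exact Nat.mod_lt _ hm.pos
    · rw [h2, hr] at h3
      exact h3
  have h2 := C1_pers A ω eid (N * m + 1) m hm.pos (Nat.lt_succ_self _) r hR f h1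
  have h3 : ∀ x y : Fin N, (N * m + 1) ^ R * ω x y + QSR.WS eid (N * m + 1) m r R x y =
      (N * m + 1) ^ R * ω x y + ∑ i : Fin R, (N * m + 1) ^ (R - 1 - (i : ℕ)) * ((ρ i).val ^ eid x y % m) := by
    intro u v
    rw [C1_sum]
    congr 1
    refine Finset.sum_congr rfl fun i _ => ?_
    rw [hr1 i, ← Nat.pow_mod]
  simp only [h3] at h2
  have h4 := coeff_ne q R (N * m + 1) m (Nat.lt_succ_self _) A hs hi ω hω
    (fun i u v => (ρ i).val ^ eid u v % m) (fun i u v => by rw [eid_comm u v])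
    (fun i u v => (Nat.mod_lt _ hm.pos).le) f hf h2
  have h5 := coeff_deg q R m A ω
    (fun i u v => (ρ i).val ^ eid u v % m) (fun i u v => (Nat.mod_lt _ hm.pos).le) (MTC.tw ω f)
  have h6 := (C1_sz _ h4).trans (Nat.mul_le_mul_right _ h5)
  refine le_trans (Nat.mul_le_mul_right _ ?_) h6
  classical
  rw [Nat.card_eq_fintype_card, Nat.card_eq_fintype_card]
  refine Fintype.card_subtype_mono _ _ ?_
  intro ξ hξ
  by_contra h7
  apply hξ
  intro c₀ hc₀ h8
  obtain ⟨⟨f₀, hf₀, rfl⟩, hc1⟩ := hc₀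
  have h9 : MTC.tw ω f₀ = MTC.tw ω f := le_antisymm (hc1 f hf.1) (hf.2 f₀ hf₀)
  apply h7
  rw [h9] at h8
  rw [coeff_eval]
  exact h8

/-- the count over pairs -/
private theorem C1_pairs {R : ℕ} {Z : Type} [Fintype Z] (P : (Fin R → Z) → (Fin R → Z) → Prop) :
    Nat.card {y : Fin R → Z × Z // P (fun i => (y i).1) (fun i => (y i).2)} =
      ∑ ρ : Fin R → Z, Nat.card {ξ : Fin R → Z // P ρ ξ} := by
  classical
  have h1 : Nat.card {y : Fin R → Z × Z // P (fun i => (y i).1) (fun i => (y i).2)} =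
      Nat.card {x : (Fin R → Z) × (Fin R → Z) // P x.1 x.2} := by
    refine Nat.card_congr ?_
    exact (Equiv.arrowProdEquivProdArrow (Fin R) (fun _ => Z) (fun _ => Z)).subtypeEquiv fun y => Iff.rfl
  rw [h1, Nat.card_eq_fintype_card, Fintype.card_subtype, Finset.card_filter, Fintype.sum_prod_type]
  refine Finset.sum_congr rfl fun ρ _ => ?_
  rw [Nat.card_eq_fintype_card, Fintype.card_subtype, Finset.card_filter]

theorem gy_count {C : ℕ} (hW : IsoMostW C) {N R m q : ℕ} [Fact q.Prime] (hN : 2 ≤ N) (hR : Nat.clog 2 N ≤ R) (hm : m.Prime) (A : Fin N → Fin N → Prop)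
    (hs : ∀ x y, A x y → A y x) (hi : ∀ x, ¬ A x x) (ω : Fin N → Fin N → ℕ) (hω : ∀ x y, ω x y = ω y x) :
    Nat.card {y : Fin R → ZMod q × ZMod q // ¬ GoodY q A ω (fun x x' => ∏ j, (y j).2 ^ ((y j).1.val ^ eid x x' % m))} * q ≤
      (R * N ^ C * (q / m + 1) + N * (R * m)) * q ^ (2 * R) := by
  classical
  by_cases hT : ∃ f, MTC.IsPM A f
  swap
  · have h0 : IsEmpty {y : Fin R → ZMod q × ZMod q //
        ¬ GoodY q A ω (fun x x' => ∏ j, (y j).2 ^ ((y j).1.val ^ eid x x' % m))} := by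
      refine ⟨fun y => y.2 ?_⟩
      intro c₀ hc₀
      obtain ⟨⟨f, hf, _⟩, _⟩ := hc₀
      exact absurd ⟨f, hf⟩ hT
    rw [Nat.card_of_isEmpty, zero_mul]
    exact Nat.zero_le _
  obtain ⟨B, hB1, hB2, hB3⟩ := hW N hN m hm (N * m + 1) (Nat.lt_succ_self _) A hs hi hT ω hω
  have hbad := C1_rc (R := R) (M := N ^ C) (s := q / m + 1) (fun x : ZMod q => x.val % m)
    (fun v => C1_fib v) B hB1 hB2
  rw [ZMod.card] at hbad
  have hgood := fun ρ : Fin R → ZMod q => C1_good hR hm A hs hi ω hω hB3 ρ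
  have hpairs := C1_pairs (R := R) (Z := ZMod q) (fun ρ ξ =>
    ¬ GoodY q A ω (fun x x' => ∏ j, ξ j ^ ((ρ j).val ^ eid x x' % m)))
  rw [hpairs]
  obtain ⟨bad, hbd⟩ : ∃ bad : (Fin R → ZMod q) → Prop, bad = fun ρ => ∃ i : Fin R,
    (fun x : ZMod q => x.val % m) (ρ i) ∈ B i (C1_ext (fun x : ZMod q => x.val % m) ρ) := ⟨_, rfl⟩
  have hbad' : (∑ ρ : Fin R → ZMod q, if bad ρ then 1 else 0) * q ≤ R * ((q / m + 1) * N ^ C) * q ^ R := by
    rw [← Finset.card_filter, ← Fintype.card_subtype, ← Nat.card_eq_fintype_card, hbd]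
    exact hbad
  obtain ⟨Z, hZ⟩ : ∃ Z : (Fin R → ZMod q) → ℕ, Z = fun ρ => Nat.card {ξ : Fin R → ZMod q //
      ¬ GoodY q A ω (fun x x' => ∏ j, ξ j ^ ((ρ j).val ^ eid x x' % m))} := ⟨_, rfl⟩
  have hcard : Fintype.card (Fin R → ZMod q) = q ^ R := by
    rw [Fintype.card_fun, Fintype.card_fin, ZMod.card]
  have hZ1 : ∀ ρ, Z ρ ≤ q ^ R := by
    intro ρ
    rw [hZ]
    dsimp only
    rw [Nat.card_eq_fintype_card]
    refine (Fintype.card_subtype_le _).trans ?_
    rw [hcard]
  have hZ2 : ∀ ρ, ¬ bad ρ → Z ρ * q ≤ N * (R * m) * q ^ R := by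
    intro ρ h
    rw [hZ]
    rw [hbd] at h
    exact hgood ρ h
  have hone : ∀ ρ : Fin R → ZMod q, Z ρ * q ≤ (if bad ρ then 1 else 0) * (q ^ R * q) + N * (R * m) * q ^ R := by
    intro ρ
    by_cases h : bad ρ
    · rw [if_pos h, one_mul]
      refine le_trans ?_ (Nat.le_add_right _ _)
      exact Nat.mul_le_mul_right _ (hZ1 ρ)
    · rw [if_neg h, zero_mul, zero_add]
      exact hZ2 ρ h
  have hgoal : (∑ ρ : Fin R → ZMod q, Z ρ) * q ≤ (R * N ^ C * (q / m + 1) + N * (R * m)) * q ^ (2 * R) := by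
    calc _ = ∑ ρ : Fin R → ZMod q, Z ρ * q := Finset.sum_mul _ _ _
      _ ≤ ∑ ρ : Fin R → ZMod q, ((if bad ρ then 1 else 0) * (q ^ R * q) + N * (R * m) * q ^ R) :=
          Finset.sum_le_sum fun ρ _ => hone ρ
      _ = (∑ ρ : Fin R → ZMod q, if bad ρ then 1 else 0) * (q ^ R * q) + q ^ R * (N * (R * m) * q ^ R) := by
          rw [Finset.sum_add_distrib, ← Finset.sum_mul, Finset.sum_const, Finset.card_univ, hcard, smul_eq_mul]
      _ = ((∑ ρ : Fin R → ZMod q, if bad ρ then 1 else 0) * q) * q ^ R + q ^ R * (N * (R * m) * q ^ R) := by ring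
      _ ≤ (R * ((q / m + 1) * N ^ C) * q ^ R) * q ^ R + q ^ R * (N * (R * m) * q ^ R) :=
          Nat.add_le_add_right (Nat.mul_le_mul_right _ hbad') _
      _ = _ := by
          rw [two_mul, pow_add]
          ring
  rw [hZ] at hgoal
  exact hgoal

end QLN
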