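import Pool.Agent.Lib.MP_0087d5_lcQN.SDefs

/-!
# Leaf C3 (medium): few sources have only bad points

Proof: as `card_exc2` (LI/Exc) with the dimension `D` in place of `n` (the lemmas `hitting` (MT/P5) and `condenser` (MT/R1) are general). (1) As `bad_seq` (MT/P6) for the dimension `D`: the number of the sequences `s : Fin (5 * D) → ZMod q` with `(fun u : Fin D => wk D (MTC.ext s) t u) ∈ B` for all `t ≤ 2 * D` is at most
`q ^ D * q ^ (4 * D) * (card B / q ^ D + D / q) ^ (2 * D)`, and `card B / q ^ D ≤ N ^ (-14)`, `D / q ≤ N ^ (-19)`, so it is at most `q ^ (5 * D) * (2 * N ^ (-14)) ^ (2 * D) ≤ q ^ (5 * D) / N ^ (26 * D)`.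
(2) Let `h = (q - 1) / (5 * D * N ^ 2) + 1`: `h ≤ q`, `(h - 1) * (5 * D) * (N ^ 2 - 1) < q`, `h * (5 * N ^ 3) ≥ q` (as `D ≤ N`), so `h ^ (5 * D) ≥ q ^ (5 * D) / (5 * N ^ 3) ^ (5 * D) > q ^ (5 * D) / N ^ (26 * D)`, because `(5 * N ^ 3) ^ 5 < N ^ 26` for `N ≥ 4`. (3) `condenser` with `m = 5 * D`, `d = N ^ 2`, and the coefficients of the
source (`LE_c`, `LE_inj`, `LE_sum`, `LE_wk`, `LE_pow` in LI/Exc; copy them if private, with `D` in place of `n` in `LE_wk`).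
-/

set_option autoImplicit false
set_option linter.all false

namespace QLN

open Finset Pool.Agent Pool.Agent.PMNC MTC LIN PRS QRB QSR

private theorem C3_eid {n : ℕ} {u v u' v' : Fin n} (h : u < v) (h' : u' < v') (he : eid u v = eid u' v') :
    u = u' ∧ v = v' := by
  unfold eid at he
  rw [if_pos h, if_pos h'] at he
  have h1 := nv_injective (S := fun n => Fin n × Fin n) he
  exact Prod.mk.inj h1

open Classical in
/-- the coefficient vector of a graph -/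
private noncomputable def C3_c (q : ℕ) {n : ℕ} (G : SimpleGraph (Fin n)) : Fin (n ^ 2) → ZMod q := fun i =>
  if ∃ u v : Fin n, (u < v ∧ G.Adj u v) ∧ eid u v = (i : ℕ) then 1 else 0

private theorem C3_sum {n q : ℕ} (G : SimpleGraph (Fin n)) (z : ZMod q) :
    ∑ i : Fin (n ^ 2), C3_c q G i * z ^ (i : ℕ) = fG q G z := by
  classical
  have h1 : fG q G z = ∑ p ∈ univ.filter (fun p : Fin n × Fin n => p.1 < p.2 ∧ G.Adj p.1 p.2),
      z ^ eid p.1 p.2 := by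
    unfold fG
    rw [Finset.sum_filter, Fintype.sum_prod_type]
  have h2 : ∑ i : Fin (n ^ 2), C3_c q G i * z ^ (i : ℕ) =
      ∑ i ∈ univ.filter (fun i : Fin (n ^ 2) => ∃ u v : Fin n, (u < v ∧ G.Adj u v) ∧ eid u v = (i : ℕ)),
        z ^ (i : ℕ) := by
    rw [Finset.sum_filter]
    refine Finset.sum_congr rfl fun i _ => ?_
    unfold C3_c
    by_cases h : ∃ u v : Fin n, (u < v ∧ G.Adj u v) ∧ eid u v = (i : ℕ)
    · rw [if_pos h, if_pos h, one_mul]
    · rw [if_neg h, if_neg h, zero_mul]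
  rw [h1, h2]
  symm
  refine Finset.sum_bij (fun p _ => (⟨eid p.1 p.2, eid_lt p.1 p.2⟩ : Fin (n ^ 2))) ?_ ?_ ?_ ?_
  · intro p hp
    rw [Finset.mem_filter] at hp ⊢
    exact ⟨Finset.mem_univ _, p.1, p.2, hp.2, rfl⟩
  · intro p hp p' hp' h
    rw [Finset.mem_filter] at hp hp'
    obtain ⟨e1, e2⟩ := C3_eid hp.2.1 hp'.2.1 (congrArg Fin.val h)
    exact Prod.ext e1 e2
  · intro i hi
    rw [Finset.mem_filter] at hi
    obtain ⟨-, u, v, h, he⟩ := hi
    exact ⟨(u, v), Finset.mem_filter.2 ⟨Finset.mem_univ _, h⟩, Fin.ext he⟩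
  · intro p _
    rfl

private theorem C3_inj {n q : ℕ} [Fact q.Prime] : Function.Injective (C3_c q (n := n)) := by
  intro G G' h
  have h1 : ∀ (G : SimpleGraph (Fin n)) (u v : Fin n), u < v →
      (G.Adj u v ↔ C3_c q G ⟨eid u v, eid_lt u v⟩ = 1) := by
    intro G u v huv
    unfold C3_c
    constructor
    · intro ha
      rw [if_pos ⟨u, v, ⟨huv, ha⟩, rfl⟩]
    · intro h0
      by_cases hh : ∃ u' v' : Fin n, (u' < v' ∧ G.Adj u' v') ∧
          eid u' v' = ((⟨eid u v, eid_lt u v⟩ : Fin (n ^ 2)) : ℕ)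
      · obtain ⟨u', v', ⟨a1, a2⟩, a3⟩ := hh
        obtain ⟨rfl, rfl⟩ := C3_eid a1 huv a3
        exact a2
      · rw [if_neg hh] at h0
        exact absurd h0 zero_ne_one
  ext u v
  rcases lt_trichotomy u v with huv | rfl | huv
  · rw [h1 G u v huv, h1 G' u v huv, h]
  · simp
  · rw [G.adj_comm, G'.adj_comm, h1 G v u huv, h1 G' v u huv, h]

private theorem C3_pow {q : ℕ} [Fact q.Prime] {g : ZMod q} (ho : orderOf g = q - 1) :
    g ≠ 0 ∧ ∀ x : ZMod q, x ≠ 0 → ∃ i : ℕ, x = g ^ i := by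
  have hq : 2 ≤ q := (Fact.out : q.Prime).two_le
  have hg0 : g ≠ 0 := by
    intro h
    have h1 : orderOf g ≠ 0 := by omega
    have h2 := pow_orderOf_eq_one g
    rw [h, zero_pow (by rw [h] at h1; exact h1)] at h2
    exact zero_ne_one h2
  refine ⟨hg0, fun x hx => ?_⟩
  have h1 : orderOf (Units.mk0 g hg0) = q - 1 := by
    rw [← orderOf_units, Units.val_mk0, ho]
  have h2 : Subgroup.zpowers (Units.mk0 g hg0) = ⊤ := by
    apply Subgroup.eq_top_of_card_eq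
    rw [Nat.card_zpowers, h1, Nat.card_eq_fintype_card, ZMod.card_units]
  have h3 : Units.mk0 x hx ∈ Subgroup.zpowers (Units.mk0 g hg0) := by
    rw [h2]
    exact Subgroup.mem_top _
  rw [← mem_powers_iff_mem_zpowers] at h3
  obtain ⟨i, hi⟩ := h3
  refine ⟨i, ?_⟩
  have h4 := congrArg Units.val hi
  simpa using h4.symm

private theorem C3_wk {n q : ℕ} (f : ℕ → ZMod q) {t : ℕ} (ht : t ≤ 2 * n) (u : Fin n) :
    wk n (MTC.ext (fun j : Fin (5 * n) => f (j : ℕ))) t (u : ℕ) = wk n f t (u : ℕ) := by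
  have h1 : ∀ j, j < 5 * n → MTC.ext (fun j : Fin (5 * n) => f (j : ℕ)) j = f j := by
    intro j hj
    unfold MTC.ext
    rw [dif_pos hj]
  have hu := u.2
  unfold wk
  rw [h1 _ (by omega)]
  congr 1
  refine Finset.sum_congr rfl fun i hi => ?_
  rw [Finset.mem_range] at hi
  rw [h1 _ (by omega), h1 _ (by omega)]

private theorem C3_pos {n q : ℕ} (s : Fin (5 * n) → ZMod q) (t : ℕ) (ht : t ≤ 2 * n) :
    (fun u : Fin n => MTC.ext s (u : ℕ)) + ∑ i : Fin (2 * n),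
      (if (i : ℕ) < t then MTC.ext s (n + 2 * (i : ℕ) + 1) • gd n (MTC.ext s (n + 2 * (i : ℕ))) else 0)
      = fun u : Fin n => wk n (MTC.ext s) t (u : ℕ) := by
  funext u
  rw [Pi.add_apply, Finset.sum_apply]
  unfold wk
  congr 1
  have h1 : ∀ i : Fin (2 * n), (if (i : ℕ) < t then
      MTC.ext s (n + 2 * (i : ℕ) + 1) • gd n (MTC.ext s (n + 2 * (i : ℕ))) else 0) u
      = (fun i : ℕ => if i < t then MTC.ext s (n + 2 * i + 1) * MTC.ext s (n + 2 * i) ^ (u : ℕ) else 0)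
        (i : ℕ) := by
    intro i
    by_cases h : (i : ℕ) < t
    · simp only [h, if_true, Pi.smul_apply, gd, smul_eq_mul]
    · simp only [h, if_false, Pi.zero_apply]
  rw [Finset.sum_congr rfl (fun i _ => h1 i)]
  rw [Fin.sum_univ_eq_sum_range (fun i : ℕ => if i < t then
    MTC.ext s (n + 2 * i + 1) * MTC.ext s (n + 2 * i) ^ (u : ℕ) else 0) (2 * n)]
  rw [← Finset.sum_filter]
  refine Finset.sum_congr ?_ (fun _ _ => rfl)
  ext i
  simp only [Finset.mem_filter, Finset.mem_range]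
  omega

private theorem C3_injs {n q : ℕ} (s s' : Fin (5 * n) → ZMod q)
    (h1 : ∀ u : Fin n, MTC.ext s (u : ℕ) = MTC.ext s' (u : ℕ))
    (h2 : ∀ i : Fin (2 * n), MTC.ext s (n + 2 * (i : ℕ)) = MTC.ext s' (n + 2 * (i : ℕ)))
    (h3 : ∀ i : Fin (2 * n), MTC.ext s (n + 2 * (i : ℕ) + 1) = MTC.ext s' (n + 2 * (i : ℕ) + 1)) :
    s = s' := by
  have key : ∀ j : ℕ, j < 5 * n → MTC.ext s j = MTC.ext s' j := by
    intro j hj
    rcases lt_or_ge j n with h | h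
    · exact h1 ⟨j, h⟩
    · rcases Nat.even_or_odd (j - n) with ⟨k, hk⟩ | ⟨k, hk⟩
      · have e : j = n + 2 * k := by omega
        have := h2 ⟨k, by omega⟩
        rw [e]
        exact this
      · have e : j = n + 2 * k + 1 := by omega
        have := h3 ⟨k, by omega⟩
        rw [e]
        exact this
  funext j
  have := key j.1 j.2
  simpa [MTC.ext, j.2] using this

private theorem C3_num {D q N : ℕ} (hq : 0 < q) (hN : 4 ≤ N) (hDN : D ≤ N) (hqN : N ^ 20 ≤ q) (b : ℕ)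
    (hB : b * N ^ 14 ≤ q ^ D) :
    (q : ℝ) ^ D * (q : ℝ) ^ (2 * (2 * D)) * ((b : ℝ) / (q : ℝ) ^ D + (D : ℝ) / q) ^ (2 * D) * (N : ℝ) ^ (26 * D)
      ≤ (q : ℝ) ^ (5 * D) := by
  have hq' : (0 : ℝ) < q := by exact_mod_cast hq
  have hN' : (4 : ℝ) ≤ N := by exact_mod_cast hN
  have hN0 : (0 : ℝ) < N := by linarith
  have hB' : (b : ℝ) * (N : ℝ) ^ 14 ≤ (q : ℝ) ^ D := by exact_mod_cast hB
  have h1 : (b : ℝ) / (q : ℝ) ^ D ≤ 1 / (N : ℝ) ^ 14 := by
    rw [div_le_div_iff₀ (pow_pos hq' D) (pow_pos hN0 14), one_mul]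
    exact hB'
  have h2 : (D : ℝ) / q ≤ 1 / (N : ℝ) ^ 14 := by
    rw [div_le_div_iff₀ hq' (pow_pos hN0 14), one_mul]
    have e1 : D * N ^ 14 ≤ q := by
      calc D * N ^ 14 ≤ N * N ^ 14 := Nat.mul_le_mul_right _ hDN
        _ = N ^ 15 := by ring
        _ ≤ N ^ 20 := Nat.pow_le_pow_right (by omega) (by norm_num)
        _ ≤ q := hqN
    exact_mod_cast e1
  have h3 : (b : ℝ) / (q : ℝ) ^ D + (D : ℝ) / q ≤ 1 / (N : ℝ) ^ 13 := by
    calc (b : ℝ) / (q : ℝ) ^ D + (D : ℝ) / q ≤ 1 / (N : ℝ) ^ 14 + 1 / (N : ℝ) ^ 14 := add_le_add h1 h2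
      _ = 2 / (N : ℝ) ^ 14 := by ring
      _ ≤ 1 / (N : ℝ) ^ 13 := by
        rw [div_le_div_iff₀ (pow_pos hN0 14) (pow_pos hN0 13), one_mul, pow_succ (N : ℝ) 13, mul_comm]
        exact mul_le_mul_of_nonneg_left (by linarith) (by positivity)
  have h0 : 0 ≤ (b : ℝ) / (q : ℝ) ^ D + (D : ℝ) / q := by positivity
  have h4 := pow_le_pow_left₀ h0 h3 (2 * D)
  have h5 : (1 / (N : ℝ) ^ 13) ^ (2 * D) * (N : ℝ) ^ (26 * D) = 1 := by
    rw [one_div, inv_pow, ← pow_mul, show 13 * (2 * D) = 26 * D by ring]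
    exact inv_mul_cancel₀ (by positivity)
  calc (q : ℝ) ^ D * (q : ℝ) ^ (2 * (2 * D)) * ((b : ℝ) / (q : ℝ) ^ D + (D : ℝ) / q) ^ (2 * D) * (N : ℝ) ^ (26 * D)
      ≤ (q : ℝ) ^ D * (q : ℝ) ^ (2 * (2 * D)) * (1 / (N : ℝ) ^ 13) ^ (2 * D) * (N : ℝ) ^ (26 * D) :=
        mul_le_mul_of_nonneg_right (mul_le_mul_of_nonneg_left h4 (by positivity)) (by positivity)
    _ = (q : ℝ) ^ D * (q : ℝ) ^ (2 * (2 * D)) := by rw [mul_assoc, h5, mul_one]
    _ = (q : ℝ) ^ (5 * D) := by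
        rw [← pow_add]
        congr 1
        ring

open Classical in
private theorem C3_bad {D q N : ℕ} [Fact q.Prime] (hN : 4 ≤ N) (hDN : D ≤ N) (hqN : N ^ 20 ≤ q)
    (B : Finset (Fin D → ZMod q)) (hB : B.card * N ^ 14 ≤ q ^ D) :
    (univ.filter fun s : Fin (5 * D) → ZMod q => ∀ t ≤ 2 * D, (fun u : Fin D => wk D (MTC.ext s) t (u : ℕ)) ∈ B).card *
      N ^ (26 * D) ≤ q ^ (5 * D) := by
  have hq : 0 < q := (Fact.out : q.Prime).pos
  have hh := hitting (n := D) (q := q) (2 * D) B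
  have hc : (univ.filter fun s : Fin (5 * D) → ZMod q =>
      ∀ t ≤ 2 * D, (fun u : Fin D => wk D (MTC.ext s) t (u : ℕ)) ∈ B).card ≤
      (univ.filter fun z : (Fin D → ZMod q) × (Fin (2 * D) → ZMod q × ZMod q) =>
      ∀ t ≤ 2 * D, z.1 + ∑ i : Fin (2 * D),
        (if (i : ℕ) < t then (z.2 i).2 • gd D (z.2 i).1 else 0) ∈ B).card := by
    refine Finset.card_le_card_of_injOn (fun s => ((fun u : Fin D => MTC.ext s (u : ℕ)),
      (fun i : Fin (2 * D) => (MTC.ext s (D + 2 * (i : ℕ)), MTC.ext s (D + 2 * (i : ℕ) + 1))))) ?_ ?_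
    · intro s hs
      rw [Finset.mem_coe, Finset.mem_filter] at hs ⊢
      refine ⟨Finset.mem_univ _, ?_⟩
      intro t ht
      have := hs.2 t ht
      rw [← C3_pos s t ht] at this
      exact this
    · intro s _ s' _ hss
      have e1 := congrArg Prod.fst hss
      have e2 := congrArg Prod.snd hss
      refine C3_injs s s' (fun u => congrFun e1 u) (fun i => ?_) (fun i => ?_)
      · exact congrArg Prod.fst (congrFun e2 i)
      · exact congrArg Prod.snd (congrFun e2 i)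
  have h5 := C3_num hq hN hDN hqN B.card hB
  have h6 : (((univ.filter fun s : Fin (5 * D) → ZMod q =>
      ∀ t ≤ 2 * D, (fun u : Fin D => wk D (MTC.ext s) t (u : ℕ)) ∈ B).card : ℕ) : ℝ) * (N : ℝ) ^ (26 * D) ≤
      (q : ℝ) ^ (5 * D) :=
    le_trans (mul_le_mul_of_nonneg_right (le_trans (by exact_mod_cast hc) hh) (by positivity)) h5
  exact_mod_cast h6

private theorem C3_h {D q N S : ℕ} (hN : 4 ≤ N) (hD : 1 ≤ D) (hDN : D ≤ N) (hqN : N ^ 20 ≤ q)
    (hS : S * N ^ (26 * D) ≤ q ^ (5 * D)) :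
    ∃ h : ℕ, h ≤ q ∧ (h - 1) * (5 * D) * (N ^ 2 - 1) < q ∧ S < h ^ (5 * D) := by
  have hq1 : 1 ≤ q := le_trans (Nat.one_le_pow _ _ (by omega)) hqN
  have hN2 : 1 ≤ N ^ 2 := Nat.one_le_pow _ _ (by omega)
  have ha : 0 < 5 * D * N ^ 2 := by positivity
  have hdm := Nat.div_mul_le_self (q - 1) (5 * D * N ^ 2)
  have hlt := Nat.lt_div_mul_add (a := q - 1) ha
  refine ⟨(q - 1) / (5 * D * N ^ 2) + 1, ?_, ?_, ?_⟩
  · have h1 : (q - 1) / (5 * D * N ^ 2) ≤ q - 1 := Nat.div_le_self _ _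
    omega
  · rw [Nat.add_sub_cancel]
    calc (q - 1) / (5 * D * N ^ 2) * (5 * D) * (N ^ 2 - 1) ≤ (q - 1) / (5 * D * N ^ 2) * (5 * D) * N ^ 2 :=
          Nat.mul_le_mul_left _ (Nat.sub_le _ _)
      _ = (q - 1) / (5 * D * N ^ 2) * (5 * D * N ^ 2) := by ring
      _ ≤ q - 1 := hdm
      _ < q := by omega
  · obtain ⟨h, hh⟩ : ∃ h : ℕ, h = (q - 1) / (5 * D * N ^ 2) + 1 := ⟨_, rfl⟩
    rw [← hh]
    have h1 : q ≤ h * (5 * N ^ 3) := by
      calc q ≤ h * (5 * D * N ^ 2) := by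
            rw [hh, add_mul, one_mul]
            omega
        _ ≤ h * (5 * N * N ^ 2) := Nat.mul_le_mul_left _ (Nat.mul_le_mul_right _ (Nat.mul_le_mul_left _ hDN))
        _ = h * (5 * N ^ 3) := by ring
    have h2 : (5 * N ^ 3) ^ 5 < N ^ 26 := by
      have e1 : 3125 < N ^ 11 := lt_of_lt_of_le (by norm_num) (Nat.pow_le_pow_left hN 11)
      calc (5 * N ^ 3) ^ 5 = 3125 * N ^ 15 := by ring
        _ < N ^ 11 * N ^ 15 := Nat.mul_lt_mul_of_pos_right e1 (by positivity)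
        _ = N ^ 26 := by ring
    have h3 : (5 * N ^ 3) ^ (5 * D) < N ^ (26 * D) := by
      rw [pow_mul, pow_mul]
      exact Nat.pow_lt_pow_left h2 (by omega)
    have hh0 : 0 < h := by
      rw [hh]
      exact Nat.succ_pos _
    have h4 : S * N ^ (26 * D) < h ^ (5 * D) * N ^ (26 * D) := by
      calc S * N ^ (26 * D) ≤ q ^ (5 * D) := hS
        _ ≤ (h * (5 * N ^ 3)) ^ (5 * D) := Nat.pow_le_pow_left h1 _
        _ = h ^ (5 * D) * (5 * N ^ 3) ^ (5 * D) := by rw [mul_pow]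
        _ < h ^ (5 * D) * N ^ (26 * D) := Nat.mul_lt_mul_of_pos_left h3 (by positivity)
    exact lt_of_mul_lt_mul_right h4 (Nat.zero_le _)

open Classical in
theorem card_excD {N q D : ℕ} [Fact q.Prime] (hN : 4 ≤ N) (hD : 1 ≤ D) (hDN : D ≤ N) (hqN : N ^ 20 ≤ q) (g : ZMod q) (ho : orderOf g = q - 1)
    (B : (Fin D → ZMod q) → Prop) (hB : (univ.filter fun z : Fin D → ZMod q => B z).card * N ^ 14 ≤ q ^ D) :
    (univ.filter fun X : SimpleGraph (Fin N) => ∀ y : ZMod q, ∀ t ≤ 2 * D, B (fun u => wk D (fun j => fG q X (g ^ j * y)) t (u : ℕ))).card < q ^ (5 * D) := by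
  obtain ⟨hg0, hgp⟩ := C3_pow ho
  have h5 := C3_bad hN hDN hqN (univ.filter fun z : Fin D → ZMod q => B z) hB
  obtain ⟨h, hh1, hh2, hh3⟩ := C3_h hN hD hDN hqN h5
  have hq2 : N ^ 2 ≤ q - 1 := by
    have e1 : N ^ 2 < N ^ 20 := Nat.pow_lt_pow_right (by omega) (by norm_num)
    omega
  have h6 := condenser g hgp hg0 (5 * D) (N ^ 2) h (by rw [ZMod.card]; exact hh1)
    (univ.filter fun s : Fin (5 * D) → ZMod q => ∀ t ≤ 2 * D, (fun u : Fin D => wk D (MTC.ext s) t (u : ℕ)) ∈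
      (univ.filter fun z : Fin D → ZMod q => B z))
    hh3 (by rw [ZMod.card]; exact hh2) (by rw [ZMod.card]; exact hq2)
  rw [ZMod.card] at h6
  refine lt_of_le_of_lt ?_ h6
  rw [← Finset.card_image_of_injective _ (C3_inj (n := N) (q := q))]
  refine Finset.card_le_card fun c hc => ?_
  obtain ⟨G, hG, rfl⟩ := Finset.mem_image.1 hc
  rw [Finset.mem_filter] at hG ⊢
  refine ⟨Finset.mem_univ _, fun y => ?_⟩
  rw [Finset.mem_filter]
  refine ⟨Finset.mem_univ _, fun t ht => ?_⟩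
  rw [Finset.mem_filter]
  refine ⟨Finset.mem_univ _, ?_⟩
  have h7 : (fun j : Fin (5 * D) => ∑ i : Fin (N ^ 2), C3_c q G i * (g ^ (j : ℕ) * y) ^ (i : ℕ)) =
      fun j : Fin (5 * D) => (fun j : ℕ => fG q G (g ^ j * y)) (j : ℕ) := by
    funext j
    exact C3_sum G _
  rw [h7]
  have h8 : (fun u : Fin D => wk D (MTC.ext fun j : Fin (5 * D) => (fun j : ℕ => fG q G (g ^ j * y)) (j : ℕ)) t (u : ℕ)) =
      fun u : Fin D => wk D (fun j => fG q G (g ^ j * y)) t (u : ℕ) := by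
    funext u
    exact C3_wk (fun j : ℕ => fG q G (g ^ j * y)) ht u
  rw [h8]
  exact hG.2 y t ht

end QLN
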