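import Pool.Agent.Lib.MP_0087d5_lcQN.FDefs

/-!
# Leaf F0 (easy): the tested graphs

`tk_inl`, `tk_inr`: `t1_pair`, `t2_pair` (QB/Q10). `tk_off`: `x y : Fin (n + n)`; only the clause `lo x ∧ lo y ∧ (pair G ⊥).Adj x y` of `T1` depends on `G`; for `x = Fin.castAdd n u`, `y = Fin.castAdd n v` it is `G.Adj u v` (`Fin.addCases`; see Q10 and MT/Y2). `sp_inj`: `SP_inj`, `SP_congr` (MT/Y2).
-/

set_option autoImplicit false
set_option linter.all false

namespace QLN

open Finset Pool.Agent Pool.Agent.PMNC MTC LIN PRS QRB QSR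

private lemma F0_hi {n : ℕ} (a : Fin n) : ¬ lo (Fin.natAdd n a : Fin (n + n)) := by
  simp only [lo, Fin.val_natAdd]
  omega

private lemma F0_ll {n : ℕ} (G A : SimpleGraph (Fin n)) (a b : Fin n) :
    (pair G A).Adj (Fin.castAdd n a) (Fin.castAdd n b) ↔ G.Adj a b := by
  change (G ⊕g A).Adj (finSumFinEquiv.symm (Fin.castAdd n a)) (finSumFinEquiv.symm (Fin.castAdd n b)) ↔ _
  rw [finSumFinEquiv_symm_apply_castAdd, finSumFinEquiv_symm_apply_castAdd]
  rfl

private lemma F0_low {n : ℕ} (W : Finset (Fin n)) (G G' A : SimpleGraph (Fin n)) (h : Off W G G') (u v : Fin (n + n))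
    (hxy : ¬ (u ∈ W.map (Fin.castAddEmb n) ∧ v ∈ W.map (Fin.castAddEmb n))) :
    (lo u ∧ lo v ∧ (pair G' A).Adj u v) ↔ (lo u ∧ lo v ∧ (pair G A).Adj u v) := by
  revert hxy
  refine Fin.addCases (fun a => ?_) (fun a => ?_) u
  · refine Fin.addCases (fun b => ?_) (fun b => ?_) v
    · intro hxy
      rw [F0_ll, F0_ll, h a b fun h1 => hxy ⟨Finset.mem_map.2 ⟨a, h1.1, rfl⟩, Finset.mem_map.2 ⟨b, h1.2, rfl⟩⟩]
    · exact fun _ => ⟨fun h => absurd h.2.1 (F0_hi b), fun h => absurd h.2.1 (F0_hi b)⟩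
  · exact fun _ => ⟨fun h => absurd h.1 (F0_hi a), fun h => absurd h.1 (F0_hi a)⟩

section
variable {n : ℕ}

theorem tk_inl (G A : SimpleGraph (Fin n)) (d : Fin (n + n)) : TK n (Sum.inl d) G = T1 (n + n) (pair G A) d := by
  exact t1_pair G ⊥ A d

theorem tk_inr (G A : SimpleGraph (Fin n)) (e : Fin (n + n) × Fin (n + n)) : TK n (Sum.inr e) G = T2 (n + n) (pair G A) e := by
  exact t2_pair G ⊥ A e.1 e.2

theorem tk_off (W : Finset (Fin n)) (G G' : SimpleGraph (Fin n)) (h : Off W G G') (j : Fin (n + n) ⊕ (Fin (n + n) × Fin (n + n))) (x y : Fin (n + n))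
    (hxy : ¬ (x ∈ W.map (Fin.castAddEmb n) ∧ y ∈ W.map (Fin.castAddEmb n))) : (TK n j G').Adj x y ↔ (TK n j G).Adj x y := by
  have h1 := F0_low W G G' ⊥ h x y hxy
  rcases j with d | e
  · exact and_congr Iff.rfl (or_congr h1 Iff.rfl)
  · exact and_congr (and_congr Iff.rfl (or_congr h1 Iff.rfl)) Iff.rfl

theorem sp_inj (G G' A A' : SimpleGraph (Fin n)) (h : SP (n + n) (pair G A) = SP (n + n) (pair G' A')) : A = A' := by
  exact SP_inj G' A A' ((SP_congr G G' A).symm.trans h)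

end

end QLN
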