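import Pool.Agent.Lib.MP_0087d5_lcQN.S4

/-!
# Leaf C4 (medium-): a good point gives the output

Proof. `κ = (K, m, q, g.val, y.val, t, r0)` in `S N` (`nv_surj` (S := S); for `q`, `g.val`, `y.val < q`, `t`, `r0 < m`). `out_complete` (leaf S4) with `r = rZ r0 (pt …)`, `H = HH T.Adj …` (`r 0 = r0`). `hr`: `nr_eq` (leaf S0) and `rz m ((ν : ℤ) ^ e) = ν ^ e % m`. `hg`: `zY_cast` (leaf S0): the function
`fun x y => ((zY X κ x y : ℤ) : ZMod q)` is `YZ (4 L) m (pt …)`. `((g.val : ℕ) : ZMod q) = g` (`ZMod.natCast_zmod_val`). `q` as `nv κ.2.2.1`: `obtain ⟨q', rfl⟩ := nv_surj …` first.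
-/

set_option autoImplicit false
set_option linter.all false

namespace QLN

open Finset Pool.Agent Pool.Agent.PMNC MTC LIN PRS QRB QSR

private theorem C4_rz (m ν e : ℕ) : rz m ((ν : ℤ) ^ e) = ν ^ e % m := by
  unfold rz
  have h : ((ν : ℤ) ^ e % (m : ℤ)) = ((ν ^ e % m : ℕ) : ℤ) := by push_cast; rfl
  rw [h, Int.toNat_natCast]

theorem out_of_point {S : ℕ → Type} [Env S] [∀ n, Fintype (S n)] {N m q K M r0 : ℕ} [Fact q.Prime] (hN : 2 ≤ N) (h12 : 12 * Nat.log 2 N ≤ N) (hm : m.Prime)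
    (hmS : m < N ^ dim S) (hqS : q < N ^ dim S) (hK : N * m < K) (hKS : K < N ^ dim S) (hr0 : r0 < m) (hM : K * N + m ≤ M) (hMp : N * M < q - 1)
    (hB : 4 * (N * M + M + 1) < N ^ dim S) (X T : SimpleGraph (Fin N)) (hT : ∃ f, MTC.IsPM T.Adj f) (g y : ZMod q) (t : ℕ) (ht : t < N ^ dim S)
    (h : GoodZ (4 * Nat.log 2 N) K m r0 (HH T.Adj (ω0 m r0)) (pt (12 * Nat.log 2 N) X g y t)) :
    ∃ κ : Pq S N, ∃ f, MTC.IsPM T.Adj f ∧ ∀ x x', QLN.OutR X T κ x x' ↔ f x = x' := by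
  obtain ⟨sq, hsq⟩ := nv_surj (S := S) hqS
  subst hsq
  obtain ⟨sK, hsK⟩ := nv_surj (S := S) hKS
  subst hsK
  obtain ⟨sm, hsm⟩ := nv_surj (S := S) hmS
  subst hsm
  obtain ⟨st, hst⟩ := nv_surj (S := S) ht
  subst hst
  obtain ⟨sr, hsr⟩ := nv_surj (S := S) (lt_trans hr0 hmS)
  subst hsr
  haveI : NeZero (nv sq) := ⟨(Fact.out : (nv sq).Prime).ne_zero⟩
  obtain ⟨sg, hsg⟩ := nv_surj (S := S) (lt_trans (ZMod.val_lt g) hqS)
  obtain ⟨sy, hsy⟩ := nv_surj (S := S) (lt_trans (ZMod.val_lt y) hqS)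
  have hg' : ((nv sg : ℕ) : ZMod (nv sq)) = g := by rw [hsg, ZMod.natCast_zmod_val]
  have hy' : ((nv sy : ℕ) : ZMod (nv sq)) = y := by rw [hsy, ZMod.natCast_zmod_val]
  have hlog : 0 < Nat.log 2 N := Nat.log_pos (by norm_num) hN
  have hL : 4 * Nat.log 2 N < N := by omega
  have hnr : ∀ i : Fin N, (i : ℕ) < 4 * Nat.log 2 N → nr X ((sK, (sm, (sq, (sg, (sy, (st, sr)))))) : Pq S N) i =
      ((rZ (nv sr) (pt (12 * Nat.log 2 N) X g y (nv st)) (i : ℕ) : ℕ) : ℤ) := by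
    intro i hi
    haveI : Fact (nv ((sK, (sm, (sq, (sg, (sy, (st, sr)))))) : Pq S N).2.2.1).Prime := (inferInstance : Fact (nv sq).Prime)
    have h1 := nr_eq h12 X ((sK, (sm, (sq, (sg, (sy, (st, sr)))))) : Pq S N) i hi
    rw [h1]
    show ((rZ (nv sr) (pt (12 * Nat.log 2 N) X ((nv sg : ℕ) : ZMod (nv sq)) ((nv sy : ℕ) : ZMod (nv sq)) (nv st)) (i : ℕ) : ℕ) : ℤ) = _
    rw [hg', hy']
  have hzY : (fun x x' => ((QLN.zY X ((sK, (sm, (sq, (sg, (sy, (st, sr)))))) : Pq S N) x x' : ℤ) : ZMod (nv sq))) =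
      YZ (4 * Nat.log 2 N) (nv sm) (pt (12 * Nat.log 2 N) X g y (nv st)) := by
    funext x x'
    haveI : Fact (nv ((sK, (sm, (sq, (sg, (sy, (st, sr)))))) : Pq S N).2.2.1).Prime := (inferInstance : Fact (nv sq).Prime)
    have h1 := zY_cast h12 X ((sK, (sm, (sq, (sg, (sy, (st, sr)))))) : Pq S N) hm.ne_zero x x'
    refine h1.trans ?_
    show YZ (4 * Nat.log 2 N) (nv sm) (pt (12 * Nat.log 2 N) X ((nv sg : ℕ) : ZMod (nv sq)) ((nv sy : ℕ) : ZMod (nv sq)) (nv st)) x x' = _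
    rw [hg', hy']
  refine ⟨(sK, (sm, (sq, (sg, (sy, (st, sr)))))), ?_⟩
  refine out_complete hN X T (sK, (sm, (sq, (sg, (sy, (st, sr)))))) hm (Fact.out : (nv sq).Prime) hK M hM hMp hB hL hT
    (rZ (nv sr) (pt (12 * Nat.log 2 N) X g y (nv st))) ?_ (HH T.Adj (ω0 (nv sm) (nv sr))) ?_ h.1 ?_
  · intro i hi x x'
    rw [hnr i hi, C4_rz]
  · congr 1
    funext x x'
    simp [UU, ω0, rZ]
  · intro i hi v w
    have h2 := h.2 i hi v w
    rw [← hzY] at h2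
    exact h2

end QLN
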