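import Mathlib

/-!
# Leaf P1 (medium): the parameters

Proof. `a = C + k + 25`, `b = 2 * a + 40`, `D = b + 20` (or larger); `m` prime with `N ^ a < m ≤ 2 * N ^ a`, `q` prime with `N ^ b < q ≤ 2 * N ^ b` (`Nat.exists_prime_lt_and_le_two_mul`), `K = N * m + 1`, `M = K * N + m`. `12 * Nat.log 2 N ≤ N` for `N ≥ 128` (`N0`), `4 * Nat.log 2 N ≤ N`; `q / m + 1 ≤ 2 * q / N ^ a`-type bounds
(`q / m * m ≤ q`, so `(q / m + 1) * N ^ a ≤ q + N ^ a ≤ 2 * q`). With `R ≤ N`: the first term is at most `N ^ (C + 1) * (q / m + 1)`, the second at most `2 * N ^ 3 * (N ^ (C + 1) * (q / m + 1) + N ^ 2 * m)`.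
-/

set_option autoImplicit false
set_option linter.all false

namespace QLN

private theorem P1_two (L : ℕ) (h : 7 ≤ L) : 12 * L ≤ 2 ^ L := by
  induction L, h using Nat.le_induction with
  | base => norm_num
  | succ n hn ih => rw [pow_succ]; omega

private theorem P1_log (N : ℕ) (h : 128 ≤ N) : 12 * Nat.log 2 N ≤ N := by
  have h1 : 7 ≤ Nat.log 2 N := by
    have := Nat.log_mono_right (b := 2) h
    have h2 : Nat.log 2 128 = 7 := by
      rw [show (128 : ℕ) = 2 ^ 7 by norm_num]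
      exact Nat.log_pow (by norm_num) 7
    omega
  exact (P1_two _ h1).trans (Nat.pow_log_le_self 2 (by omega))

private theorem P1_last (N C a R m q : ℕ) (hN : 128 ≤ N) (hR : R ≤ N) (ha : C + 25 ≤ a) (hm1 : N ^ a < m) (hm2 : m ≤ 2 * N ^ a) (hq : N ^ (2 * a + 40) < q) :
    (R * N ^ C * (q / m + 1) + 2 * R * (N * N) * (R * N ^ C * (q / m + 1) + N * (R * m))) * N ^ 14 ≤ q := by
  set Q := q / m + 1 with hQ
  have hQm : Q * N ^ a ≤ 2 * q := by
    have h1 : q / m * m ≤ q := Nat.div_mul_le_self q m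
    have h2 : 2 * N ^ a ≤ N ^ (2 * a + 40) := by
      rw [show 2 * a + 40 = a + (a + 40) by ring, pow_add, mul_comm]
      refine Nat.mul_le_mul le_rfl ?_
      exact (show 2 ≤ N by omega).trans (Nat.le_self_pow (by omega) N)
    calc Q * N ^ a ≤ Q * m := Nat.mul_le_mul le_rfl hm1.le
      _ = q / m * m + m := by rw [hQ]; ring
      _ ≤ q + q := by omega
      _ = 2 * q := by ring
  have hA : 4 * (N ^ (C + 15) * (1 + 2 * N ^ 3)) ≤ N ^ a := by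
    have h1 : 1 + 2 * N ^ 3 ≤ N ^ 4 := by
      have : 1 ≤ N ^ 3 := Nat.one_le_pow _ _ (by omega)
      calc 1 + 2 * N ^ 3 ≤ N ^ 3 + 2 * N ^ 3 := by omega
        _ = 3 * N ^ 3 := by ring
        _ ≤ N * N ^ 3 := Nat.mul_le_mul (by omega) le_rfl
        _ = N ^ 4 := by ring
    calc 4 * (N ^ (C + 15) * (1 + 2 * N ^ 3)) ≤ N * (N ^ (C + 15) * N ^ 4) := by gcongr; omega
      _ = N ^ (C + 20) := by ring
      _ ≤ N ^ a := Nat.pow_le_pow_right (by omega) (by omega)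
  have hB : 2 * (2 * N ^ 19 * m) ≤ q := by
    calc 2 * (2 * N ^ 19 * m) ≤ 2 * (2 * N ^ 19 * (2 * N ^ a)) := by gcongr
      _ = 8 * N ^ (19 + a) := by rw [pow_add]; ring
      _ ≤ N * N ^ (19 + a) := Nat.mul_le_mul (by omega) le_rfl
      _ = N ^ (20 + a) := by rw [← pow_succ']; congr 1; omega
      _ ≤ N ^ (2 * a + 40) := Nat.pow_le_pow_right (by omega) (by omega)
      _ ≤ q := hq.le
  have hC : 2 * (Q * (N ^ (C + 15) * (1 + 2 * N ^ 3))) ≤ q := by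
    have h1 : Q * (4 * (N ^ (C + 15) * (1 + 2 * N ^ 3))) ≤ Q * N ^ a := Nat.mul_le_mul le_rfl hA
    have h2 : 2 * (2 * (Q * (N ^ (C + 15) * (1 + 2 * N ^ 3)))) ≤ 2 * q := by
      calc 2 * (2 * (Q * (N ^ (C + 15) * (1 + 2 * N ^ 3)))) = Q * (4 * (N ^ (C + 15) * (1 + 2 * N ^ 3))) := by ring
        _ ≤ 2 * q := h1.trans hQm
    omega
  have hD : (R * N ^ C * Q + 2 * R * (N * N) * (R * N ^ C * Q + N * (R * m))) * N ^ 14 ≤
      (N * N ^ C * Q + 2 * N * (N * N) * (N * N ^ C * Q + N * (N * m))) * N ^ 14 := by gcongr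
  have hE : (N * N ^ C * Q + 2 * N * (N * N) * (N * N ^ C * Q + N * (N * m))) * N ^ 14 =
      Q * (N ^ (C + 15) * (1 + 2 * N ^ 3)) + 2 * N ^ 19 * m := by
    rw [pow_add]; ring
  rw [hE] at hD
  omega

theorem params (C k : ℕ) : ∃ D N0 : ℕ, 128 ≤ N0 ∧ ∀ N : ℕ, N0 ≤ N → 12 * Nat.log 2 N ≤ N ∧ ∃ m q K M : ℕ, m.Prime ∧ q.Prime ∧ N ^ k < m ∧ N * m < K ∧ K * N + m ≤ M ∧
    N * M < q - 1 ∧ 4 * (N * M + M + 1) < N ^ D ∧ m < N ^ D ∧ q < N ^ D ∧ K < N ^ D ∧ 24 * Nat.log 2 N < N ^ D ∧ N ^ 20 ≤ q ∧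
    (4 * Nat.log 2 N * N ^ C * (q / m + 1) + 2 * (4 * Nat.log 2 N) * (N * N) * (4 * Nat.log 2 N * N ^ C * (q / m + 1) + N * (4 * Nat.log 2 N * m))) * N ^ 14 ≤ q := by
  refine ⟨2 * (C + k + 25) + 60, 128, le_rfl, fun N hN => ⟨P1_log N hN, ?_⟩⟩
  set a := C + k + 25 with ha
  have hN0 : 0 < N := by omega
  obtain ⟨m, hmp, hm1, hm2⟩ := Nat.exists_prime_lt_and_le_two_mul (N ^ a) (by positivity)
  obtain ⟨q, hqp, hq1, hq2⟩ := Nat.exists_prime_lt_and_le_two_mul (N ^ (2 * a + 40)) (by positivity)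
  have hpow : ∀ i j : ℕ, i ≤ j → N ^ i ≤ N ^ j := fun i j h => Nat.pow_le_pow_right hN0 h
  have hlog := P1_log N hN
  have hs : ∀ i : ℕ, 128 * N ^ i ≤ N ^ (i + 1) := fun i => by
    rw [pow_succ, mul_comm]; exact Nat.mul_le_mul le_rfl hN
  have hone : ∀ i : ℕ, 1 ≤ N ^ i := fun i => Nat.one_le_pow _ _ hN0
  have hm3 : N * m ≤ 2 * N ^ (a + 1) := by
    calc N * m ≤ N * (2 * N ^ a) := Nat.mul_le_mul le_rfl hm2
      _ = 2 * N ^ (a + 1) := by ring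
  have hm4 : N * N * m ≤ 2 * N ^ (a + 2) := by
    calc N * N * m ≤ N * N * (2 * N ^ a) := Nat.mul_le_mul le_rfl hm2
      _ = 2 * N ^ (a + 2) := by ring
  have hm5 : N * N * N * m ≤ 2 * N ^ (a + 3) := by
    calc N * N * N * m ≤ N * N * N * (2 * N ^ a) := Nat.mul_le_mul le_rfl hm2
      _ = 2 * N ^ (a + 3) := by ring
  have hM : (N * m + 1) * N + m = N * N * m + N + m := by ring
  have hNM : N * ((N * m + 1) * N + m) = N * N * N * m + N * N + N * m := by ring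
  have h1 : N ≤ N ^ a := Nat.le_self_pow (by omega) N
  have h2 : N * N ≤ N ^ (a + 1) := by rw [pow_succ']; exact Nat.mul_le_mul le_rfl h1
  have e0 : 128 * N ^ a ≤ N ^ (a + 1) := hs a
  have e1 : 128 * N ^ (a + 1) ≤ N ^ (a + 2) := hs (a + 1)
  have e2 : 128 * N ^ (a + 2) ≤ N ^ (a + 3) := hs (a + 2)
  have e3 : 128 * N ^ (a + 3) ≤ N ^ (a + 4) := hs (a + 3)
  have e4 : 128 * N ^ (a + 4) ≤ N ^ (a + 5) := hs (a + 4)
  have e5 : 128 * N ^ (2 * a + 40) ≤ N ^ (2 * a + 41) := hs (2 * a + 40)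
  have p0 := hone a
  have f1 := hpow (a + 4) (2 * a + 40) (by omega)
  have f2 := hpow (a + 5) (2 * a + 60) (by omega)
  have f3 := hpow (2 * a + 41) (2 * a + 60) (by omega)
  have f4 := hpow k a (by omega)
  have f5 := hpow 20 (2 * a + 40) (by omega)
  refine ⟨m, q, N * m + 1, (N * m + 1) * N + m, hmp, hqp, by omega, by omega, le_rfl, ?_, ?_, ?_, ?_, ?_, ?_, by omega, ?_⟩
  · rw [hNM]; omega
  · rw [hNM, hM]; omega
  · omega
  · omega
  · omega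
  · omega
  · exact P1_last N C a (4 * Nat.log 2 N) m q hN (by omega) (by omega) hm1 hm2 hq1

end QLN
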