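import Pool.Agent.Lib.MP_0087d5_lcQN.C2
import Pool.Agent.Lib.MP_0087d5_lcQN.C3
import Pool.Agent.Lib.MP_0087d5_lcQN.C4
import Pool.Agent.Lib.MP_0087d5_lcQN.P1
import Pool.Agent.Lib.MP_0087d5_lcQN.F0

/-!
# Leaf F2 (medium): few bad sources for one graph `H`

Proof. `D`, `N0` from `params C k` (leaf P1), `n0 = N0`; for `n ≥ n0` let `N = n + n ≥ N0`; `m, q, K, M` from `params`; `b = D * 120`-like constant for the bound `q ^ (5 * (12 L)) ≤ N ^ (60 * D * L) ≤ 2 ^ (c * Nat.log 2 n ^ 2)` (`N < 2 ^ (L + 1)`, `L = Nat.log 2 N = Nat.log 2 n + 1 ≤ 2 * Nat.log 2 n`).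
`g` a generator: `orderOf g = q - 1` (exists, the group of units of `ZMod q` is cyclic; see the use of `LE_pow` / `orderOf` in LI/Uni). Let `B z = ¬ GoodZ (4 L) K m r0 H z` on `Fin (12 L) → ZMod q`; `badz_count` (leaf C2, `R = 4 L`, `D = 12 L = 3 * (4 L)`, `Nat.clog 2 N + 1 ≤ 4 L`) and the last clause of `params` give
`card B * N ^ 14 ≤ q ^ (12 L)` (cancel `q`). `card_excD` (leaf C3) bounds the number of the graphs `X` on `Fin N` with only bad points; `A ↦ SP (n + n) (pair G A)` is injective (`sp_inj`). If some point `pt (12 L) X g y t`, `t ≤ 24 L`, is good, `out_of_point` (leaf C4) gives `κ` for every tested graph `T` with `HH T.Adj (ω0 m r0) = H`; `PMr` from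
`OutR x x' ↔ f x = x'`.
The theorem: the parameters `m` (depending on `N` only) are fixed before `r0` and `H`.
-/

set_option autoImplicit false
set_option linter.all false

namespace QLN

open Finset Pool.Agent Pool.Agent.PMNC MTC LIN PRS QRB QSR

private theorem F2_gen (q : ℕ) [Fact q.Prime] : ∃ g : ZMod q, orderOf g = q - 1 := by
  obtain ⟨u, hu⟩ := IsCyclic.exists_generator (α := (ZMod q)ˣ)
  refine ⟨(u : ZMod q), ?_⟩
  rw [orderOf_units, orderOf_eq_card_of_forall_mem_zpowers hu, Nat.card_eq_fintype_card, ZMod.card_units]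

private theorem F2_pmr {N : ℕ} {R : Fin N → Fin N → Prop} {f : Fin N → Fin N} (hf : ∀ v, f (f v) = v) (h : ∀ x y, R x y ↔ f x = y) : PMr R := by
  refine ⟨fun u => ⟨f u, (h u (f u)).2 rfl⟩, fun u v w h1 h2 => ?_, fun u v h1 => ?_⟩
  · rw [← (h u v).1 h1, ← (h u w).1 h2]
  · rw [h] at h1 ⊢
    rw [← h1, hf]

private theorem F2_num {n D q : ℕ} (hn : 2 ≤ n) (hq : q < (n + n) ^ D) :
    q ^ (5 * (12 * Nat.log 2 (n + n))) ≤ 2 ^ (360 * D * Nat.log 2 n ^ 2) := by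
  have hL : Nat.log 2 (n + n) = Nat.log 2 n + 1 := by
    rw [← mul_two, Nat.log_mul_base (by norm_num) (by omega)]
  have hl : 1 ≤ Nat.log 2 n := Nat.log_pos (by norm_num) hn
  have h1 : n + n ≤ 2 ^ (Nat.log 2 n + 2) := by
    have h := Nat.lt_pow_succ_log_self (b := 2) (by norm_num) (n + n)
    rw [hL] at h
    exact h.le
  calc q ^ (5 * (12 * Nat.log 2 (n + n))) ≤ ((n + n) ^ D) ^ (5 * (12 * Nat.log 2 (n + n))) := Nat.pow_le_pow_left hq.le _
    _ = (n + n) ^ (D * (5 * (12 * Nat.log 2 (n + n)))) := by rw [← pow_mul]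
    _ ≤ (2 ^ (Nat.log 2 n + 2)) ^ (D * (5 * (12 * Nat.log 2 (n + n)))) := Nat.pow_le_pow_left h1 _
    _ = 2 ^ ((Nat.log 2 n + 2) * (D * (5 * (12 * Nat.log 2 (n + n))))) := by rw [← pow_mul]
    _ ≤ 2 ^ (360 * D * Nat.log 2 n ^ 2) := by
      refine Nat.pow_le_pow_right (by norm_num) ?_
      rw [hL]
      generalize Nat.log 2 n = l at *
      calc (l + 2) * (D * (5 * (12 * (l + 1)))) ≤ (3 * l) * (D * (5 * (12 * (2 * l)))) := by
            gcongr <;> omega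
        _ = 360 * D * l ^ 2 := by ring

theorem src_count {C : ℕ} (hW : IsoMostW C) (k : ℕ) : ∃ c n0 D : ℕ, 64 ≤ n0 ∧ ∀ (S : ℕ → Type) [Env S] [∀ n, Fintype (S n)], D ≤ dim S →
    ∀ n : ℕ, n0 ≤ n → ∃ m : ℕ, m.Prime ∧ (n + n) ^ k < m ∧ ∀ r0 < m, ∀ H : Fin (n + n) → Fin (n + n) → Prop, (∀ x y, H x y → H y x) → (∀ x, ¬ H x x) →
      (∃ f, MTC.IsPM H f) → ∀ G : SimpleGraph (Fin n),
        Nat.card {A : SimpleGraph (Fin n) // ∃ T : SimpleGraph (Fin (n + n)), (∃ f, MTC.IsPM T.Adj f) ∧ HH T.Adj (ω0 m r0) = H ∧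
          ¬ ∃ κ : Pq S (n + n), PMr (QLN.OutR (SP (n + n) (pair G A)) T κ)} ≤ 2 ^ (c * Nat.log 2 n ^ 2) := by
  classical
  obtain ⟨D, N0, hN0, hpar⟩ := params C k
  refine ⟨360 * D, N0, D, by omega, ?_⟩
  intro S _ _ hDS n hn
  obtain ⟨h12, m, q, K, M, hm, hq, hkm, hK, hM, hMp, hB, hmD, hqD, hKD, htD, hq20, hnum⟩ := hpar (n + n) (by omega)
  haveI : Fact q.Prime := ⟨hq⟩
  refine ⟨m, hm, hkm, ?_⟩
  intro r0 hr0 H hHs hHi hHM G
  have hle : (n + n) ^ D ≤ (n + n) ^ dim S := Nat.pow_le_pow_right (by omega) hDS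
  obtain ⟨g, hg⟩ := F2_gen q
  have hfin := F2_num (n := n) (D := D) (q := q) (by omega) hqD
  have hL1 : 1 ≤ Nat.log 2 (n + n) := Nat.log_pos (by norm_num) (by omega)
  have hcl : Nat.clog 2 (n + n) + 1 ≤ 4 * Nat.log 2 (n + n) := by
    have h1 : Nat.clog 2 (n + n) ≤ Nat.log 2 (n + n) + 1 :=
      Nat.clog_le_of_le_pow (Nat.lt_pow_succ_log_self (b := 2) (by norm_num) (n + n)).le
    omega
  have hbz := badz_count hW (N := n + n) (R := 4 * Nat.log 2 (n + n)) (D := 12 * Nat.log 2 (n + n)) (m := m) (q := q) (K := K) (r0 := r0)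
    (by omega) hcl (by ring) hm hK H hHs hHi hHM
  have hq0 : 0 < q := hq.pos
  have hBc : ∀ F : Finset (Fin (12 * Nat.log 2 (n + n)) → ZMod q), (∀ z, z ∈ F ↔ ¬ GoodZ (4 * Nat.log 2 (n + n)) K m r0 H z) →
      F.card * (n + n) ^ 14 ≤ q ^ (12 * Nat.log 2 (n + n)) := by
    intro F hF
    rw [Nat.subtype_card F hF] at hbz
    have h1 := Nat.mul_le_mul_right ((n + n) ^ 14) hbz
    refine Nat.le_of_mul_le_mul_right (c := q) ?_ hq0
    calc F.card * (n + n) ^ 14 * q = F.card * q * (n + n) ^ 14 := by ring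
      _ ≤ _ := h1
      _ = ((4 * Nat.log 2 (n + n) * (n + n) ^ C * (q / m + 1) + 2 * (4 * Nat.log 2 (n + n)) * ((n + n) * (n + n)) *
          (4 * Nat.log 2 (n + n) * (n + n) ^ C * (q / m + 1) + (n + n) * (4 * Nat.log 2 (n + n) * m))) * (n + n) ^ 14) * q ^ (12 * Nat.log 2 (n + n)) := by ring
      _ ≤ q * q ^ (12 * Nat.log 2 (n + n)) := Nat.mul_le_mul_right _ hnum
      _ = q ^ (12 * Nat.log 2 (n + n)) * q := by ring
  have hcx := card_excD (N := n + n) (q := q) (D := 12 * Nat.log 2 (n + n)) (by omega) (by omega) h12 hq20 g hg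
    (fun z => ¬ GoodZ (4 * Nat.log 2 (n + n)) K m r0 H z) (hBc _ (fun z => by simp))
  have key : ∀ F : Finset (SimpleGraph (Fin (n + n))), (∀ X : SimpleGraph (Fin (n + n)), (∀ y : ZMod q, ∀ t ≤ 2 * (12 * Nat.log 2 (n + n)),
      ¬ GoodZ (4 * Nat.log 2 (n + n)) K m r0 H (pt (12 * Nat.log 2 (n + n)) X g y t)) → X ∈ F) →
      Nat.card {A : SimpleGraph (Fin n) // ∃ T : SimpleGraph (Fin (n + n)), (∃ f, MTC.IsPM T.Adj f) ∧ HH T.Adj (ω0 m r0) = H ∧
        ¬ ∃ κ : Pq S (n + n), PMr (QLN.OutR (SP (n + n) (pair G A)) T κ)} ≤ F.card := by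
    intro F hF
    have hmem : ∀ A : SimpleGraph (Fin n), (∃ T : SimpleGraph (Fin (n + n)), (∃ f, MTC.IsPM T.Adj f) ∧ HH T.Adj (ω0 m r0) = H ∧
        ¬ ∃ κ : Pq S (n + n), PMr (QLN.OutR (SP (n + n) (pair G A)) T κ)) → SP (n + n) (pair G A) ∈ F := by
      rintro A ⟨T, hT, hTH, hno⟩
      refine hF _ fun y t ht hgood => hno ?_
      rw [← hTH] at hgood
      obtain ⟨κ, f, hf, hfo⟩ := out_of_point (S := S) (N := n + n) (m := m) (q := q) (K := K) (M := M) (r0 := r0) (by omega) h12 hm (by omega) (by omega) hK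
        (by omega) hr0 hM hMp (by omega) (SP (n + n) (pair G A)) T hT g y t (by omega) hgood
      exact ⟨κ, F2_pmr hf.1 hfo⟩
    rw [← Nat.card_eq_finsetCard]
    exact Nat.card_le_card_of_injective (fun A => ⟨SP (n + n) (pair G A.1), hmem A.1 A.2⟩) fun A A' h => Subtype.ext (sp_inj G G A.1 A'.1 (Subtype.ext_iff.1 h))
  refine le_trans (key _ fun X hX => ?_) (le_trans hcx.le hfin)
  simp only [Finset.mem_filter, Finset.mem_univ, true_and]
  exact hX

end QLN
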