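import Pool.Agent.Lib.MP_0087d5_lcQN.SDefs

/-!
# The tested graphs of a graph
-/

set_option autoImplicit false
set_option linter.all false

namespace QLN

open Finset Pool.Agent Pool.Agent.PMNC MTC LIN PRS QRB QSR

/-- the tested graphs of `G` on `n + n` vertices: `T1 … d` and `T2 … (d, v)` (they do not use the second graph of the pair) -/
def TK (n : ℕ) (j : Fin (n + n) ⊕ (Fin (n + n) × Fin (n + n))) (G : SimpleGraph (Fin n)) : SimpleGraph (Fin (n + n)) :=
  match j with
  | .inl d => T1 (n + n) (pair G ⊥) d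
  | .inr e => T2 (n + n) (pair G ⊥) e

/-- `G'` agrees with `G` on the pairs which are not inside `W` -/
def Off {n : ℕ} (W : Finset (Fin n)) (G G' : SimpleGraph (Fin n)) : Prop := ∀ u v, ¬ (u ∈ W ∧ v ∈ W) → (G'.Adj u v ↔ G.Adj u v)

end QLN
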