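import Pool.Agent.Lib.MP_0087d5_lcQN.SDefs
import Pool.Agent.Lib.MP_0087d5_lcMT.Y3
import Pool.Agent.Lib.MP_0087d5_lcQS.D1

/-!
# Leaf D1 (medium): the numbers and the entries are definable

`defZ_pL`: `DefZ.prod` over `j : Fin n` with `DefZ.ite (def_ltMul k …)` (Q1 in MP_0087d5_lcQB), `DefZ.one`. `defZ_zk`: as `defZ_zr` (MT/CA): `defZ_zf` (MT/CA) with `A n G b = SP n G` (`hA`: `def_SP` (MT/Y3) composed with the projection; `B` any environment, e.g. `B = E`, `b = id`), the exponent `2 * s` by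
`mul_self`-type rewriting as in `defZ_zs2`, the sum over `s < t` by `sum_cnd_nv`, `zf … ^ (i : ℕ)` by `DefZ.pow (H := fun n => Fin n)` with `nv_fin`.
`defZ_nr`: `DefP` for `(i : ℕ) = 0` (`DefP.nZero` with `nv_fin`), `defZ_rz` (QS/D1) with `m := κ.2.2.1`. `defZ_zY`, `defZ_ent`: copies of QS/D1 (`defZ_zY`, `defZ_ent`, by helper5), with `defZ_powr`, `defZ_nr`, `defZ_ns`, and the environment condition `nv κ.2.1 = 0 ∨ nv κ.2.2.1 = 0`.
-/

set_option autoImplicit false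
set_option linter.all false

namespace QLN

open Finset Pool.Agent Pool.Agent.PMNC MTC LIN PRS QRB QSR

/-- the hashing map of the source -/
private theorem D1_zf {E S : ℕ → Type} [Env E] [Env S] [∀ n, Fintype (S n)] {p : ∀ n : ℕ, E n → S n} (hp : Tm p)
    {φ : ∀ n : ℕ, SimpleGraph (Fin n) → Ctx n → E n → ℤ} (h : DefZ p φ) : DefZ p (fun n G X x => zf (SP n G) (φ n G X x)) :=
  defZ_zf (E := E) (S := S) (B := E) (A := fun n G _ => SP n G)
    (DefP.comp (E := fun n => E n × (Fin n × Fin n)) (F := fun n => Fin n × Fin n) (f := fun n y => y.2) def_SP (Tm.snd Tm.id))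
    (b := fun n x => x) Tm.id hp h

section
variable {E S : ℕ → Type} [Env E] [Env S] [∀ n, Fintype (S n)]

theorem defZ_pL (k : ℕ) {p : ∀ n : ℕ, E n → S n} (hp : Tm p) {φ : ∀ n : ℕ, SimpleGraph (Fin n) → Ctx n → E n → ℤ} (hφ : DefZ p φ) :
    DefZ p (fun n G X e => pL n k (φ n G X e)) := by
  have h : DefZ p (fun n G X e => ∏ j : Fin n, cnd ((j : ℕ) < k * Nat.log 2 n) (φ n G X e) 1) :=
    DefZ.prod (F := fun n => Fin n) hp (DefZ.ite (E := fun n => E n × Fin n)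
      (def_ltMul (E := fun n => E n × Fin n) k (Tm.snd Tm.id)) (DefZ.comp (E := fun n => E n × Fin n) hφ (Tm.fst Tm.id))
      (DefZ.one (hp.comp (Tm.fst Tm.id))))
  exact h

theorem defZ_zk (k : ℕ) {p : ∀ n : ℕ, E n → S n} (hp : Tm p) {κ : ∀ n : ℕ, E n → Pq S n} (hκ : Tm (F := fun n => Pq S n) κ)
    {i : ∀ n : ℕ, E n → Fin n} (hi : Tm (F := fun n => Fin n) i) : DefZ p (fun n G X e => zk k (SP n G) (κ n e) (i n e)) := by
  have hc : ∀ {f : ∀ n : ℕ, E n → S n}, Tm f → Tm (fun n (y : E n × S n) => f n y.1) := fun hf =>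
    hf.comp (Tm.fst Tm.id)
  have hg : Tm (fun n (e : E n) => (κ n e).2.2.2.1) := Tm.fst (F := S) (Tm.snd (F := S) (Tm.snd (F := S) (Tm.snd (F := S) hκ)))
  have hy : Tm (fun n (e : E n) => (κ n e).2.2.2.2.1) :=
    Tm.fst (F := S) (Tm.snd (F := S) (Tm.snd (F := S) (Tm.snd (F := S) (Tm.snd (F := S) hκ))))
  have ht : Tm (fun n (e : E n) => (κ n e).2.2.2.2.2.1) :=
    Tm.fst (F := S) (Tm.snd (F := S) (Tm.snd (F := S) (Tm.snd (F := S) (Tm.snd (F := S) (Tm.snd (F := S) hκ)))))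
  have hG := DefZ.nv' (H := S) hp hg
  have hY := DefZ.nv' (H := S) hp hy
  have h0 : DefZ p (fun n G X e => zf (SP n G) (pL n k (nv (κ n e).2.2.2.1) * ((nv (κ n e).2.2.2.1 : ℕ) : ℤ) ^ (nv (S := fun n => Fin n) (i n e)) *
      ((nv (κ n e).2.2.2.2.1 : ℕ) : ℤ))) :=
    D1_zf hp (DefZ.mul hp (DefZ.mul hp (defZ_pL k hp hG) (DefZ.pow (H := fun n => Fin n) hp hG hi)) hY)
  have hG1 : DefZ (E := fun n => E n × S n) (fun n y => p n y.1) (fun n G X y => ((nv (κ n y.1).2.2.2.1 : ℕ) : ℤ)) :=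
    DefZ.nv' (E := fun n => E n × S n) (H := S) (hc hp) (hc hg)
  have hY1 : DefZ (E := fun n => E n × S n) (fun n y => p n y.1) (fun n G X y => ((nv (κ n y.1).2.2.2.2.1 : ℕ) : ℤ)) :=
    DefZ.nv' (E := fun n => E n × S n) (H := S) (hc hp) (hc hy)
  have hpw : DefZ (E := fun n => E n × S n) (fun n y => p n y.1) (fun n G X y => ((nv (κ n y.1).2.2.2.1 : ℕ) : ℤ) ^ nv y.2) :=
    DefZ.pow (E := fun n => E n × S n) (H := S) (hc hp) hG1 (Tm.snd Tm.id)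
  have hP12 := defZ_pL (E := fun n => E n × S n) (S := S) 12 (hc hp) hG1
  have ha : DefZ (E := fun n => E n × S n) (fun n y => p n y.1) (fun n G X y => zf (SP n G) (pL n 12 ((nv (κ n y.1).2.2.2.1 : ℕ) : ℤ) *
      ((nv (κ n y.1).2.2.2.1 : ℕ) : ℤ) ^ (2 * nv y.2) * ((nv (κ n y.1).2.2.2.2.1 : ℕ) : ℤ))) := by
    refine (D1_zf (E := fun n => E n × S n) (S := S) (hc hp) (DefZ.mul (hc hp) (DefZ.mul (hc hp) hP12 (DefZ.mul (hc hp) hpw hpw)) hY1)).congr fun n G X y => ?_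
    rw [← pow_add, ← two_mul]
  have hb : DefZ (E := fun n => E n × S n) (fun n y => p n y.1) (fun n G X y => zf (SP n G) (pL n 12 ((nv (κ n y.1).2.2.2.1 : ℕ) : ℤ) *
      ((nv (κ n y.1).2.2.2.1 : ℕ) : ℤ) ^ (2 * nv y.2 + 1) * ((nv (κ n y.1).2.2.2.2.1 : ℕ) : ℤ))) := by
    refine (D1_zf (E := fun n => E n × S n) (S := S) (hc hp) (DefZ.mul (hc hp) (DefZ.mul (hc hp) hP12 (DefZ.mul (hc hp) (DefZ.mul (hc hp) hpw hpw) hG1)) hY1)).congr fun n G X y => ?_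
    rw [← pow_add, ← two_mul, ← pow_succ]
  have hs : DefZ p (fun n G X e => ∑ s : S n, cnd (nv s < nv (κ n e).2.2.2.2.2.1)
      (zf (SP n G) (pL n 12 ((nv (κ n e).2.2.2.1 : ℕ) : ℤ) * ((nv (κ n e).2.2.2.1 : ℕ) : ℤ) ^ (2 * nv s + 1) * ((nv (κ n e).2.2.2.2.1 : ℕ) : ℤ)) *
        (pL n k (zf (SP n G) (pL n 12 ((nv (κ n e).2.2.2.1 : ℕ) : ℤ) * ((nv (κ n e).2.2.2.1 : ℕ) : ℤ) ^ (2 * nv s) * ((nv (κ n e).2.2.2.2.1 : ℕ) : ℤ))) *
          zf (SP n G) (pL n 12 ((nv (κ n e).2.2.2.1 : ℕ) : ℤ) * ((nv (κ n e).2.2.2.1 : ℕ) : ℤ) ^ (2 * nv s) * ((nv (κ n e).2.2.2.2.1 : ℕ) : ℤ)) ^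
            nv (S := fun n => Fin n) (i n e))) 0) := by
    refine DefZ.sum (F := S) hp (DefZ.ite (E := fun n => E n × S n) (DefP.nLt (F := S) (H := S) (Tm.snd Tm.id) (hc ht))
      (DefZ.mul (hc hp) hb (DefZ.mul (hc hp) (defZ_pL (E := fun n => E n × S n) (S := S) k (hc hp) ha)
        (DefZ.pow (H := fun n => Fin n) (hc hp) ha (hi.comp (Tm.fst Tm.id)))))
      (DefZ.zero (hc hp)))
  refine (DefZ.add hp h0 hs).congr fun n G X e => ?_
  rw [sum_cnd_nv (κ n e).2.2.2.2.2.1 (fun s => zf (SP n G) (pL n 12 ((nv (κ n e).2.2.2.1 : ℕ) : ℤ) *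
    ((nv (κ n e).2.2.2.1 : ℕ) : ℤ) ^ (2 * s + 1) * ((nv (κ n e).2.2.2.2.1 : ℕ) : ℤ)) *
        (pL n k (zf (SP n G) (pL n 12 ((nv (κ n e).2.2.2.1 : ℕ) : ℤ) * ((nv (κ n e).2.2.2.1 : ℕ) : ℤ) ^ (2 * s) * ((nv (κ n e).2.2.2.2.1 : ℕ) : ℤ))) *
          zf (SP n G) (pL n 12 ((nv (κ n e).2.2.2.1 : ℕ) : ℤ) * ((nv (κ n e).2.2.2.1 : ℕ) : ℤ) ^ (2 * s) * ((nv (κ n e).2.2.2.2.1 : ℕ) : ℤ)) ^
            nv (S := fun n => Fin n) (i n e))), nv_fin]
  rfl

theorem defZ_nr {p : ∀ n : ℕ, E n → S n} (hp : Tm p) {κ : ∀ n : ℕ, E n → Pq S n} (hκ : Tm (F := fun n => Pq S n) κ)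
    {i : ∀ n : ℕ, E n → Fin n} (hi : Tm (F := fun n => Fin n) i) :
    DefZ p (fun n G X e => cnd (nv (κ n e).2.2.1 = 0) 0 (nr (SP n G) (κ n e) (i n e))) := by
  have hm : Tm (fun n (e : E n) => (κ n e).2.2.1) := Tm.fst (F := S) (Tm.snd (F := S) (Tm.snd (F := S) hκ))
  have hr : Tm (fun n (e : E n) => (κ n e).2.2.2.2.2.2) :=
    Tm.snd (F := S) (Tm.snd (F := S) (Tm.snd (F := S) (Tm.snd (F := S) (Tm.snd (F := S) (Tm.snd (F := S) hκ)))))
  have h1 := defZ_rz hp hm (defZ_zk (S := S) 0 hm hκ hi)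
  refine (DefZ.ite (DefP.nZero hm) (DefZ.zero hp) (DefZ.ite (DefP.nZero (F := fun n => Fin n) hi) (DefZ.nv' (H := S) hp hr) h1)).congr fun n G X e => ?_
  by_cases h0 : nv (κ n e).2.2.1 = 0
  · rw [cnd_pos h0, cnd_pos h0]
  · rw [cnd_neg h0, cnd_neg h0, cnd_neg h0, nv_fin]
    rfl

/-- the power `ρ ^ eid x y` -/
private theorem D1_eid {m : ∀ n : ℕ, E n → S n} (hm : Tm m) {ρ : ∀ n : ℕ, SimpleGraph (Fin n) → Ctx n → E n → ℤ} (hr : DefZ m ρ)
    {u v : ∀ n : ℕ, E n → Fin n} (hu : Tm (F := fun n => Fin n) u) (hv : Tm (F := fun n => Fin n) v) :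
    DefZ m (fun n G X e => ρ n G X e ^ eid (u n e) (v n e)) := by
  refine (DefZ.ite (DefP.lt hu hv)
    (DefZ.pow (H := fun n => Fin n × Fin n) hm hr
      (Tm.pair (F := fun n => Fin n) (H := fun n => Fin n) hu hv))
    (DefZ.pow (H := fun n => Fin n × Fin n) hm hr
      (Tm.pair (F := fun n => Fin n) (H := fun n => Fin n) hv hu))).congr fun n G X y => ?_
  unfold eid
  by_cases h : u n y < v n y
  · rw [cnd_pos h, if_pos h]
  · rw [cnd_neg h, if_neg h]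

theorem defZ_zY {p : ∀ n : ℕ, E n → S n} (hp : Tm p) {κ : ∀ n : ℕ, E n → Pq S n} (hκ : Tm (F := fun n => Pq S n) κ)
    {x y : ∀ n : ℕ, E n → Fin n} (hx : Tm (F := fun n => Fin n) x) (hy : Tm (F := fun n => Fin n) y) :
    DefZ p (fun n G X e => cnd (nv (κ n e).2.1 = 0 ∨ nv (κ n e).2.2.1 = 0) 0 (zY (SP n G) (κ n e) (x n e) (y n e))) := by
  have hq : Tm (fun n (e : E n) => (κ n e).2.2.1) := Tm.fst (F := S) (Tm.snd (F := S) (Tm.snd (F := S) hκ))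
  have hm : Tm (fun n (e : E n) => (κ n e).2.1) := Tm.fst (F := S) (Tm.snd (F := S) hκ)
  have hp1 : Tm (fun n (y : E n × Fin n) => p n y.1) := hp.comp (Tm.fst Tm.id)
  have hm1 : Tm (fun n (y : E n × Fin n) => (κ n y.1).2.1) := hm.comp (Tm.fst Tm.id)
  have hq1 : Tm (fun n (y : E n × Fin n) => (κ n y.1).2.2.1) := hq.comp (Tm.fst Tm.id)
  have hκ1 : Tm (F := fun n => Pq S n) (fun n (y : E n × Fin n) => κ n y.1) := hκ.comp (Tm.fst Tm.id)
  have hx1 : Tm (F := fun n => Fin n) (fun n (z : E n × Fin n) => x n z.1) := hx.comp (Tm.fst Tm.id)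
  have hy1 : Tm (F := fun n => Fin n) (fun n (z : E n × Fin n) => y n z.1) := hy.comp (Tm.fst Tm.id)
  have hi1 : Tm (F := fun n => Fin n) (fun n (y : E n × Fin n) => y.2) := Tm.snd Tm.id
  have hz := defZ_zk (E := fun n => E n × Fin n) (S := S) 8 hp1 hκ1 hi1
  have hn := defZ_rz (E := fun n => E n × Fin n) (S := S) hm1 hq1 (defZ_zk (E := fun n => E n × Fin n) (S := S) 4 hq1 hκ1 hi1)
  have hre := D1_eid (E := fun n => E n × Fin n) (S := S) hm1 hn hx1 hy1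
  have hpw := defZ_powr (E := fun n => E n × Fin n) hp1 hm1 hre hz
  have hP : DefZ p (fun n G X e => ∏ j : Fin n, cnd ((j : ℕ) < 4 * Nat.log 2 n)
      (cnd (nv (κ n e).2.1 = 0) 0 (zk 8 (SP n G) (κ n e) j ^ rz (nv (κ n e).2.1)
        (cnd (nv (κ n e).2.2.1 = 0) 0 ((rz (nv (κ n e).2.2.1) (zk 4 (SP n G) (κ n e) j) : ℕ) : ℤ) ^ eid (x n e) (y n e)))) 1) :=
    DefZ.prod (F := fun n => Fin n) hp (DefZ.ite (E := fun n => E n × Fin n)
      (def_ltMul (E := fun n => E n × Fin n) 4 hi1) hpw (DefZ.one hp1))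
  refine (DefZ.ite (DefP.or (DefP.nZero hm) (DefP.nZero hq)) (DefZ.zero hp) hP).congr fun n G X e => ?_
  by_cases h0 : nv (κ n e).2.1 = 0 ∨ nv (κ n e).2.2.1 = 0
  · rw [cnd_pos h0, cnd_pos h0]
  · rw [cnd_neg h0, cnd_neg h0]
    rw [not_or] at h0
    unfold zY
    refine Finset.prod_congr rfl fun j _ => ?_
    rw [cnd_neg h0.1, cnd_neg h0.2]
    rfl

theorem defZ_ent {P : ∀ n : ℕ, SimpleGraph (Fin n) → Ctx n → E n → Fin n → Fin n → S n → Prop}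
    (hP : DefP (E := fun n => E n × (Fin n × (Fin n × S n))) (fun n G X y => P n G X y.1 y.2.1 y.2.2.1 y.2.2.2))
    {p t : ∀ n : ℕ, E n → S n} (hp : Tm p) (ht : Tm t) {κ : ∀ n : ℕ, E n → Pq S n} (hκ : Tm (F := fun n => Pq S n) κ)
    {i v w x y : ∀ n : ℕ, E n → Fin n} (hi : Tm (F := fun n => Fin n) i)
    (hv : Tm (F := fun n => Fin n) v) (hw : Tm (F := fun n => Fin n) w) (hx : Tm (F := fun n => Fin n) x) (hy : Tm (F := fun n => Fin n) y) :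
    DefZ p (fun n G X e => cnd (nv (κ n e).2.1 = 0 ∨ nv (κ n e).2.2.1 = 0) 0
      (ent (SP n G) (κ n e) (i n e) (P n G X e) (v n e) (w n e) ((nv (t n e) : ℕ) : ℤ) (x n e) (y n e))) := by
  have hq : Tm (fun n (e : E n) => (κ n e).2.2.1) := Tm.fst (F := S) (Tm.snd (F := S) (Tm.snd (F := S) hκ))
  have hm : Tm (fun n (e : E n) => (κ n e).2.1) := Tm.fst (F := S) (Tm.snd (F := S) hκ)
  have hK : Tm (fun n (e : E n) => (κ n e).1) := Tm.fst (F := S) hκ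
  have hp1 : Tm (fun n (y : E n × S n) => p n y.1) := hp.comp (Tm.fst Tm.id)
  have ht1 : Tm (fun n (y : E n × S n) => t n y.1) := ht.comp (Tm.fst Tm.id)
  have hK1 : Tm (fun n (y : E n × S n) => (κ n y.1).1) := hK.comp (Tm.fst Tm.id)
  have hx1 : Tm (F := fun n => Fin n) (fun n (z : E n × S n) => x n z.1) := hx.comp (Tm.fst Tm.id)
  have hy1 : Tm (F := fun n => Fin n) (fun n (z : E n × S n) => y n z.1) := hy.comp (Tm.fst Tm.id)
  have hY := defZ_zY (S := S) hp hκ hx hy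
  have htp : DefZ p (fun n G X e => ((nv (t n e) : ℕ) : ℤ)) := DefZ.nv' (H := S) hp ht
  have hpw := defZ_powr hp hm (D1_eid (S := S) hm (defZ_nr (S := S) hm hκ hi) hx hy) htp
  have hPc : DefP (E := fun n => E n × S n) (fun n G X z => P n G X z.1 (x n z.1) (y n z.1) z.2) :=
    DefP.comp (F := fun n => E n × (Fin n × (Fin n × S n)))
      (f := fun n (z : E n × S n) => (z.1, (x n z.1, (y n z.1, z.2)))) hP
      (Tm.pair (Tm.fst Tm.id) (Tm.pair (F := fun n => Fin n) (H := fun n => Fin n × S n) hx1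
        (Tm.pair (F := fun n => Fin n) (H := S) hy1 (Tm.snd Tm.id))))
  have hS : DefZ p (fun n G X e => ∑ z : S n, cnd (P n G X e (x n e) (y n e) z)
      ((((nv (t n e) : ℕ) : ℤ) ^ nv (κ n e).1) ^ nv z) 0) := by
    refine DefZ.sum (F := S) hp (DefZ.ite (E := fun n => E n × S n) hPc ?_ (DefZ.zero hp1))
    exact DefZ.pow (E := fun n => E n × S n) (H := S) hp1
      (DefZ.pow (E := fun n => E n × S n) (H := S) hp1
        (DefZ.nv' (E := fun n => E n × S n) (H := S) hp1 ht1) hK1) (Tm.snd Tm.id)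
  have hc0 : DefZ p (fun n G X e => cnd (x n e < y n e) 1 (-1)) :=
    DefZ.ite (DefP.lt hx hy) (DefZ.one hp) (DefZ.neg hp (DefZ.one hp))
  have hnvw : DefP (fun n G X e => ¬ v n e = w n e) := DefP.not (DefP.eqFin hv hw)
  have hc1 : DefP (fun n G X e => ¬ v n e = w n e ∧ ((x n e = v n e ∧ y n e = w n e) ∨ (x n e = w n e ∧ y n e = v n e))) :=
    DefP.and hnvw (DefP.or (DefP.and (DefP.eqFin hx hv) (DefP.eqFin hy hw)) (DefP.and (DefP.eqFin hx hw) (DefP.eqFin hy hv)))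
  have hc2 : DefP (fun n G X e => ¬ v n e = w n e ∧ (x n e = v n e ∨ x n e = w n e ∨ y n e = v n e ∨ y n e = w n e)) :=
    DefP.and hnvw (DefP.or (DefP.eqFin hx hv) (DefP.or (DefP.eqFin hx hw) (DefP.or (DefP.eqFin hy hv) (DefP.eqFin hy hw))))
  refine (DefZ.ite (DefP.or (DefP.nZero hm) (DefP.nZero hq)) (DefZ.zero hp) (DefZ.mul hp (DefZ.mul hp hc0 hY)
    (DefZ.ite hc1 (DefZ.one hp) (DefZ.ite hc2 (DefZ.zero hp) (DefZ.mul hp hS hpw))))).congr fun n G X e => ?_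
  by_cases h0 : nv (κ n e).2.1 = 0 ∨ nv (κ n e).2.2.1 = 0
  · rw [cnd_pos h0, cnd_pos h0]
  · rw [cnd_neg h0, cnd_neg h0, cnd_neg h0]
    rw [not_or] at h0
    rw [cnd_neg h0.1, cnd_neg h0.2]
    unfold ent
    rfl

end

end QLN
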