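import Pool.Agent.Lib.MP_0087d5_lcQN.D3
import Pool.Agent.Lib.MP_0087d5_lcQS.D4

/-!
# Leaf D4 (easy+): the output for a tested graph is definable

Proof: copy of leaf D4 of MP_0087d5_lcQS (`def_OutR`, by helper39), with `def_StC` (leaf D3), `DefP.iterPow'` with `4 0` in place of `2 0`, and `def_ltMul 4`.
-/

set_option autoImplicit false
set_option linter.all false

namespace QLN

open Finset Pool.Agent Pool.Agent.PMNC MTC LIN PRS QRB QSR

private theorem D4_zero {E : ℕ → Type} [Env E] {f : ∀ n : ℕ, E n → Fin n} (hf : Tm (F := fun n => Fin n) f) :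
    DefP (fun n G X x => ((f n x : Fin n) : ℕ) = 0) := by
  refine DefP.congr (P := fun n G X x => nv (S := fun n => Fin n) (f n x) = 0) ?_ (fun n G X x => by simp only [nv_fin])
  exact DefP.nZero (F := fun n => Fin n) hf

private theorem D4_succ {E : ℕ → Type} [Env E] {f g : ∀ n : ℕ, E n → Fin n} (hf : Tm (F := fun n => Fin n) f)
    (hg : Tm (F := fun n => Fin n) g) :
    DefP (fun n G X x => ((f n x : Fin n) : ℕ) + 1 = ((g n x : Fin n) : ℕ)) := by
  refine DefP.congr (P := fun n G X x => nv (S := fun n => Fin n) (g n x) =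
    nv (S := fun n => Fin n) (f n x) + 1) ?_ (fun n G X x => by simp only [nv_fin]; exact eq_comm)
  exact DefP.nSucc (F := fun n => Fin n) (H := fun n => Fin n) hf hg

private theorem D4_op {S B : ℕ → Type} [Env S] [Env B] [∀ n, Fintype (S n)] {T : ∀ n : ℕ, SimpleGraph (Fin n) → B n → SimpleGraph (Fin n)}
    (hT : DefP (E := fun n => B n × (Fin n × Fin n)) (fun n G X y => (T n G y.1).Adj y.2.1 y.2.2)) :
    DefP (E := fun n => (B n × Pq S n) × (Fin n × (Fin n × (Fin n × S n))))
      (fun n G X y => QLN.opC (SP n G) (T n G y.1.1) y.1.2 (fun s => rv (S := fun n => Fin n × (Fin n × (Fin n × S n))) X 0 s) y.2) := by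
  unfold QLN.opC
  refine DefP.or (DefP.and (D4_zero ?_) (DefP.and ?_ (DefP.nZero (F := S) ?_))) (DefP.exFin (DefP.and (D4_succ ?_ ?_) ?_))
  · exact Tm.fst (F := fun n => Fin n) (H := fun n => Fin n × (Fin n × S n))
      (Tm.snd (F := fun n => B n × Pq S n) (H := fun n => Fin n × (Fin n × (Fin n × S n))) Tm.id)
  · refine DefP.comp (F := fun n => B n × (Fin n × Fin n)) hT (f := fun n (y : (B n × Pq S n) × (Fin n × (Fin n × (Fin n × S n)))) => (y.1.1, (y.2.2.1, y.2.2.2.1))) ?_
    repeat' (first | exact Tm.id | apply Tm.fst | apply Tm.snd | apply Tm.pair)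
  · repeat' (first | exact Tm.id | apply Tm.fst | apply Tm.snd | apply Tm.pair)
  · repeat' (first | exact Tm.id | apply Tm.fst | apply Tm.snd | apply Tm.pair)
  · repeat' (first | exact Tm.id | apply Tm.fst | apply Tm.snd | apply Tm.pair)
  · refine QLN.def_StC (E := fun n => ((B n × Pq S n) × (Fin n × (Fin n × (Fin n × S n)))) × Fin n) (S := S)
      (P := fun n G X e x y z => rv (S := fun n => Fin n × (Fin n × (Fin n × S n))) X 0 (e.2, (x, (y, z)))) ?_ ?_ ?_ ?_ ?_ ?_
    · refine DefP.rv (S := fun n => Fin n × (Fin n × (Fin n × S n))) 0 ?_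
      repeat' (first | exact Tm.id | apply Tm.fst | apply Tm.snd | apply Tm.pair)
    all_goals repeat' (first | exact Tm.id | apply Tm.fst | apply Tm.snd | apply Tm.pair)

theorem def_OutR {S B : ℕ → Type} [Env S] [Env B] [∀ n, Fintype (S n)] {T : ∀ n : ℕ, SimpleGraph (Fin n) → B n → SimpleGraph (Fin n)}
    (hT : DefP (E := fun n => B n × (Fin n × Fin n)) (fun n G X y => (T n G y.1).Adj y.2.1 y.2.2)) :
    DefP (E := fun n => (B n × Pq S n) × (Fin n × Fin n)) (fun n G X y => QLN.OutR (SP n G) (T n G y.1.1) y.1.2 y.2.1 y.2.2) := by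
  have it := DefP.iterPow' (E := fun n => B n × Pq S n) (S := fun n => Fin n × (Fin n × (Fin n × S n))) 4 0
    (I := fun n G X x s => False) (Φ := fun n G e => QLN.opC (SP n G) (T n G e.1) e.2) (DefP.const False) (D4_op hT)
  refine DefP.congr (P := fun n G X y => (T n G y.1.1).Adj y.2.1 y.2.2 ∧ ∃ (i : Fin n) (z : S n),
    ((¬ (i : ℕ) < 4 * Nat.log 2 n) ∧ ∀ j : Fin n, j < i → (j : ℕ) < 4 * Nat.log 2 n) ∧
      ((QLN.opC (SP n G) (T n G y.1.1) y.1.2)^[(4 * Nat.size n) ^ (0 + 1)] fun _ => False) (i, (y.2.1, (y.2.2, z)))) ?_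
    (fun n G X y => by
      show _ ↔ _ ∧ _
      rw [zero_add, pow_one])
  refine DefP.and ?_ (DefP.exFin (DefP.ex (F := S) (DefP.and (DefP.and (DefP.not (def_ltMul 4 ?_)) (DefP.allFin (DefP.imp (DefP.lt ?_ ?_)
    (def_ltMul 4 ?_)))) ?_)))
  · refine DefP.comp (F := fun n => B n × (Fin n × Fin n)) hT (f := fun n (y : (B n × Pq S n) × (Fin n × Fin n)) => (y.1.1, (y.2.1, y.2.2))) ?_
    repeat' (first | exact Tm.id | apply Tm.fst | apply Tm.snd | apply Tm.pair)
  · repeat' (first | exact Tm.id | apply Tm.fst | apply Tm.snd | apply Tm.pair)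
  · repeat' (first | exact Tm.id | apply Tm.fst | apply Tm.snd | apply Tm.pair)
  · repeat' (first | exact Tm.id | apply Tm.fst | apply Tm.snd | apply Tm.pair)
  · repeat' (first | exact Tm.id | apply Tm.fst | apply Tm.snd | apply Tm.pair)
  · refine DefP.comp (F := fun n => (B n × Pq S n) × (Fin n × (Fin n × (Fin n × S n)))) it
      (f := fun n (y : (((B n × Pq S n) × (Fin n × Fin n)) × Fin n) × S n) => (y.1.1.1, (y.1.2, (y.1.1.2.1, (y.1.1.2.2, y.2))))) ?_
    repeat' (first | exact Tm.id | apply Tm.fst | apply Tm.snd | apply Tm.pair)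

end QLN
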