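import Pool.Agent.Lib.MP_0087d5_lcQN.SDefs
import Pool.Agent.Lib.MP_0087d5_lcQS.F1

/-!
# Leaf F1 (easy+): correctness of the outputs

Proof: copy of leaf F1 of MP_0087d5_lcQS (`mq_matching`, `mq_main`, by helper85) with `OutR (SP (n + n) (pair G A)) … κ`.
-/

set_option autoImplicit false
set_option linter.all false

namespace QLN

open Finset Pool.Agent Pool.Agent.PMNC MTC LIN PRS QRB QSR

private theorem F1_lo {n : ℕ} (a : Fin n) : lo (Fin.castAdd n a : Fin (n + n)) := by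
  have := a.2
  simp only [lo, Fin.val_castAdd]
  omega

private theorem F1_hi {n : ℕ} (a : Fin n) : ¬ lo (Fin.natAdd n a : Fin (n + n)) := by
  simp only [lo, Fin.val_natAdd]
  omega

private theorem F1_ll {n : ℕ} (G A : SimpleGraph (Fin n)) (a b : Fin n) :
    (pair G A).Adj (Fin.castAdd n a) (Fin.castAdd n b) ↔ G.Adj a b := by
  change (G ⊕g A).Adj (finSumFinEquiv.symm (Fin.castAdd n a)) (finSumFinEquiv.symm (Fin.castAdd n b)) ↔ _
  rw [finSumFinEquiv_symm_apply_castAdd, finSumFinEquiv_symm_apply_castAdd]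
  rfl

private theorem F1_uniq {S : ℕ → Type} [Env S] [∀ n, Fintype (S n)] {N : ℕ} {X : SimpleGraph (Fin N)}
    {e e' : Fin N × Pq S N} (h : QLN.LsQ S X e) (h' : QLN.LsQ S X e') : e = e' := by
  have h1 := h.2 e' h'.1
  have h2 := h'.2 e h.1
  have e1 : e.1 = e'.1 := by
    rcases h1 with h1 | h1
    · rcases h2 with h2 | h2
      · exact absurd h1 (lt_asymm h2)
      · exact h2.1.symm
    · exact h1.1
  have e2 : nv (S := fun n => Pq S n) e.2 = nv (S := fun n => Pq S n) e'.2 := by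
    rcases h1 with h1 | h1
    · exact absurd e1 (ne_of_lt h1)
    · rcases h2 with h2 | h2
      · exact absurd e1.symm (ne_of_lt h2)
      · exact le_antisymm h1.2 h2.2
  exact Prod.ext e1 (nv_injective (S := fun n => Pq S n) e2)

section
variable {S : ℕ → Type} [Env S] [∀ n, Fintype (S n)] {n : ℕ}

theorem mq_matching (G A : SimpleGraph (Fin n)) :
    (∀ u v, QLN.MQ S (pair G A) (Fin.castAdd n u) (Fin.castAdd n v) → G.Adj u v) ∧
    (∀ u v, QLN.MQ S (pair G A) (Fin.castAdd n u) (Fin.castAdd n v) → QLN.MQ S (pair G A) (Fin.castAdd n v) (Fin.castAdd n u)) ∧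
    ∀ u v w, QLN.MQ S (pair G A) (Fin.castAdd n u) (Fin.castAdd n v) → QLN.MQ S (pair G A) (Fin.castAdd n u) (Fin.castAdd n w) → v = w := by
  refine ⟨?_, ?_, ?_⟩
  · rintro u v ⟨-, -, e, -, he⟩
    have h1 := he.1
    obtain ⟨-, h2 | h2 | h2 | h2⟩ := h1
    · exact (F1_ll G A u v).1 h2.2.2
    · exact absurd (F1_lo u) h2.1
    · exact absurd (F1_lo v) h2.2.1
    · exact absurd (F1_lo u) h2.1
  · rintro u v ⟨h1, h2, e, hL, he⟩
    exact ⟨h2, h1, e, hL, hL.1.2.2 _ _ he⟩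
  · rintro u v w ⟨-, -, e, hL, he⟩ ⟨-, -, e', hL', he'⟩
    have h1 := F1_uniq hL hL'
    subst h1
    exact Fin.castAdd_injective n n (hL.1.2.1 _ _ _ he he')

theorem mq_main (hn : 1 ≤ n) (G A : SimpleGraph (Fin n))
    (h1 : ∀ d, HasPM (T1 (n + n) (pair G A) d) → ∃ κ : Pq S (n + n), PMr (QLN.OutR (SP (n + n) (pair G A)) (T1 (n + n) (pair G A) d) κ))
    (h2 : ∀ d v, HasPM (T2 (n + n) (pair G A) (d, v)) → ∃ κ : Pq S (n + n), PMr (QLN.OutR (SP (n + n) (pair G A)) (T2 (n + n) (pair G A) (d, v)) κ)) :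
    Nat.card {v // ZER.oddRep G (fun w => QLN.UQ S (pair G A) (Fin.castAdd n w)) v} =
      Nat.card {w : Fin n // QLN.UQ S (pair G A) (Fin.castAdd n w)} +
      Nat.card {v : Fin n // ∀ w : Fin n, ¬ QLN.MQ S (pair G A) (Fin.castAdd n v) (Fin.castAdd n w)} := by
  classical
  -- the least deficiency
  have hex : ∃ d, ∃ f, ZER.Mt G f ∧ ZER.mis f = d := by
    refine ⟨_, id, ⟨fun x => rfl, fun x hx => absurd rfl hx⟩, rfl⟩
  obtain ⟨d₀, ⟨f0, hf0, hm0⟩, hmin⟩ : ∃ d, (∃ f, ZER.Mt G f ∧ ZER.mis f = d) ∧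
      ∀ f, ZER.Mt G f → d ≤ ZER.mis f :=
    ⟨Nat.find hex, Nat.find_spec hex, fun f hf => Nat.find_min' hex ⟨f, hf, rfl⟩⟩
  have hd : d₀ < n + n := by
    have h1 : ZER.mis f0 ≤ n := by
      unfold ZER.mis
      rw [Nat.card_eq_fintype_card]
      exact (Fintype.card_subtype_le _).trans_eq (Fintype.card_fin n)
    omega
  obtain ⟨dF, hdF⟩ : ∃ dF : Fin (n + n), (dF : ℕ) = d₀ := ⟨⟨d₀, hd⟩, rfl⟩
  -- a perfect matching read off is one
  have hB : ∀ (T : SimpleGraph (Fin (n + n))) (q : Pq S (n + n)),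
      PMr (QLN.OutR (SP (n + n) (pair G A)) T q) →
      ∃ f : Fin (n + n) → Fin (n + n), MTC.IsPM T.Adj f ∧
        ∀ u v, QLN.OutR (SP (n + n) (pair G A)) T q u v ↔ f u = v := by
    intro T q h
    choose f hf using h.1
    have hfv : ∀ u v, QLN.OutR (SP (n + n) (pair G A)) T q u v ↔ f u = v := by
      intro u v
      constructor
      · intro h1
        exact h.2.1 u _ _ (hf u) h1
      · intro h1
        rw [← h1]
        exact hf u
    refine ⟨f, ⟨fun v => ?_, fun v => (hf v).1⟩, hfv⟩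
    exact (hfv _ _).1 (h.2.2 _ _ (hf v))
  have hge : ∀ (d : Fin (n + n)) (q : Pq S (n + n)),
      PMr (QLN.OutR (SP (n + n) (pair G A)) (T1 (n + n) (pair G A) d) q) → dF ≤ d := by
    intro d q h
    obtain ⟨f, hf, -⟩ := hB _ q h
    obtain ⟨f', hf', hm'⟩ := (t1_char G A d).1 (hasPM_iff.2 ⟨f, hf.1, hf.2⟩)
    have h1 := (hmin f' hf').trans hm'
    rw [← hdF] at h1
    exact h1
  -- there are least parameters
  obtain ⟨q, hq, hqmin⟩ : ∃ q : Pq S (n + n),
      PMr (QLN.OutR (SP (n + n) (pair G A)) (T1 (n + n) (pair G A) dF) q) ∧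
      ∀ q' : Pq S (n + n), PMr (QLN.OutR (SP (n + n) (pair G A)) (T1 (n + n) (pair G A) dF) q') →
        nv (S := fun n => Pq S n) q ≤ nv (S := fun n => Pq S n) q' := by
    have hpm : HasPM (T1 (n + n) (pair G A) dF) :=
      (t1_char G A dF).2 ⟨f0, hf0, by rw [hm0, hdF]⟩
    obtain ⟨q1, hq1⟩ := h1 dF hpm
    have hex2 : ∃ m, ∃ q : Pq S (n + n),
        PMr (QLN.OutR (SP (n + n) (pair G A)) (T1 (n + n) (pair G A) dF) q) ∧ nv (S := fun n => Pq S n) q = m :=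
      ⟨_, q1, hq1, rfl⟩
    obtain ⟨q, hq, hqv⟩ := Nat.find_spec hex2
    refine ⟨q, hq, fun q' hq' => ?_⟩
    rw [hqv]
    exact Nat.find_min' hex2 ⟨q', hq', rfl⟩
  have hL : QLN.LsQ S (pair G A) (dF, q) := by
    refine ⟨hq, fun e' he' => ?_⟩
    rcases lt_or_eq_of_le (hge _ _ he') with h3 | h3
    · exact Or.inl h3
    · refine Or.inr ⟨h3, hqmin _ ?_⟩
      obtain ⟨d', q'⟩ := e'
      simp only at h3
      subst h3
      exact he'
  obtain ⟨f, hf, hfe⟩ := hB _ q hq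
  obtain ⟨g, hg, hgm, hgf⟩ := t1_restrict G A dF f hf
  have hgm0 : ZER.mis g = d₀ := le_antisymm (hgm.trans_eq hdF) (hmin g hg)
  have hMR : ∀ u v : Fin n, QLN.MQ S (pair G A) (Fin.castAdd n u) (Fin.castAdd n v) ↔
      (g u = v ∧ u ≠ v) := by
    intro u v
    rw [← hgf, ← hfe]
    constructor
    · rintro ⟨-, -, e, he, h3⟩
      have h4 := F1_uniq he hL
      rw [h4] at h3
      exact h3
    · intro h3
      exact ⟨F1_lo u, F1_lo v, (dF, q), hL, h3⟩
  have hDR : ∀ v : Fin n, QLN.GQ S (pair G A) (Fin.castAdd n v) ↔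
      ∃ f, ZER.Mt G f ∧ ZER.mis f = d₀ ∧ f v = v := by
    intro v
    constructor
    · rintro ⟨-, e, he, q', hb⟩
      have h4 := F1_uniq he hL
      rw [h4] at hb
      obtain ⟨f'', hf'', -⟩ := hB _ q' hb
      obtain ⟨f', h5, h6, h7⟩ := (t2_char G A dF v).1 (hasPM_iff.2 ⟨f'', hf''.1, hf''.2⟩)
      exact ⟨f', h5, le_antisymm (h6.trans_eq hdF) (hmin f' h5), h7⟩
    · rintro ⟨f', h3, h4, h5⟩
      have hpm : HasPM (T2 (n + n) (pair G A) (dF, Fin.castAdd n v)) :=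
        (t2_char G A dF v).2 ⟨f', h3, by rw [h4, hdF], h5⟩
      exact ⟨F1_lo v, (dF, q), hL, h2 _ _ hpm⟩
  have hUR : (fun w : Fin n => QLN.UQ S (pair G A) (Fin.castAdd n w)) =
      ZER.NA G (fun v => ∃ f, ZER.Mt G f ∧ ZER.mis f = d₀ ∧ f v = v) := by
    funext w
    refine propext ⟨?_, ?_⟩
    · rintro ⟨-, h1, u, h2, h3⟩
      refine ⟨fun h4 => h1 ((hDR w).2 h4), ?_⟩
      revert h2 h3
      refine Fin.addCases (fun u' => ?_) (fun u' => ?_) u
      · intro h2 h3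
        exact ⟨u', (hDR u').1 h2, (F1_ll G A w u').1 h3⟩
      · intro h2 _
        exact absurd h2.1 (F1_hi u')
    · rintro ⟨h1, u, h2, h3⟩
      exact ⟨F1_lo w, fun h4 => h1 ((hDR w).1 h4), Fin.castAdd n u, (hDR u).2 h2,
        (F1_ll G A w u).2 h3⟩
  have hcard : Nat.card {v : Fin n // ∀ w : Fin n,
      ¬ QLN.MQ S (pair G A) (Fin.castAdd n v) (Fin.castAdd n w)} = d₀ := by
    rw [← hgm0]
    unfold ZER.mis
    have h1 : (fun v : Fin n => ∀ w : Fin n,
        ¬ QLN.MQ S (pair G A) (Fin.castAdd n v) (Fin.castAdd n w)) = fun v => g v = v := by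
      funext v
      refine propext ⟨fun h => ?_, fun h w h2 => ?_⟩
      · by_contra h2
        exact h (g v) ((hMR _ _).2 ⟨rfl, fun h3 => h2 h3.symm⟩)
      · have h3 := (hMR _ _).1 h2
        exact h3.2 (h.symm.trans h3.1)
    exact congrArg (fun P : Fin n → Prop => Nat.card {v // P v}) h1
  have hmain := ZER.ge_all G d₀ ⟨f0, hf0, hm0⟩ hmin
  rw [hcard]
  have e1 : Nat.card {w : Fin n // QLN.UQ S (pair G A) (Fin.castAdd n w)} =
      Nat.card {v // ZER.NA G (fun v => ∃ f, ZER.Mt G f ∧ ZER.mis f = d₀ ∧ f v = v) v} :=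
    congrArg (fun P : Fin n → Prop => Nat.card {v // P v}) hUR
  rw [e1, hUR]
  exact hmain

end

end QLN
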