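import Pool.Agent.Lib.MP_0087d5_lcQN.C1
import Pool.Agent.Lib.MP_0087d5_lcQN.K2

/-!
# Leaf C2 (medium+): few bad points for a fixed graph

Proof. Write `z = (ρ, y)`, `ρ j = z j` (`j < R`), `y j = (z (R + j), z (2 R + j))` (an equivalence of `Fin D → ZMod q` with `(Fin R → ZMod q) × (Fin R → ZMod q × ZMod q)`; `YZ R m z` depends on `y` only, `rZ r0 z i` for `i < R` on `ρ` only; `Sq … i` and `WS … i` depend only on the `r j`, `j < i`).
(1) The isolation: `hW` with `A = H`, `ω = UU K m eid r0 0 = r0 ^ e % m` (symmetric), and the sets `B`: for all `ρ` with `(ρ (j + 1)).val % m ∉ B j (fun l => (ρ (l + 1)).val % m)` for all `j < s = clog 2 N` (`s + 1 ≤ R`) the weights `K ^ s * ω + WS eid K m r' s`, `r' l = rZ r0 z (l + 1)`, isolate, and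
`WS eid K m r (s + 1) = K ^ s * ω + WS eid K m (fun l => r (l + 1)) s` for `r 0 = r0` (induction on `s`); then up to `R` as in `iso_ext` (QB/Q8). The number of the other `z`, times `q`, is at most `R * N ^ C * (q / m + 1) * q ^ D` (count (1) of leaf C1, make it a lemma there or here).
(2) For fixed `ρ`, `i < R`, `v`, `w` both conditions `GoodY` are of the form of `gy_count` (leaf C1): `Am A v w`, `um u v w` are symmetric and `Am A v w` is irreflexive (`Sq … i` symmetric, irreflexive: `sq_inv`). Union over the `R * (N * N)` choices and the two conditions, sum over the `q ^ R` choices of `ρ`.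
-/

set_option autoImplicit false
set_option linter.all false

namespace QLN

open Finset Pool.Agent Pool.Agent.PMNC MTC LIN PRS QRB QSR

/-- the weights of one more stage, started with the number `r 0` -/
private theorem C2_shift {V : Type} (e : V → V → ℕ) (K m : ℕ) (r : ℕ → ℕ) (s : ℕ) (u v : V) :
    QSR.WS e K m r (s + 1) u v = K ^ s * (r 0 ^ e u v % m) + QSR.WS e K m (fun l => r (l + 1)) s u v := by
  induction s with
  | zero =>
    change K * 0 + r 0 ^ e u v % m = K ^ 0 * (r 0 ^ e u v % m) + 0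
    rw [pow_zero, one_mul, mul_zero, zero_add, add_zero]
  | succ s ih =>
    change K * QSR.WS e K m r (s + 1) u v + r (s + 1) ^ e u v % m =
      K ^ (s + 1) * (r 0 ^ e u v % m) + (K * QSR.WS e K m (fun l => r (l + 1)) s u v + r (s + 1) ^ e u v % m)
    rw [ih, pow_succ]
    ring

/-- the weights depend on the numbers modulo `m` only -/
private theorem C2_mod {V : Type} (e : V → V → ℕ) (K m : ℕ) (r : ℕ → ℕ) (s : ℕ) (u v : V) :
    QSR.WS e K m (fun l => r l % m) s u v = QSR.WS e K m r s u v := by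
  induction s with
  | zero => rfl
  | succ s ih =>
    change K * QSR.WS e K m (fun l => r l % m) s u v + (r s % m) ^ e u v % m = K * QSR.WS e K m r s u v + r s ^ e u v % m
    rw [ih, ← Nat.pow_mod]

/-- the isolation persists -/
private theorem C2_ext {N : ℕ} (A : Fin N → Fin N → Prop) (ω : Fin N → Fin N → ℕ) (e : Fin N → Fin N → ℕ) (K m : ℕ)
    (hm : 0 < m) (hK : N * m < K) (r : ℕ → ℕ) {s R : ℕ} (hs : s ≤ R) (f : Fin N → Fin N)
    (h : ∀ f', MTC.IsPM A f' → f' ≠ f → MTC.tw (fun x y => K ^ s * ω x y + QSR.WS e K m r s x y) f <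
      MTC.tw (fun x y => K ^ s * ω x y + QSR.WS e K m r s x y) f') :
    ∀ f', MTC.IsPM A f' → f' ≠ f → MTC.tw (fun x y => K ^ R * ω x y + QSR.WS e K m r R x y) f <
      MTC.tw (fun x y => K ^ R * ω x y + QSR.WS e K m r R x y) f' := by
  obtain ⟨d, rfl⟩ := Nat.exists_eq_add_of_le hs
  clear hs
  induction d with
  | zero => exact h
  | succ d ih =>
    intro f' hf' hne
    have h1 := ih f' hf' hne
    have h2 : ∀ g : Fin N → Fin N, MTC.tw (fun x y => K ^ (s + (d + 1)) * ω x y + QSR.WS e K m r (s + (d + 1)) x y) g =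
        K * MTC.tw (fun x y => K ^ (s + d) * ω x y + QSR.WS e K m r (s + d) x y) g + ∑ u, (r (s + d) ^ e u (g u) % m) := by
      intro g
      unfold MTC.tw
      rw [Finset.mul_sum, ← Finset.sum_add_distrib]
      refine Finset.sum_congr rfl fun u _ => ?_
      change K ^ (s + (d + 1)) * ω u (g u) + (K * QSR.WS e K m r (s + d) u (g u) + r (s + d) ^ e u (g u) % m) = _
      rw [← add_assoc s d 1, pow_succ]
      ring
    have h3 : ∑ u, (r (s + d) ^ e u (f u) % m) ≤ N * m := by
      refine (Finset.sum_le_card_nsmul Finset.univ _ m fun u _ => (Nat.mod_lt _ hm).le).trans ?_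
      simp
    rw [h2, h2]
    have h4 : K * (MTC.tw (fun x y => K ^ (s + d) * ω x y + QSR.WS e K m r (s + d) x y) f + 1) ≤
      K * MTC.tw (fun x y => K ^ (s + d) * ω x y + QSR.WS e K m r (s + d) x y) f' := Nat.mul_le_mul_left _ h1
    rw [mul_add, mul_one] at h4
    omega

/-- each residue modulo `m` has at most `q / m + 1` representatives below `q` -/
private theorem C2_res {q m : ℕ} [Fact q.Prime] (hm : 0 < m) (B : Finset ℕ) :
    (Finset.univ.filter fun x : ZMod q => x.val % m ∈ B).card ≤ B.card * (q / m + 1) := by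
  classical
  rw [mul_comm]
  refine Finset.card_le_mul_card_image_of_maps_to (f := fun x : ZMod q => x.val % m) (fun x hx => (Finset.mem_filter.1 hx).2) _ ?_
  intro b _
  refine (Finset.card_le_card_of_injOn (t := Finset.range (q / m + 1)) (fun x : ZMod q => x.val / m) ?_ ?_).trans (Finset.card_range _).le
  · intro x _
    refine Finset.mem_coe.2 (Finset.mem_range.2 ?_)
    have h1 : x.val < q := ZMod.val_lt x
    exact Nat.lt_succ_of_le (Nat.div_le_div_right h1.le)
  · intro x hx y hy hxy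
    have hx' : x.val % m = b := (Finset.mem_filter.1 (Finset.mem_coe.1 hx)).2
    have hy' : y.val % m = b := (Finset.mem_filter.1 (Finset.mem_coe.1 hy)).2
    have hxy' : x.val / m = y.val / m := hxy
    apply ZMod.val_injective q
    rw [← Nat.div_add_mod x.val m, ← Nat.div_add_mod y.val m, hx', hy', hxy']

/-- one coordinate in a set of at most `M` elements which depends on the other coordinates -/
private theorem C2_coord {D q M : ℕ} [Fact q.Prime] (k : Fin D) (S : (Fin D → ZMod q) → Finset (ZMod q)) (hM : ∀ z, (S z).card ≤ M)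
    (hS : ∀ z x, S (Function.update z k x) = S z) :
    (Finset.univ.filter fun z : Fin D → ZMod q => z k ∈ S z).card * q ≤ M * q ^ D := by
  classical
  have h1 : (Finset.univ.filter fun z : Fin D → ZMod q => z k ∈ S z).card * q =
      ((Finset.univ.filter fun z : Fin D → ZMod q => z k ∈ S z) ×ˢ (Finset.univ : Finset (ZMod q))).card := by
    rw [Finset.card_product, Finset.card_univ, ZMod.card]
  have h2 : q ^ D = (Finset.univ : Finset (Fin D → ZMod q)).card := by
    rw [Finset.card_univ, Fintype.card_fun, Fintype.card_fin, ZMod.card]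
  rw [h1, h2]
  refine Finset.card_le_mul_card_image_of_maps_to (f := fun x : (Fin D → ZMod q) × ZMod q => Function.update x.1 k x.2)
    (fun _ _ => Finset.mem_univ _) M ?_
  intro z' _
  refine (Finset.card_le_card_of_injOn (t := S z') (fun x : (Fin D → ZMod q) × ZMod q => x.1 k) ?_ ?_).trans (hM _)
  · rintro ⟨z, y⟩ hx
    have hx1 := Finset.mem_filter.1 (Finset.mem_coe.1 hx)
    have hx2 : z k ∈ S z := (Finset.mem_filter.1 (Finset.mem_product.1 hx1.1).1).2
    have hx3 : Function.update z k y = z' := hx1.2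
    have hx4 : S z' = S z := by rw [← hx3, hS]
    rw [hx4]
    exact hx2
  · rintro ⟨z, y⟩ hx ⟨z1, y1⟩ hx1 hh
    have e1 : Function.update z k y = z' := (Finset.mem_filter.1 (Finset.mem_coe.1 hx)).2
    have e2 : Function.update z1 k y1 = z' := (Finset.mem_filter.1 (Finset.mem_coe.1 hx1)).2
    have e3 : z k = z1 k := hh
    have e4 : y = y1 := by
      have a1 := congrFun e1 k
      have a2 := congrFun e2 k
      rw [Function.update_self] at a1 a2
      rw [a1, a2]
    have e5 : z = z1 := by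
      funext j
      by_cases hj : j = k
      · rw [hj]
        exact e3
      · have a1 := congrFun e1 j
        have a2 := congrFun e2 j
        rw [Function.update_of_ne hj] at a1 a2
        rw [a1, a2]
    rw [e4, e5]

/-- the isolation fails for few points -/
private theorem C2_iso {C : ℕ} (hW : IsoMostW C) {N R D m q K r0 : ℕ} [Fact q.Prime] (hN : 2 ≤ N) (hR : Nat.clog 2 N + 1 ≤ R) (hD : D = 3 * R) (hm : m.Prime)
    (hK : N * m < K) (H : Fin N → Fin N → Prop) (hs : ∀ x y, H x y → H y x) (hi : ∀ x, ¬ H x x) (hM : ∃ f, MTC.IsPM H f) :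
    Nat.card {z : Fin D → ZMod q // ¬ (∃ f, MTC.IsPM H f ∧ ∀ f', MTC.IsPM H f' → f' ≠ f →
      MTC.tw (QSR.WS (fun x y => eid x y) K m (rZ r0 z) R) f < MTC.tw (QSR.WS (fun x y => eid x y) K m (rZ r0 z) R) f')} * q ≤
      R * N ^ C * (q / m + 1) * q ^ D := by
  classical
  obtain ⟨B, hB1, hB2, hB3⟩ := hW N hN m hm K hK H hs hi hM (fun x y => r0 ^ eid x y % m) (fun x y => by rw [eid_comm x y])
  obtain ⟨R', rfl⟩ : ∃ R', R = R' + 1 := ⟨R - 1, by omega⟩
  have hsR : Nat.clog 2 N ≤ R' := by omega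
  have hkD : ∀ j : Fin (Nat.clog 2 N), (j : ℕ) + 1 < D := by
    intro j
    have := j.2
    omega
  have key : ∀ z : Fin D → ZMod q, ¬ (∃ f, MTC.IsPM H f ∧ ∀ f', MTC.IsPM H f' → f' ≠ f →
      MTC.tw (QSR.WS (fun x y => eid x y) K m (rZ r0 z) (R' + 1)) f < MTC.tw (QSR.WS (fun x y => eid x y) K m (rZ r0 z) (R' + 1)) f') →
      ∃ j : Fin (Nat.clog 2 N), (z ⟨(j : ℕ) + 1, hkD j⟩).val % m ∈ B j (fun l => (MTC.ext z (l + 1)).val % m) := by
    intro z hz
    by_contra hno
    apply hz
    obtain ⟨f, hf, h1⟩ := hB3 (fun l => (MTC.ext z (l + 1)).val % m) fun i hi' => by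
      refine ⟨Nat.mod_lt _ hm.pos, fun h3 => hno ⟨⟨i, hi'⟩, ?_⟩⟩
      have h4 : i + 1 < D := hkD ⟨i, hi'⟩
      have h5 : MTC.ext z (i + 1) = z ⟨i + 1, h4⟩ := by
        unfold MTC.ext
        rw [dif_pos h4]
      rw [← h5]
      exact h3
    have h2 := C2_ext H (fun x y => r0 ^ eid x y % m) eid K m hm.pos hK (fun l => (MTC.ext z (l + 1)).val % m) hsR f h1
    refine ⟨f, hf.1, fun f' hf' hne => ?_⟩
    have h3 := h2 f' hf' hne
    have h4 : (fun x y : Fin N => K ^ R' * (r0 ^ eid x y % m) + QSR.WS eid K m (fun l => (MTC.ext z (l + 1)).val % m) R' x y) =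
        QSR.WS (fun x y => eid x y) K m (rZ r0 z) (R' + 1) := by
      funext x y
      rw [C2_shift, C2_mod eid K m (fun l => (MTC.ext z (l + 1)).val) R' x y]
      rfl
    rw [h4] at h3
    exact h3
  have hone : ∀ j : Fin (Nat.clog 2 N),
      (Finset.univ.filter fun z : Fin D → ZMod q => (z ⟨(j : ℕ) + 1, hkD j⟩).val % m ∈ B j (fun l => (MTC.ext z (l + 1)).val % m)).card * q ≤
        N ^ C * (q / m + 1) * q ^ D := by
    intro j
    have h1 := C2_coord (M := N ^ C * (q / m + 1)) (⟨(j : ℕ) + 1, hkD j⟩ : Fin D)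
      (fun z : Fin D → ZMod q => Finset.univ.filter fun x : ZMod q => x.val % m ∈ B j (fun l => (MTC.ext z (l + 1)).val % m))
      (fun z => (C2_res hm.pos _).trans (Nat.mul_le_mul_right _ (hB1 _ _))) (fun z x => by
        have h2 : B j (fun l => (MTC.ext (Function.update z (⟨(j : ℕ) + 1, hkD j⟩ : Fin D) x) (l + 1)).val % m) =
            B j (fun l => (MTC.ext z (l + 1)).val % m) := by
          refine hB2 _ _ _ fun l hl => ?_
          have h3 : MTC.ext (Function.update z (⟨(j : ℕ) + 1, hkD j⟩ : Fin D) x) (l + 1) = MTC.ext z (l + 1) := by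
            unfold MTC.ext
            by_cases h : l + 1 < D
            · rw [dif_pos h, dif_pos h, Function.update_of_ne]
              intro h4
              have h5 := congrArg Fin.val h4
              dsimp only at h5
              omega
            · rw [dif_neg h, dif_neg h]
          rw [h3]
        rw [h2])
    refine le_trans (le_of_eq ?_) h1
    congr 2
    ext z
    simp only [Finset.mem_filter, Finset.mem_univ, true_and]
  rw [Nat.card_eq_fintype_card, Fintype.card_subtype]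
  refine (Nat.mul_le_mul_right q ((Finset.card_le_card ?_).trans (Finset.card_biUnion_le (s := (Finset.univ : Finset (Fin (Nat.clog 2 N))))
    (t := fun j => Finset.univ.filter fun z : Fin D → ZMod q => (z ⟨(j : ℕ) + 1, hkD j⟩).val % m ∈ B j (fun l => (MTC.ext z (l + 1)).val % m))))).trans ?_
  · intro z hz
    obtain ⟨j, hj⟩ := key z (Finset.mem_filter.1 hz).2
    exact Finset.mem_biUnion.2 ⟨j, Finset.mem_univ _, Finset.mem_filter.2 ⟨Finset.mem_univ _, hj⟩⟩
  · rw [Finset.sum_mul]
    refine (Finset.sum_le_sum fun j _ => hone j).trans ?_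
    rw [Finset.sum_const, Finset.card_univ, Fintype.card_fin, smul_eq_mul]
    calc Nat.clog 2 N * (N ^ C * (q / m + 1) * q ^ D) ≤ (R' + 1) * (N ^ C * (q / m + 1) * q ^ D) :=
          Nat.mul_le_mul_right _ (by omega)
      _ = _ := by ring

/-- the first third of the point -/
private def C2_a {D q : ℕ} (R : ℕ) (z : Fin D → ZMod q) (j : Fin R) : ZMod q := MTC.ext z (j : ℕ)

/-- the other two thirds of the point -/
private def C2_b {D q : ℕ} (R : ℕ) (z : Fin D → ZMod q) (j : Fin R) : ZMod q × ZMod q := (MTC.ext z (R + (j : ℕ)), MTC.ext z (2 * R + (j : ℕ)))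

/-- the sum over the first third -/
private theorem C2_fub {R D q M : ℕ} [Fact q.Prime] (hD : D = 3 * R) (Z : (Fin R → ZMod q) → (Fin R → ZMod q × ZMod q) → Prop)
    (h : ∀ ρ, Nat.card {y : Fin R → ZMod q × ZMod q // Z ρ y} * q ≤ M * q ^ (2 * R)) :
    Nat.card {z : Fin D → ZMod q // Z (C2_a R z) (C2_b R z)} * q ≤ M * q ^ D := by
  classical
  have hinj : Function.Injective (fun z : Fin D → ZMod q => (C2_a R z, C2_b R z)) := by
    intro z z' hzz
    have h1 : C2_a R z = C2_a R z' := congrArg Prod.fst hzz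
    have h2 : C2_b R z = C2_b R z' := congrArg Prod.snd hzz
    have key : ∀ j : ℕ, j < D → MTC.ext z j = MTC.ext z' j := by
      intro j hj
      rcases lt_or_ge j R with h3 | h3
      · exact congrFun h1 ⟨j, h3⟩
      · rcases lt_or_ge j (2 * R) with h4 | h4
        · have h5 := congrArg Prod.fst (congrFun h2 ⟨j - R, by omega⟩)
          have h6 : R + (j - R) = j := by omega
          simp only [C2_b] at h5
          rw [h6] at h5
          exact h5
        · have h5 := congrArg Prod.snd (congrFun h2 ⟨j - 2 * R, by omega⟩)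
          have h6 : 2 * R + (j - 2 * R) = j := by omega
          simp only [C2_b] at h5
          rw [h6] at h5
          exact h5
    funext j
    have h7 := key j j.2
    unfold MTC.ext at h7
    rw [dif_pos j.2, dif_pos j.2] at h7
    exact h7
  have h1 : Nat.card {z : Fin D → ZMod q // Z (C2_a R z) (C2_b R z)} ≤
      Nat.card {x : (Fin R → ZMod q) × (Fin R → ZMod q × ZMod q) // Z x.1 x.2} := by
    refine Nat.card_le_card_of_injective (fun z => ⟨(C2_a R z.1, C2_b R z.1), z.2⟩) ?_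
    intro z z' hzz
    apply Subtype.ext
    exact hinj (congrArg Subtype.val hzz)
  have h2 : Nat.card {x : (Fin R → ZMod q) × (Fin R → ZMod q × ZMod q) // Z x.1 x.2} =
      ∑ ρ : Fin R → ZMod q, Nat.card {y : Fin R → ZMod q × ZMod q // Z ρ y} := by
    rw [Nat.card_eq_fintype_card, Fintype.card_subtype, Finset.card_filter, Fintype.sum_prod_type]
    refine Finset.sum_congr rfl fun ρ _ => ?_
    rw [Nat.card_eq_fintype_card, Fintype.card_subtype, Finset.card_filter]
  rw [h2] at h1
  refine (Nat.mul_le_mul_right q h1).trans ?_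
  rw [Finset.sum_mul]
  refine (Finset.sum_le_sum fun ρ _ => h ρ).trans ?_
  rw [Finset.sum_const, Finset.card_univ, Fintype.card_fun, Fintype.card_fin, ZMod.card, smul_eq_mul, hD]
  refine le_of_eq ?_
  have h3 : 3 * R = R + 2 * R := by omega
  rw [h3, pow_add]
  ring

/-- the states depend on the first numbers only -/
private theorem C2_sq {N : ℕ} (H : Fin N → Fin N → Prop) (e : Fin N → Fin N → ℕ) (K m : ℕ) (r r' : ℕ → ℕ) (i : ℕ) (h : ∀ j < i, r j = r' j) :
    Sq H e K m r i = Sq H e K m r' i := by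
  induction i with
  | zero => rfl
  | succ i ih =>
    have h1 := ih fun j hj => h j (Nat.lt_succ_of_lt hj)
    change stp (Sq H e K m r i).1 (UU K m e (r i) (Sq H e K m r i).2) = stp (Sq H e K m r' i).1 (UU K m e (r' i) (Sq H e K m r' i).2)
    rw [h1, h i (Nat.lt_succ_self i)]

/-- few bad numbers of the test for one state and one pair -/
private theorem C2_test {C : ℕ} (hW : IsoMostW C) {N R D m q K r0 : ℕ} [Fact q.Prime] (hN : 2 ≤ N) (hR : Nat.clog 2 N + 1 ≤ R) (hD : D = 3 * R) (hm : m.Prime)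
    (hK : N * m < K) (H : Fin N → Fin N → Prop) (hs : ∀ x y, H x y → H y x) (hi : ∀ x, ¬ H x x) (hM : ∃ f, MTC.IsPM H f)
    (i : ℕ) (hiR : i < R) (i' : ℕ) (hi' : i' ≤ R) (v w : Fin N) :
    Nat.card {z : Fin D → ZMod q // ¬ GoodY q (Am (Sq H (fun x y => eid x y) K m (rZ r0 z) i').1 v w)
      (um (UU K m (fun x y => eid x y) (rZ r0 z i) (Sq H (fun x y => eid x y) K m (rZ r0 z) i).2) v w) (YZ R m z)} * q ≤
      (R * N ^ C * (q / m + 1) + N * (R * m)) * q ^ D := by
  classical
  have hK' : Fintype.card (Fin N) * m < K := by rwa [Fintype.card_fin]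
  have he : ∀ x y : Fin N, (fun x y => eid x y) x y = (fun x y => eid x y) y x := fun x y => eid_comm x y
  have h0 := C2_fub (R := R) (D := D) (q := q) (M := R * N ^ C * (q / m + 1) + N * (R * m)) hD
    (fun ρ y => ¬ GoodY q (Am (Sq H (fun x y => eid x y) K m (rZ r0 ρ) i').1 v w)
      (um (UU K m (fun x y => eid x y) (rZ r0 ρ i) (Sq H (fun x y => eid x y) K m (rZ r0 ρ) i).2) v w)
      (fun x x' => ∏ j, (y j).2 ^ ((y j).1.val ^ eid x x' % m))) (fun ρ => by
        obtain ⟨a1, a2, -, -, a5, -⟩ := sq_inv H hs hi (fun x y => eid x y) he K m hm.pos hK' (rZ r0 ρ) hM i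
        obtain ⟨b1, b2, -, -, -, -⟩ := sq_inv H hs hi (fun x y => eid x y) he K m hm.pos hK' (rZ r0 ρ) hM i'
        refine gy_count hW hN (by omega) hm _ ?_ ?_ _ ?_
        · intro x y hxy
          rcases hxy with ⟨h1, h2⟩ | ⟨h1, ⟨h2, h3, h4, h5, h6⟩ | ⟨h2, h3⟩ | ⟨h2, h3⟩⟩
          · exact Or.inl ⟨h1, b1 _ _ h2⟩
          · exact Or.inr ⟨h1, Or.inl ⟨b1 _ _ h2, h5, h6, h3, h4⟩⟩
          · exact Or.inr ⟨h1, Or.inr (Or.inr ⟨h3, h2⟩)⟩
          · exact Or.inr ⟨h1, Or.inr (Or.inl ⟨h3, h2⟩)⟩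
        · intro x hxy
          rcases hxy with ⟨h1, h2⟩ | ⟨h1, ⟨h2, h3, h4, h5, h6⟩ | ⟨h2, h3⟩ | ⟨h2, h3⟩⟩
          · exact hi x (b2 _ _ h2)
          · exact hi x (b2 _ _ h2)
          · exact h1 (h2.symm.trans h3)
          · exact h1 (h3.symm.trans h2)
        · intro x y
          unfold um UU
          have h1 : (v ≠ w ∧ ((x = v ∧ y = w) ∨ (x = w ∧ y = v))) ↔ (v ≠ w ∧ ((y = v ∧ x = w) ∨ (y = w ∧ x = v))) := by
            constructor
            · rintro ⟨h1, ⟨h2, h3⟩ | ⟨h2, h3⟩⟩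
              · exact ⟨h1, Or.inr ⟨h3, h2⟩⟩
              · exact ⟨h1, Or.inl ⟨h3, h2⟩⟩
            · rintro ⟨h1, ⟨h2, h3⟩ | ⟨h2, h3⟩⟩
              · exact ⟨h1, Or.inr ⟨h3, h2⟩⟩
              · exact ⟨h1, Or.inl ⟨h3, h2⟩⟩
          have h2 : K * (Sq H (fun x y => eid x y) K m (rZ r0 ρ) i).2 x y + rZ r0 ρ i ^ eid x y % m =
              K * (Sq H (fun x y => eid x y) K m (rZ r0 ρ) i).2 y x + rZ r0 ρ i ^ eid y x % m := by
            rw [a5 x y, eid_comm x y]
          by_cases h3 : (v ≠ w ∧ ((x = v ∧ y = w) ∨ (x = w ∧ y = v)))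
          · rw [if_pos h3, if_pos (h1.1 h3)]
          · rw [if_neg h3, if_neg (fun h4 => h3 (h1.2 h4))]
            exact h2)
  refine le_trans (Nat.mul_le_mul_right q ?_) h0
  rw [Nat.card_eq_fintype_card, Nat.card_eq_fintype_card]
  refine Fintype.card_subtype_mono _ _ ?_
  intro z hz
  have hr : ∀ j < R, rZ r0 z j = rZ r0 (C2_a R z) j := by
    intro j hj
    unfold rZ
    have h1 : MTC.ext (C2_a R z) j = MTC.ext z j := by
      conv_lhs => unfold MTC.ext
      rw [dif_pos hj]
      rfl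
    rw [h1]
  have h1 : Sq H (fun x y => eid x y) K m (rZ r0 z) i' = Sq H (fun x y => eid x y) K m (rZ r0 (C2_a R z)) i' :=
    C2_sq H _ K m _ _ i' fun j hj => hr j (lt_of_lt_of_le hj hi')
  have h2 : Sq H (fun x y => eid x y) K m (rZ r0 z) i = Sq H (fun x y => eid x y) K m (rZ r0 (C2_a R z)) i :=
    C2_sq H _ K m _ _ i fun j hj => hr j (hj.trans hiR)
  have h3 : rZ r0 z i = rZ r0 (C2_a R z) i := hr i hiR
  have hz' : ¬ GoodY q (Am (Sq H (fun x y => eid x y) K m (rZ r0 z) i').1 v w)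
      (um (UU K m (fun x y => eid x y) (rZ r0 z i) (Sq H (fun x y => eid x y) K m (rZ r0 z) i).2) v w) (YZ R m z) := hz
  rw [h1, h2, h3] at hz'
  exact hz'

/-- the union of the bad sets -/
private theorem C2_union {α : Type} [Fintype α] {N R q a b Q : ℕ} (P P1 : α → Prop) (P2 P3 : Fin R → Fin N → Fin N → α → Prop)
    (h : ∀ z, ¬ P z → ¬ P1 z ∨ ∃ i v w, ¬ P2 i v w z ∨ ¬ P3 i v w z)
    (h1 : Nat.card {z // ¬ P1 z} * q ≤ a * Q) (h2 : ∀ i v w, Nat.card {z // ¬ P2 i v w z} * q ≤ b * Q) (h3 : ∀ i v w, Nat.card {z // ¬ P3 i v w z} * q ≤ b * Q) :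
    Nat.card {z // ¬ P z} * q ≤ (a + 2 * R * (N * N) * b) * Q := by
  classical
  rw [Nat.card_eq_fintype_card, Fintype.card_subtype] at h1 ⊢
  have h2' : ∀ i v w, (Finset.univ.filter fun z => ¬ P2 i v w z).card * q ≤ b * Q := by
    intro i v w
    have := h2 i v w
    rwa [Nat.card_eq_fintype_card, Fintype.card_subtype] at this
  have h3' : ∀ i v w, (Finset.univ.filter fun z => ¬ P3 i v w z).card * q ≤ b * Q := by
    intro i v w
    have := h3 i v w
    rwa [Nat.card_eq_fintype_card, Fintype.card_subtype] at this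
  have h4 : (Finset.univ.filter fun z => ¬ P z) ⊆ (Finset.univ.filter fun z => ¬ P1 z) ∪
      (Finset.univ : Finset (Fin R × (Fin N × Fin N))).biUnion fun x =>
        (Finset.univ.filter fun z => ¬ P2 x.1 x.2.1 x.2.2 z) ∪ (Finset.univ.filter fun z => ¬ P3 x.1 x.2.1 x.2.2 z) := by
    intro z hz
    rcases h z (Finset.mem_filter.1 hz).2 with h5 | ⟨i, v, w, h5⟩
    · exact Finset.mem_union_left _ (Finset.mem_filter.2 ⟨Finset.mem_univ _, h5⟩)
    · refine Finset.mem_union_right _ (Finset.mem_biUnion.2 ⟨(i, (v, w)), Finset.mem_univ _, ?_⟩)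
      rcases h5 with h5 | h5
      · exact Finset.mem_union_left _ (Finset.mem_filter.2 ⟨Finset.mem_univ _, h5⟩)
      · exact Finset.mem_union_right _ (Finset.mem_filter.2 ⟨Finset.mem_univ _, h5⟩)
  have h5 : (Finset.univ.filter fun z => ¬ P z).card ≤ (Finset.univ.filter fun z => ¬ P1 z).card +
      ∑ x : Fin R × (Fin N × Fin N), ((Finset.univ.filter fun z => ¬ P2 x.1 x.2.1 x.2.2 z).card + (Finset.univ.filter fun z => ¬ P3 x.1 x.2.1 x.2.2 z).card) := by
    refine (Finset.card_le_card h4).trans ((Finset.card_union_le _ _).trans (Nat.add_le_add_left ?_ _))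
    refine Finset.card_biUnion_le.trans (Finset.sum_le_sum fun x _ => Finset.card_union_le _ _)
  refine (Nat.mul_le_mul_right q h5).trans ?_
  rw [add_mul, add_mul, Finset.sum_mul]
  refine Nat.add_le_add h1 ?_
  have h6 : ∀ x : Fin R × (Fin N × Fin N), ((Finset.univ.filter fun z => ¬ P2 x.1 x.2.1 x.2.2 z).card + (Finset.univ.filter fun z => ¬ P3 x.1 x.2.1 x.2.2 z).card) * q ≤
      b * Q + b * Q := by
    intro x
    rw [add_mul]
    exact Nat.add_le_add (h2' _ _ _) (h3' _ _ _)
  refine (Finset.sum_le_sum fun x _ => h6 x).trans ?_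
  rw [Finset.sum_const, Finset.card_univ, Fintype.card_prod, Fintype.card_prod, Fintype.card_fin, Fintype.card_fin, smul_eq_mul]
  refine le_of_eq ?_
  ring

theorem badz_count {C : ℕ} (hW : IsoMostW C) {N R D m q K r0 : ℕ} [Fact q.Prime] (hN : 2 ≤ N) (hR : Nat.clog 2 N + 1 ≤ R) (hD : D = 3 * R) (hm : m.Prime)
    (hK : N * m < K) (H : Fin N → Fin N → Prop) (hs : ∀ x y, H x y → H y x) (hi : ∀ x, ¬ H x x) (hM : ∃ f, MTC.IsPM H f) :
    Nat.card {z : Fin D → ZMod q // ¬ GoodZ R K m r0 H z} * q ≤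
      (R * N ^ C * (q / m + 1) + 2 * R * (N * N) * (R * N ^ C * (q / m + 1) + N * (R * m))) * q ^ D := by
  refine C2_union (R := R) (N := N) (a := R * N ^ C * (q / m + 1)) (b := R * N ^ C * (q / m + 1) + N * (R * m)) (Q := q ^ D) (fun z : Fin D → ZMod q => GoodZ R K m r0 H z)
    (fun z => ∃ f, MTC.IsPM H f ∧ ∀ f', MTC.IsPM H f' → f' ≠ f →
      MTC.tw (QSR.WS (fun x y => eid x y) K m (rZ r0 z) R) f < MTC.tw (QSR.WS (fun x y => eid x y) K m (rZ r0 z) R) f')
    (fun i v w z => GoodY q (Am (Sq H (fun x y => eid x y) K m (rZ r0 z) i).1 v w)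
      (um (UU K m (fun x y => eid x y) (rZ r0 z i) (Sq H (fun x y => eid x y) K m (rZ r0 z) i).2) v w) (YZ R m z))
    (fun i v w z => GoodY q (Am (Sq H (fun x y => eid x y) K m (rZ r0 z) (i + 1)).1 v w)
      (um (UU K m (fun x y => eid x y) (rZ r0 z i) (Sq H (fun x y => eid x y) K m (rZ r0 z) i).2) v w) (YZ R m z)) ?_
    (C2_iso hW hN hR hD hm hK H hs hi hM)
    (fun i v w => C2_test hW hN hR hD hm hK H hs hi hM i i.2 i i.2.le v w)
    (fun i v w => C2_test hW hN hR hD hm hK H hs hi hM i i.2 (i + 1) i.2 v w)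
  intro z hz
  by_contra h0
  rw [not_or] at h0
  obtain ⟨h1, h2⟩ := h0
  apply hz
  refine ⟨not_not.1 h1, fun i hiR v w => ?_⟩
  by_contra h3
  rw [not_and_or] at h3
  exact h2 ⟨⟨i, hiR⟩, v, w, h3⟩

end QLN
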