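import Pool.Agent.Lib.MP_0087d5_lcQS.K2
import Pool.Agent.Lib.MP_0087d5_lcMT.ADefs

/-!
# Weak sources and local noise: the rounds

In each round the ranks are computed in the graph of the perfect matchings of least weight (not in the graph of the round before, as in MP_0087d5_lcQS).
So all the states from the first one on are determined by the first numbers and by the graph `HH T ω` of the first round.
-/

set_option autoImplicit false
set_option linter.all false

namespace QLN

open Finset MTC QSR

section
variable {V : Type} [Fintype V] [DecidableEq V]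

/-- one round: the union of the perfect matchings of least weight `u`, and the ranks computed in it -/
noncomputable def stp (A : V → V → Prop) (u : V → V → ℕ) : (V → V → Prop) × (V → V → ℕ) := (HH A u, rkn (HH A u) u)

/-- the states -/
noncomputable def Sq (T : V → V → Prop) (e : V → V → ℕ) (K m : ℕ) (r : ℕ → ℕ) : ℕ → (V → V → Prop) × (V → V → ℕ)
  | 0 => (T, fun _ _ => 0)
  | i + 1 => stp (Sq T e K m r i).1 (UU K m e (r i) (Sq T e K m r i).2)

end

/-- the first weights, with the number `r0` -/
noncomputable def ω0 {N : ℕ} (m r0 : ℕ) (x y : Fin N) : ℕ := r0 ^ Pool.Agent.PMNC.eid x y % m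

/-- for some number `r0` the graphs `T` which agree outside `W` have at most `2 ^ bd (card W)` graphs of perfect matchings of least first weight -/
def SpOK (k : ℕ) (bd : ℕ → ℕ) : Prop :=
  ∀ N : ℕ, 4 ≤ N → ∀ m : ℕ, m.Prime → N ^ k < m → ∃ r0 < m, ∀ (T0 : Fin N → Fin N → Prop) (W : Finset (Fin N)),
    Nat.card {H : Fin N → Fin N → Prop // ∃ T : Fin N → Fin N → Prop, (∀ x y, T x y → T y x) ∧ (∀ x, ¬ T x x) ∧ (∃ f, IsPM T f) ∧
      (∀ x y, ¬ (x ∈ W ∧ y ∈ W) → (T x y ↔ T0 x y)) ∧ H = HH T (ω0 m r0)} ≤ 2 ^ bd W.card

end QLN
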