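import Pool.Agent.Lib.MP_0087d5_lcQN.D2
import Pool.Agent.Lib.MP_0087d5_lcQS.D3

/-!
# Leaf D3 (medium): one stage is definable

Proof: copy of leaf D3 of MP_0087d5_lcQS (`def_StC`, by helper14). New: `nr` in place of `num 4 a` in `UvC` (`defZ_nr`, leaf D1, with `defZ_rz`), the clause `¬ nv κ.2.2.1 = 0`, and `FvC` is used for the relation `PnC … P` (`DefP` of `PnC`: `def_HhC` and `hP`), with `HhC` for `P` itself.
-/

set_option autoImplicit false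
set_option linter.all false

namespace QLN

open Finset Pool.Agent Pool.Agent.PMNC MTC LIN PRS QRB QSR

section
variable {E S : ℕ → Type} [Env E] [Env S] [∀ n, Fintype (S n)]

private theorem D3_lw {P : ∀ n : ℕ, SimpleGraph (Fin n) → Ctx n → E n → Fin n → Fin n → S n → Prop}
    (hP : DefP (E := fun n => E n × (Fin n × (Fin n × S n))) (fun n G X y => P n G X y.1 y.2.1 y.2.2.1 y.2.2.2))
    {κ : ∀ n : ℕ, E n → Pq S n} (hκ : Tm (F := fun n => Pq S n) κ) {i : ∀ n : ℕ, E n → Fin n} (hi : Tm (F := fun n => Fin n) i)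
    {E' : ℕ → Type} [Env E'] {f : ∀ n : ℕ, E' n → E n} (hf : Tm f) {v w : ∀ n : ℕ, E' n → Fin n}
    (hv : Tm (F := fun n => Fin n) v) (hw : Tm (F := fun n => Fin n) w) {c : ∀ n : ℕ, E' n → S n} (hc : Tm c) :
    DefP (E := E') (fun n G X y => LwC (SP n G) (κ n (f n y)) (i n (f n y)) (P n G X (f n y)) (v n y) (w n y) (c n y)) :=
  def_LwC (E := E') (P := fun n G X y => P n G X (f n y))
    (DefP.comp (E := fun n => E' n × (Fin n × (Fin n × S n))) (F := fun n => E n × (Fin n × (Fin n × S n)))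
      (f := fun n y => (f n y.1, y.2)) hP (Tm.pair (hf.comp (Tm.fst Tm.id)) (Tm.snd Tm.id)))
    (Tm.comp (F := E) (H := fun n => Pq S n) hκ hf) (Tm.comp (F := E) (H := fun n => Fin n) hi hf) hv hw hc

private theorem D3_p {P : ∀ n : ℕ, SimpleGraph (Fin n) → Ctx n → E n → Fin n → Fin n → S n → Prop}
    (hP : DefP (E := fun n => E n × (Fin n × (Fin n × S n))) (fun n G X y => P n G X y.1 y.2.1 y.2.2.1 y.2.2.2))
    {E' : ℕ → Type} [Env E'] {f : ∀ n : ℕ, E' n → E n} (hf : Tm f) {v w : ∀ n : ℕ, E' n → Fin n}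
    (hv : Tm (F := fun n => Fin n) v) (hw : Tm (F := fun n => Fin n) w) {c : ∀ n : ℕ, E' n → S n} (hc : Tm c) :
    DefP (E := E') (fun n G X y => P n G X (f n y) (v n y) (w n y) (c n y)) :=
  DefP.comp (E := E') (F := fun n => E n × (Fin n × (Fin n × S n))) (f := fun n y => (f n y, (v n y, (w n y, c n y)))) hP
    (Tm.pair (F := E) (H := fun n => Fin n × (Fin n × S n)) hf
      (Tm.pair (F := fun n => Fin n) (H := fun n => Fin n × S n) hv (Tm.pair (F := fun n => Fin n) (H := S) hw hc)))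

private theorem D3_mu {P : ∀ n : ℕ, SimpleGraph (Fin n) → Ctx n → E n → Fin n → Fin n → S n → Prop}
    (hP : DefP (E := fun n => E n × (Fin n × (Fin n × S n))) (fun n G X y => P n G X y.1 y.2.1 y.2.2.1 y.2.2.2))
    {κ : ∀ n : ℕ, E n → Pq S n} (hκ : Tm (F := fun n => Pq S n) κ) {i : ∀ n : ℕ, E n → Fin n} (hi : Tm (F := fun n => Fin n) i)
    {E' : ℕ → Type} [Env E'] {f : ∀ n : ℕ, E' n → E n} (hf : Tm f) {v : ∀ n : ℕ, E' n → Fin n}
    (hv : Tm (F := fun n => Fin n) v) {c : ∀ n : ℕ, E' n → S n} (hc : Tm c) :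
    DefP (E := E') (fun n G X y => MuC (SP n G) (κ n (f n y)) (i n (f n y)) (P n G X (f n y)) (v n y) (c n y)) := by
  have hf1 : Tm (fun n (y : E' n × Fin n) => f n y.1) := hf.comp (Tm.fst Tm.id)
  have hv1 : Tm (F := fun n => Fin n) (fun n (y : E' n × Fin n) => v n y.1) := hv.comp (Tm.fst Tm.id)
  have hc1 : Tm (fun n (y : E' n × Fin n) => c n y.1) := hc.comp (Tm.fst Tm.id)
  have hw1 : Tm (F := fun n => Fin n) (fun n (y : E' n × Fin n) => y.2) := Tm.snd Tm.id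
  have hf2 : Tm (fun n (y : (E' n × Fin n) × S n) => f n y.1.1) := hf1.comp (Tm.fst Tm.id)
  have hv2 : Tm (F := fun n => Fin n) (fun n (y : (E' n × Fin n) × S n) => v n y.1.1) := hv1.comp (Tm.fst Tm.id)
  have hc2 : Tm (fun n (y : (E' n × Fin n) × S n) => c n y.1.1) := hc1.comp (Tm.fst Tm.id)
  have hw2 : Tm (F := fun n => Fin n) (fun n (y : (E' n × Fin n) × S n) => y.1.2) := hw1.comp (Tm.fst Tm.id)
  have hd2 : Tm (fun n (y : (E' n × Fin n) × S n) => y.2) := Tm.snd Tm.id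
  have h1 := DefP.and (DefP.not (DefP.eqFin hw1 hv1)) (D3_lw (E' := fun n => E' n × Fin n) hP hκ hi hf1 hv1 hw1 hc1)
  have h2 := DefP.imp (DefP.not (DefP.eqFin hw2 hv2)) (DefP.imp (D3_lw (E' := fun n => (E' n × Fin n) × S n) hP hκ hi hf2 hv2 hw2 hd2)
    (DefP.nLe hc2 hd2))
  exact DefP.and (DefP.exFin (P := fun n G X y w => (¬ w = v n y) ∧
      LwC (SP n G) (κ n (f n y)) (i n (f n y)) (P n G X (f n y)) (v n y) w (c n y)) h1)
    (DefP.allFin (P := fun n G X y w => ∀ c' : S n, (¬ w = v n y) →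
      LwC (SP n G) (κ n (f n y)) (i n (f n y)) (P n G X (f n y)) (v n y) w c' → nv (c n y) ≤ nv c')
      (DefP.all (F := S) (P := fun n G X (y : E' n × Fin n) c' => (¬ y.2 = v n y.1) →
        LwC (SP n G) (κ n (f n y.1)) (i n (f n y.1)) (P n G X (f n y.1)) (v n y.1) y.2 c' → nv (c n y.1) ≤ nv c') h2))

private theorem D3_uv {P : ∀ n : ℕ, SimpleGraph (Fin n) → Ctx n → E n → Fin n → Fin n → S n → Prop}
    (hP : DefP (E := fun n => E n × (Fin n × (Fin n × S n))) (fun n G X y => P n G X y.1 y.2.1 y.2.2.1 y.2.2.2))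
    {κ : ∀ n : ℕ, E n → Pq S n} (hκ : Tm (F := fun n => Pq S n) κ) {i : ∀ n : ℕ, E n → Fin n} (hi : Tm (F := fun n => Fin n) i)
    {E' : ℕ → Type} [Env E'] {f : ∀ n : ℕ, E' n → E n} (hf : Tm f) {v w : ∀ n : ℕ, E' n → Fin n}
    (hv : Tm (F := fun n => Fin n) v) (hw : Tm (F := fun n => Fin n) w) {c : ∀ n : ℕ, E' n → S n} (hc : Tm c) :
    DefP (E := E') (fun n G X y => UvC (SP n G) (κ n (f n y)) (i n (f n y)) (P n G X (f n y)) (v n y) (w n y) (c n y)) := by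
  have hκ0 : Tm (F := fun n => Pq S n) (fun n (y : E' n) => κ n (f n y)) := Tm.comp (F := E) (H := fun n => Pq S n) hκ hf
  have hm0 : Tm (fun n (y : E' n) => (κ n (f n y)).2.1) := Tm.fst (Tm.snd hκ0)
  have hp0 : Tm (fun n (y : E' n) => (κ n (f n y)).2.2.1) := Tm.fst (Tm.snd (Tm.snd hκ0))
  have hK0 : Tm (fun n (y : E' n) => (κ n (f n y)).1) := Tm.fst hκ0
  have hi0 : Tm (F := fun n => Fin n) (fun n (y : E' n) => i n (f n y)) := Tm.comp (F := E) (H := fun n => Fin n) hi hf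
  have hf1 : Tm (fun n (y : E' n × S n) => f n y.1) := hf.comp (Tm.fst Tm.id)
  have hv1 : Tm (F := fun n => Fin n) (fun n (y : E' n × S n) => v n y.1) := hv.comp (Tm.fst Tm.id)
  have hw1 : Tm (F := fun n => Fin n) (fun n (y : E' n × S n) => w n y.1) := hw.comp (Tm.fst Tm.id)
  have hc1 : Tm (fun n (y : E' n × S n) => c n y.1) := hc.comp (Tm.fst Tm.id)
  have hκ1 : Tm (F := fun n => Pq S n) (fun n (y : E' n × S n) => κ n (f n y.1)) :=
    Tm.comp (F := E') (H := fun n => Pq S n) hκ0 (Tm.fst Tm.id)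
  have hm1 : Tm (fun n (y : E' n × S n) => (κ n (f n y.1)).2.1) := hm0.comp (Tm.fst Tm.id)
  have hp1 : Tm (fun n (y : E' n × S n) => (κ n (f n y.1)).2.2.1) := hp0.comp (Tm.fst Tm.id)
  have hK1 : Tm (fun n (y : E' n × S n) => (κ n (f n y.1)).1) := hK0.comp (Tm.fst Tm.id)
  have hi1 : Tm (F := fun n => Fin n) (fun n (y : E' n × S n) => i n (f n y.1)) := hi0.comp (Tm.fst Tm.id)
  have hz1 : Tm (fun n (y : E' n × S n) => y.2) := Tm.snd Tm.id
  have hr := defZ_nr (E := fun n => E' n × S n) (S := S) hm1 hκ1 hi1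
  have hre : DefZ (E := fun n => E' n × S n) (fun n y => (κ n (f n y.1)).2.1)
      (fun n G X y => (cnd (nv (κ n (f n y.1)).2.2.1 = 0) 0 (nr (SP n G) (κ n (f n y.1)) (i n (f n y.1)))) ^ eid (v n y.1) (w n y.1)) := by
    refine (DefZ.ite (E := fun n => E' n × S n) (DefP.lt hv1 hw1)
      (DefZ.pow (E := fun n => E' n × S n) (H := fun n => Fin n × Fin n) hm1 hr
        (Tm.pair (F := fun n => Fin n) (H := fun n => Fin n) hv1 hw1))
      (DefZ.pow (E := fun n => E' n × S n) (H := fun n => Fin n × Fin n) hm1 hr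
        (Tm.pair (F := fun n => Fin n) (H := fun n => Fin n) hw1 hv1))).congr fun n G X y => ?_
    unfold eid
    by_cases h : v n y.1 < w n y.1
    · rw [cnd_pos h, if_pos h]
    · rw [cnd_neg h, if_neg h]
  have hrz := defZ_rz (E := fun n => E' n × S n) hp1 hm1 hre
  have hd := DefZ.dvd (DefZ.sub hp1 (DefZ.nv' (H := S) hp1 hc1)
    (DefZ.add hp1 (DefZ.mul hp1 (DefZ.nv' (H := S) hp1 hK1) (DefZ.nv' (H := S) hp1 hz1)) hrz))
  have h1 := DefP.and (D3_p (E' := fun n => E' n × S n) hP hf1 hv1 hw1 hz1) hd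
  refine DefP.congr (DefP.and (DefP.not (DefP.nZero hm0)) (DefP.and (DefP.not (DefP.nZero hp0)) (DefP.and (DefP.nLt hc hp0) (DefP.ex (F := S)
    (P := fun n G X (y : E' n) (z : S n) => P n G X (f n y) (v n y) (w n y) z ∧ 0 < nv (κ n (f n y)).2.2.1 ∧
      ((nv (κ n (f n y)).2.2.1 : ℕ) : ℤ) ∣ ((nv (c n y) : ℕ) : ℤ) - (((nv (κ n (f n y)).1 : ℕ) : ℤ) * ((nv z : ℕ) : ℤ) +
        cnd (nv (κ n (f n y)).2.1 = 0) 0 ((rz (nv (κ n (f n y)).2.1)
          ((cnd (nv (κ n (f n y)).2.2.1 = 0) 0 (nr (SP n G) (κ n (f n y)) (i n (f n y)))) ^ eid (v n y) (w n y)) : ℕ) : ℤ))) h1))))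
    fun n G X y => ?_
  unfold UvC
  refine and_congr_right fun h0 => and_congr_right fun hq0 => and_congr_right fun hlt => exists_congr fun z => and_congr_right fun _ => ?_
  rw [cnd_neg h0, cnd_neg hq0]
  exact ⟨fun h => h.2, fun h => ⟨lt_of_le_of_lt (Nat.zero_le _) hlt, h⟩⟩

private theorem D3_fv {P : ∀ n : ℕ, SimpleGraph (Fin n) → Ctx n → E n → Fin n → Fin n → S n → Prop}
    (hP : DefP (E := fun n => E n × (Fin n × (Fin n × S n))) (fun n G X y => P n G X y.1 y.2.1 y.2.2.1 y.2.2.2))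
    {κ : ∀ n : ℕ, E n → Pq S n} (hκ : Tm (F := fun n => Pq S n) κ) {i : ∀ n : ℕ, E n → Fin n} (hi : Tm (F := fun n => Fin n) i)
    {E' : ℕ → Type} [Env E'] {f : ∀ n : ℕ, E' n → E n} (hf : Tm f) {v w : ∀ n : ℕ, E' n → Fin n}
    (hv : Tm (F := fun n => Fin n) v) (hw : Tm (F := fun n => Fin n) w) {c : ∀ n : ℕ, E' n → S n} (hc : Tm c) :
    DefP (E := E') (fun n G X y => FvC (SP n G) (κ n (f n y)) (i n (f n y)) (P n G X (f n y)) (v n y) (w n y) (c n y)) := by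
  have hπ : Tm (fun n (y : ((((E' n × S n) × S n) × S n) × S n) × S n) => y.1.1.1.1.1) :=
    Tm.fst (Tm.fst (Tm.fst (Tm.fst (Tm.fst Tm.id))))
  have hf5 : Tm (fun n (y : ((((E' n × S n) × S n) × S n) × S n) × S n) => f n y.1.1.1.1.1) := hf.comp hπ
  have hv5 : Tm (F := fun n => Fin n) (fun n (y : ((((E' n × S n) × S n) × S n) × S n) × S n) => v n y.1.1.1.1.1) := hv.comp hπ
  have hw5 : Tm (F := fun n => Fin n) (fun n (y : ((((E' n × S n) × S n) × S n) × S n) × S n) => w n y.1.1.1.1.1) := hw.comp hπ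
  have hd5 : Tm (fun n (y : ((((E' n × S n) × S n) × S n) × S n) × S n) => c n y.1.1.1.1.1) := hc.comp hπ
  have x1 : Tm (fun n (y : ((((E' n × S n) × S n) × S n) × S n) × S n) => y.1.1.1.1.2) := Tm.snd (Tm.fst (Tm.fst (Tm.fst (Tm.fst Tm.id))))
  have x2 : Tm (fun n (y : ((((E' n × S n) × S n) × S n) × S n) × S n) => y.1.1.1.2) := Tm.snd (Tm.fst (Tm.fst (Tm.fst Tm.id)))
  have x3 : Tm (fun n (y : ((((E' n × S n) × S n) × S n) × S n) × S n) => y.1.1.2) := Tm.snd (Tm.fst (Tm.fst Tm.id))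
  have x4 : Tm (fun n (y : ((((E' n × S n) × S n) × S n) × S n) × S n) => y.1.2) := Tm.snd (Tm.fst Tm.id)
  have x5 : Tm (fun n (y : ((((E' n × S n) × S n) × S n) × S n) × S n) => y.2) := Tm.snd Tm.id
  have h := DefP.and (D3_mu (E' := fun n => ((((E' n × S n) × S n) × S n) × S n) × S n) hP hκ hi hf5 hv5 x1)
    (DefP.and (D3_mu (E' := fun n => ((((E' n × S n) × S n) × S n) × S n) × S n) hP hκ hi hf5 hw5 x2)
    (DefP.and (D3_uv (E' := fun n => ((((E' n × S n) × S n) × S n) × S n) × S n) hP hκ hi hf5 hv5 hw5 x3)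
    (DefP.and (DefP.nAdd x3 x3 x4) (DefP.and (DefP.nAdd x1 x2 x5) (DefP.nAdd x4 x5 hd5)))))
  exact DefP.ex (F := S) (P := fun n G X (y : E' n) c1 => ∃ c' u s1 s2 : S n, MuC (SP n G) (κ n (f n y)) (i n (f n y)) (P n G X (f n y)) (v n y) c1 ∧
      MuC (SP n G) (κ n (f n y)) (i n (f n y)) (P n G X (f n y)) (w n y) c' ∧ UvC (SP n G) (κ n (f n y)) (i n (f n y)) (P n G X (f n y)) (v n y) (w n y) u ∧
      nv u + nv u = nv s1 ∧ nv c1 + nv c' = nv s2 ∧ nv s1 + nv s2 = nv (c n y))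
    (DefP.ex (F := S) (P := fun n G X (y : E' n × S n) c' => ∃ u s1 s2 : S n,
      MuC (SP n G) (κ n (f n y.1)) (i n (f n y.1)) (P n G X (f n y.1)) (v n y.1) y.2 ∧
      MuC (SP n G) (κ n (f n y.1)) (i n (f n y.1)) (P n G X (f n y.1)) (w n y.1) c' ∧
      UvC (SP n G) (κ n (f n y.1)) (i n (f n y.1)) (P n G X (f n y.1)) (v n y.1) (w n y.1) u ∧
      nv u + nv u = nv s1 ∧ nv y.2 + nv c' = nv s2 ∧ nv s1 + nv s2 = nv (c n y.1))
    (DefP.ex (F := S) (P := fun n G X (y : (E' n × S n) × S n) u => ∃ s1 s2 : S n,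
      MuC (SP n G) (κ n (f n y.1.1)) (i n (f n y.1.1)) (P n G X (f n y.1.1)) (v n y.1.1) y.1.2 ∧
      MuC (SP n G) (κ n (f n y.1.1)) (i n (f n y.1.1)) (P n G X (f n y.1.1)) (w n y.1.1) y.2 ∧
      UvC (SP n G) (κ n (f n y.1.1)) (i n (f n y.1.1)) (P n G X (f n y.1.1)) (v n y.1.1) (w n y.1.1) u ∧
      nv u + nv u = nv s1 ∧ nv y.1.2 + nv y.2 = nv s2 ∧ nv s1 + nv s2 = nv (c n y.1.1))
    (DefP.ex (F := S) (P := fun n G X (y : ((E' n × S n) × S n) × S n) s1 => ∃ s2 : S n,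
      MuC (SP n G) (κ n (f n y.1.1.1)) (i n (f n y.1.1.1)) (P n G X (f n y.1.1.1)) (v n y.1.1.1) y.1.1.2 ∧
      MuC (SP n G) (κ n (f n y.1.1.1)) (i n (f n y.1.1.1)) (P n G X (f n y.1.1.1)) (w n y.1.1.1) y.1.2 ∧
      UvC (SP n G) (κ n (f n y.1.1.1)) (i n (f n y.1.1.1)) (P n G X (f n y.1.1.1)) (v n y.1.1.1) (w n y.1.1.1) y.2 ∧
      nv y.2 + nv y.2 = nv s1 ∧ nv y.1.1.2 + nv y.1.2 = nv s2 ∧ nv s1 + nv s2 = nv (c n y.1.1.1))
    (DefP.ex (F := S) (P := fun n G X (y : (((E' n × S n) × S n) × S n) × S n) s2 =>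
      MuC (SP n G) (κ n (f n y.1.1.1.1)) (i n (f n y.1.1.1.1)) (P n G X (f n y.1.1.1.1)) (v n y.1.1.1.1) y.1.1.1.2 ∧
      MuC (SP n G) (κ n (f n y.1.1.1.1)) (i n (f n y.1.1.1.1)) (P n G X (f n y.1.1.1.1)) (w n y.1.1.1.1) y.1.1.2 ∧
      UvC (SP n G) (κ n (f n y.1.1.1.1)) (i n (f n y.1.1.1.1)) (P n G X (f n y.1.1.1.1)) (v n y.1.1.1.1) (w n y.1.1.1.1) y.1.2 ∧
      nv y.1.2 + nv y.1.2 = nv y.2 ∧ nv y.1.1.1.2 + nv y.1.1.2 = nv s2 ∧ nv y.2 + nv s2 = nv (c n y.1.1.1.1)) h))))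

private theorem D3_hh {P : ∀ n : ℕ, SimpleGraph (Fin n) → Ctx n → E n → Fin n → Fin n → S n → Prop}
    (hP : DefP (E := fun n => E n × (Fin n × (Fin n × S n))) (fun n G X y => P n G X y.1 y.2.1 y.2.2.1 y.2.2.2))
    {κ : ∀ n : ℕ, E n → Pq S n} (hκ : Tm (F := fun n => Pq S n) κ) {i : ∀ n : ℕ, E n → Fin n} (hi : Tm (F := fun n => Fin n) i)
    {E' : ℕ → Type} [Env E'] {f : ∀ n : ℕ, E' n → E n} (hf : Tm f) {v w : ∀ n : ℕ, E' n → Fin n}
    (hv : Tm (F := fun n => Fin n) v) (hw : Tm (F := fun n => Fin n) w) :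
    DefP (E := E') (fun n G X y => HhC (SP n G) (κ n (f n y)) (i n (f n y)) (P n G X (f n y)) (v n y) (w n y)) := by
  have hπ : Tm (fun n (y : (((E' n × S n) × S n) × S n) × S n) => y.1.1.1.1) :=
    Tm.fst (Tm.fst (Tm.fst (Tm.fst Tm.id)))
  have hf5 : Tm (fun n (y : (((E' n × S n) × S n) × S n) × S n) => f n y.1.1.1.1) := hf.comp hπ
  have hv5 : Tm (F := fun n => Fin n) (fun n (y : (((E' n × S n) × S n) × S n) × S n) => v n y.1.1.1.1) := hv.comp hπ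
  have hw5 : Tm (F := fun n => Fin n) (fun n (y : (((E' n × S n) × S n) × S n) × S n) => w n y.1.1.1.1) := hw.comp hπ
  have x1 : Tm (fun n (y : (((E' n × S n) × S n) × S n) × S n) => y.1.1.1.2) := Tm.snd (Tm.fst (Tm.fst (Tm.fst Tm.id)))
  have x2 : Tm (fun n (y : (((E' n × S n) × S n) × S n) × S n) => y.1.1.2) := Tm.snd (Tm.fst (Tm.fst Tm.id))
  have x3 : Tm (fun n (y : (((E' n × S n) × S n) × S n) × S n) => y.1.2) := Tm.snd (Tm.fst Tm.id)
  have x4 : Tm (fun n (y : (((E' n × S n) × S n) × S n) × S n) => y.2) := Tm.snd Tm.id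
  have h := DefP.and (D3_lw (E' := fun n => (((E' n × S n) × S n) × S n) × S n) hP hκ hi hf5 hv5 hw5 x1)
    (DefP.and (D3_lw (E' := fun n => (((E' n × S n) × S n) × S n) × S n) hP hκ hi hf5 hv5 hv5 x2)
    (DefP.and (D3_uv (E' := fun n => (((E' n × S n) × S n) × S n) × S n) hP hκ hi hf5 hv5 hw5 x3)
    (DefP.and (DefP.nAdd x3 x3 x4) (DefP.nAdd x1 x4 x2))))
  exact DefP.ex (F := S) (P := fun n G X (y : E' n) c1 => ∃ c0 u s1 : S n, LwC (SP n G) (κ n (f n y)) (i n (f n y)) (P n G X (f n y)) (v n y) (w n y) c1 ∧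
      LwC (SP n G) (κ n (f n y)) (i n (f n y)) (P n G X (f n y)) (v n y) (v n y) c0 ∧ UvC (SP n G) (κ n (f n y)) (i n (f n y)) (P n G X (f n y)) (v n y) (w n y) u ∧
      nv u + nv u = nv s1 ∧ nv c1 + nv s1 = nv c0)
    (DefP.ex (F := S) (P := fun n G X (y : E' n × S n) c0 => ∃ u s1 : S n,
      LwC (SP n G) (κ n (f n y.1)) (i n (f n y.1)) (P n G X (f n y.1)) (v n y.1) (w n y.1) y.2 ∧
      LwC (SP n G) (κ n (f n y.1)) (i n (f n y.1)) (P n G X (f n y.1)) (v n y.1) (v n y.1) c0 ∧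
      UvC (SP n G) (κ n (f n y.1)) (i n (f n y.1)) (P n G X (f n y.1)) (v n y.1) (w n y.1) u ∧
      nv u + nv u = nv s1 ∧ nv y.2 + nv s1 = nv c0)
    (DefP.ex (F := S) (P := fun n G X (y : (E' n × S n) × S n) u => ∃ s1 : S n,
      LwC (SP n G) (κ n (f n y.1.1)) (i n (f n y.1.1)) (P n G X (f n y.1.1)) (v n y.1.1) (w n y.1.1) y.1.2 ∧
      LwC (SP n G) (κ n (f n y.1.1)) (i n (f n y.1.1)) (P n G X (f n y.1.1)) (v n y.1.1) (v n y.1.1) y.2 ∧
      UvC (SP n G) (κ n (f n y.1.1)) (i n (f n y.1.1)) (P n G X (f n y.1.1)) (v n y.1.1) (w n y.1.1) u ∧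
      nv u + nv u = nv s1 ∧ nv y.1.2 + nv s1 = nv y.2)
    (DefP.ex (F := S) (P := fun n G X (y : ((E' n × S n) × S n) × S n) s1 =>
      LwC (SP n G) (κ n (f n y.1.1.1)) (i n (f n y.1.1.1)) (P n G X (f n y.1.1.1)) (v n y.1.1.1) (w n y.1.1.1) y.1.1.2 ∧
      LwC (SP n G) (κ n (f n y.1.1.1)) (i n (f n y.1.1.1)) (P n G X (f n y.1.1.1)) (v n y.1.1.1) (v n y.1.1.1) y.1.2 ∧
      UvC (SP n G) (κ n (f n y.1.1.1)) (i n (f n y.1.1.1)) (P n G X (f n y.1.1.1)) (v n y.1.1.1) (w n y.1.1.1) y.2 ∧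
      nv y.2 + nv y.2 = nv s1 ∧ nv y.1.1.2 + nv s1 = nv y.1.2) h)))

private theorem D3_card {A : ∀ n : ℕ, SimpleGraph (Fin n) → Ctx n → E n → S n → Prop}
    (hA : DefP (E := fun n => E n × S n) (fun n G X y => A n G X y.1 y.2)) {g : ∀ n : ℕ, E n → S n} (hg : Tm g) :
    DefP (fun n G X x => nv (g n x) = Nat.card {d : S n // A n G X x d}) :=
  DefP.cardEq (S := S) (T := S) (A := fun n G X x t => key t < key (g n x)) (B := A)
    (DefP.keyLt (Tm.snd (F := E) (H := S) Tm.id) (hg.comp (Tm.fst (F := E) (H := S) Tm.id))) hA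

theorem def_StC {P : ∀ n : ℕ, SimpleGraph (Fin n) → Ctx n → E n → Fin n → Fin n → S n → Prop}
    (hP : DefP (E := fun n => E n × (Fin n × (Fin n × S n))) (fun n G X y => P n G X y.1 y.2.1 y.2.2.1 y.2.2.2))
    {κ : ∀ n : ℕ, E n → Pq S n} (hκ : Tm (F := fun n => Pq S n) κ) {i x y : ∀ n : ℕ, E n → Fin n} (hi : Tm (F := fun n => Fin n) i)
    (hx : Tm (F := fun n => Fin n) x) (hy : Tm (F := fun n => Fin n) y) {z : ∀ n : ℕ, E n → S n} (hz : Tm z) :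
    DefP (fun n G X e => QLN.StC (SP n G) (κ n e) (i n e) (P n G X e) (x n e) (y n e) (z n e)) := by
  have hP' : DefP (E := fun n => E n × (Fin n × (Fin n × S n)))
      (fun n G X y => PnC (SP n G) (κ n y.1) (i n y.1) (P n G X y.1) y.2.1 y.2.2.1 y.2.2.2) :=
    DefP.and (D3_hh (E' := fun n => E n × (Fin n × (Fin n × S n))) (f := fun n y => y.1) hP hκ hi (Tm.fst Tm.id)
      (Tm.fst (Tm.snd Tm.id)) (Tm.fst (Tm.snd (Tm.snd Tm.id)))) hP
  have hf0 : Tm (fun n (y : E n) => y) := Tm.id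
  have hH := D3_hh (E' := E) hP hκ hi hf0 hx hy
  -- the environment of the cardinality
  have g1 : Tm (fun n (y : E n × S n) => y.1) := Tm.fst Tm.id
  have d1 : Tm (fun n (y : E n × S n) => y.2) := Tm.snd Tm.id
  have g2 : Tm (fun n (y : (E n × S n) × S n) => y.1.1) := g1.comp (Tm.fst Tm.id)
  have x2 : Tm (F := fun n => Fin n) (fun n (y : (E n × S n) × S n) => x n y.1.1) := hx.comp g2
  have y2 : Tm (F := fun n => Fin n) (fun n (y' : (E n × S n) × S n) => y n y'.1.1) := hy.comp g2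
  have d2 : Tm (fun n (y : (E n × S n) × S n) => y.1.2) := d1.comp (Tm.fst Tm.id)
  have e2 : Tm (fun n (y : (E n × S n) × S n) => y.2) := Tm.snd Tm.id
  have k1 := DefP.ex (F := S) (P := fun n G X (y' : E n × S n) (d' : S n) =>
      FvC (SP n G) (κ n y'.1) (i n y'.1) (PnC (SP n G) (κ n y'.1) (i n y'.1) (P n G X y'.1)) (x n y'.1) (y n y'.1) d' ∧ nv y'.2 < nv d')
    (DefP.and (D3_fv (P := fun n G X e => PnC (SP n G) (κ n e) (i n e) (P n G X e)) (E' := fun n => (E n × S n) × S n) hP' hκ hi g2 x2 y2 e2) (DefP.nLt d2 e2))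
  have g3 : Tm (fun n (y : ((E n × S n) × Fin n) × Fin n) => y.1.1.1) := g1.comp (Tm.fst (Tm.fst Tm.id))
  have x3 : Tm (F := fun n => Fin n) (fun n (y : ((E n × S n) × Fin n) × Fin n) => y.1.2) := Tm.snd (Tm.fst Tm.id)
  have y3 : Tm (F := fun n => Fin n) (fun n (y : ((E n × S n) × Fin n) × Fin n) => y.2) := Tm.snd Tm.id
  have d3 : Tm (fun n (y : ((E n × S n) × Fin n) × Fin n) => y.1.1.2) := d1.comp (Tm.fst (Tm.fst Tm.id))
  have k2 := DefP.exFin (P := fun n G X (y' : E n × S n) (v : Fin n) => ∃ w : Fin n,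
      HhC (SP n G) (κ n y'.1) (i n y'.1) (P n G X y'.1) v w ∧ FvC (SP n G) (κ n y'.1) (i n y'.1) (PnC (SP n G) (κ n y'.1) (i n y'.1) (P n G X y'.1)) v w y'.2)
    (DefP.exFin (P := fun n G X (y' : (E n × S n) × Fin n) (w : Fin n) =>
      HhC (SP n G) (κ n y'.1.1) (i n y'.1.1) (P n G X y'.1.1) y'.2 w ∧ FvC (SP n G) (κ n y'.1.1) (i n y'.1.1) (PnC (SP n G) (κ n y'.1.1) (i n y'.1.1) (P n G X y'.1.1)) y'.2 w y'.1.2)
      (DefP.and (D3_hh (E' := fun n => ((E n × S n) × Fin n) × Fin n) hP hκ hi g3 x3 y3)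
        (D3_fv (P := fun n G X e => PnC (SP n G) (κ n e) (i n e) (P n G X e)) (E' := fun n => ((E n × S n) × Fin n) × Fin n) hP' hκ hi g3 x3 y3 d3)))
  exact DefP.and hH (D3_card (A := fun n G X e d => (∃ x' y' : Fin n, HhC (SP n G) (κ n e) (i n e) (P n G X e) x' y' ∧
      FvC (SP n G) (κ n e) (i n e) (PnC (SP n G) (κ n e) (i n e) (P n G X e)) x' y' d) ∧
      ∃ d' : S n, FvC (SP n G) (κ n e) (i n e) (PnC (SP n G) (κ n e) (i n e) (P n G X e)) (x n e) (y n e) d' ∧ nv d < nv d') (DefP.and k2 k1) hz)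

end

end QLN
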