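import Pool.Agent.Lib.MP_0087d5_lcQN.F2

/-!
# Leaf F3 (medium-): few bad sources for all the graphs which agree outside `W`

Proof. `c0, n0, D` from `src_count hW k` (leaf F2); `c = c0 + 6` or so. For `n ≥ n0`: `m` from `src_count`, `r0` from `hsp (n + n) _ m _ _`. If `A` is in the set of the statement, take `G'`, `j`; `T = TK n j G'` has a perfect matching, `H = HH T.Adj (ω0 m r0)`, and `A` is in the set of `src_count` for this `H` (with `SP (n + n) (pair G' A) = SP (n + n) (pair G A)`,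
`SP_congr`). `H` is symmetric, irreflexive and has a perfect matching (`stp_ok`, leaf K1; `ω0` is symmetric). For each of the `(n + n) + (n + n) ^ 2` choices of `j` the number of the `H` is at most `2 ^ bd W.card` (`hsp` with `T0 = (TK n j G).Adj`, `W.map (Fin.castAddEmb n)`, which has `W.card` elements; `tk_off`, leaf F0).
Union bound; `(n + n) + (n + n) ^ 2 ≤ 2 ^ (6 * Nat.log 2 n) ≤ 2 ^ (6 * Nat.log 2 n ^ 2)`.
-/

set_option autoImplicit false
set_option linter.all false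

namespace QLN

open Finset Pool.Agent Pool.Agent.PMNC MTC LIN PRS QRB QSR

private theorem F3_card {α J Hh : Type} [Finite α] [Fintype J] [Finite Hh] {E : α → Prop} (P : J → Hh → Prop)
    (B : Hh → α → Prop) (a b c : ℕ) (hJ : Fintype.card J ≤ a) (hP : ∀ j, Nat.card {H // P j H} ≤ b)
    (hB : ∀ j H, P j H → Nat.card {A // B H A} ≤ c) (h : ∀ A, E A → ∃ j H, P j H ∧ B H A) :
    Nat.card {A // E A} ≤ a * (b * c) := by
  classical
  have h0 : ∀ A : {A // E A}, ∃ j H, P j H ∧ B H A.1 := fun A => h A.1 A.2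
  choose j H h1 h2 using h0
  let f : {A // E A} → Σ j : J, Σ H : {H // P j H}, {A // B H.1 A} := fun A => ⟨j A, ⟨H A, h1 A⟩, A.1, h2 A⟩
  have hf : Function.Injective f := fun A A' e =>
    Subtype.ext (congrArg (fun s : (Σ j : J, Σ H : {H // P j H}, {A // B H.1 A}) => s.2.2.1) e)
  refine (Nat.card_le_card_of_injective f hf).trans ?_
  rw [Nat.card_sigma]
  have h3 : ∀ j : J, Nat.card (Σ H : {H // P j H}, {A // B H.1 A}) ≤ b * c := by
    intro j
    have : Fintype {H // P j H} := Fintype.ofFinite _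
    rw [Nat.card_sigma]
    refine (Finset.sum_le_card_nsmul _ _ c fun H _ => hB j H.1 H.2).trans ?_
    rw [smul_eq_mul, Finset.card_univ, ← Nat.card_eq_fintype_card]
    exact Nat.mul_le_mul_right c (hP j)
  refine (Finset.sum_le_card_nsmul _ _ (b * c) fun j _ => h3 j).trans ?_
  rw [smul_eq_mul, Finset.card_univ]
  exact Nat.mul_le_mul_right _ hJ

private theorem F3_num (n : ℕ) (hn : 64 ≤ n) : (n + n) + (n + n) * (n + n) ≤ 2 ^ (6 * Nat.log 2 n ^ 2) := by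
  have h1 : n < 2 ^ (Nat.log 2 n + 1) := Nat.lt_pow_succ_log_self (by norm_num) n
  have h2 : 6 ≤ Nat.log 2 n := by
    have h3 : Nat.log 2 64 ≤ Nat.log 2 n := Nat.log_mono_right hn
    have h4 : Nat.log 2 64 = 6 := by
      have h5 : (64 : ℕ) = 2 ^ 6 := by norm_num
      rw [h5, Nat.log_pow (by norm_num)]
    omega
  generalize Nat.log 2 n = L at h1 h2
  have h3 : (n + n) + (n + n) * (n + n) ≤ 8 * (2 ^ (L + 1) * 2 ^ (L + 1)) := by
    have h4 : n * n ≤ 2 ^ (L + 1) * 2 ^ (L + 1) := Nat.mul_le_mul h1.le h1.le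
    nlinarith
  refine h3.trans ?_
  have h5 : 8 * (2 ^ (L + 1) * 2 ^ (L + 1)) = 2 ^ (2 * L + 5) := by
    rw [← pow_add, show (8 : ℕ) = 2 ^ 3 by norm_num, ← pow_add]
    congr 1
    omega
  rw [h5]
  exact Nat.pow_le_pow_right (by norm_num) (by nlinarith)

theorem exc_count {C k : ℕ} {bd : ℕ → ℕ} (hW : IsoMostW C) (hsp : SpOK k bd) : ∃ c n0 D : ℕ, 2 ≤ n0 ∧ ∀ (S : ℕ → Type) [Env S] [∀ n, Fintype (S n)], D ≤ dim S →
    ∀ n : ℕ, n0 ≤ n → ∀ (G : SimpleGraph (Fin n)) (W : Finset (Fin n)),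
      Nat.card {A : SimpleGraph (Fin n) // ∃ G' : SimpleGraph (Fin n), Off W G G' ∧ ∃ j, HasPM (TK n j G') ∧
        ¬ ∃ κ : Pq S (n + n), PMr (QLN.OutR (SP (n + n) (pair G' A)) (TK n j G') κ)} ≤ 2 ^ (c * Nat.log 2 n ^ 2 + bd W.card) := by
  classical
  obtain ⟨c0, n0, D, h64, hsrc⟩ := src_count hW k
  refine ⟨c0 + 6, n0, D, by omega, fun S _ _ hD n hn G W => ?_⟩
  obtain ⟨m, hm, hmk, hsrc'⟩ := hsrc S hD n hn
  obtain ⟨r0, hr0, hsp'⟩ := hsp (n + n) (by omega) m hm hmk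
  have hω : ∀ x y : Fin (n + n), ω0 m r0 x y = ω0 m r0 y x := by
    intro x y
    unfold ω0
    rw [PMNC.eid_comm]
  have h1 := F3_card (α := SimpleGraph (Fin n)) (J := Fin (n + n) ⊕ (Fin (n + n) × Fin (n + n)))
    (E := fun A => ∃ G' : SimpleGraph (Fin n), Off W G G' ∧ ∃ j, HasPM (TK n j G') ∧
        ¬ ∃ κ : Pq S (n + n), PMr (QLN.OutR (SP (n + n) (pair G' A)) (TK n j G') κ))
    (fun j (H : Fin (n + n) → Fin (n + n) → Prop) => ∃ T : Fin (n + n) → Fin (n + n) → Prop, (∀ x y, T x y → T y x) ∧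
      (∀ x, ¬ T x x) ∧ (∃ f, MTC.IsPM T f) ∧
      (∀ x y, ¬ (x ∈ W.map (Fin.castAddEmb n) ∧ y ∈ W.map (Fin.castAddEmb n)) → (T x y ↔ (TK n j G).Adj x y)) ∧
      H = HH T (ω0 m r0))
    (fun H A => ∃ T : SimpleGraph (Fin (n + n)), (∃ f, MTC.IsPM T.Adj f) ∧ HH T.Adj (ω0 m r0) = H ∧
          ¬ ∃ κ : Pq S (n + n), PMr (QLN.OutR (SP (n + n) (pair G A)) T κ))
    (2 ^ (6 * Nat.log 2 n ^ 2)) (2 ^ bd W.card) (2 ^ (c0 * Nat.log 2 n ^ 2)) ?_ ?_ ?_ ?_
  · refine h1.trans (le_of_eq ?_)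
    rw [← pow_add, ← pow_add]
    congr 1
    ring
  · rw [Fintype.card_sum, Fintype.card_prod, Fintype.card_fin]
    exact F3_num n (h64.trans hn)
  · intro j
    have h2 := hsp' (TK n j G).Adj (W.map (Fin.castAddEmb n))
    rw [Finset.card_map] at h2
    exact h2
  · rintro j H ⟨T, h2, h3, h4, -, rfl⟩
    obtain ⟨-, h5, h6, h7, -⟩ := stp_ok T h2 h3 (ω0 m r0) hω h4
    exact hsrc' r0 hr0 _ h6 (fun x hx => h3 x (h5 x x hx)) h7 G
  · rintro A ⟨G', hO, j, hj, hκ⟩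
    obtain ⟨f, hf1, hf2⟩ := hasPM_iff.1 hj
    have hf : MTC.IsPM (TK n j G').Adj f := ⟨hf1, hf2⟩
    refine ⟨j, HH (TK n j G').Adj (ω0 m r0), ⟨(TK n j G').Adj, fun x y h => h.symm, fun x => SimpleGraph.irrefl _,
      ⟨f, hf⟩, fun x y hxy => tk_off W G G' hO j x y hxy, rfl⟩, TK n j G', ⟨f, hf⟩, rfl, ?_⟩
    rw [SP_congr G G' A]
    exact hκ

end QLN
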