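import Pool.Agent.Lib.MP_0087d5_lcQN.F3
import Pool.Agent.Lib.MP_0087d5_lcQN.F1
import Pool.Agent.Lib.MP_0087d5_lcQN.D5
import Pool.Agent.Lib.MP_0087d5_lcPR.SFin

/-!
# Leaf F4 (medium-): assembly

Proof. As leaf F2 of MP_0087d5_lcQS (`QSR.search`, by helper79): `exc_count` (leaf F3) gives `c, n0, D`; `exists_SS D` gives `S`. `M n G A` = the graph with `Adj u v := MQ S (pair G A) (castAdd u) (castAdd v)` (`mq_matching`, leaf F1), `U n G A := {w | UQ S (pair G A) (castAdd w)}`. Circuits: `bridgeR (rel2_of_defP …)`,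
`bridgeR (rel1_of_defP …)` with `def_MQ`, `def_UQ` (leaf D5). If the equation fails for `(G', A)`, then by `odd_eq` and `mq_main` (leaf F1) some tested graph has a perfect matching and no good `κ` (`tk_inl`, `tk_inr`, leaf F0). For `n < n0`: `n ≤ 1`: there is only one graph, so the left side is at most `1`; `2 ≤ n < n0`: the number of all graphs on
`n` vertices is at most `2 ^ (n ^ 2) ≤ 2 ^ (n0 ^ 2 * Nat.log 2 n ^ 2)`. `C' = c + n0 ^ 2`.
-/

set_option autoImplicit false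
set_option linter.all false

namespace QLN

open Finset Pool.Agent Pool.Agent.PMNC MTC LIN PRS QRB QSR

/-- the matching -/
private def F4_M (S : ℕ → Type) [Env S] [∀ n, Fintype (S n)] (n : ℕ) (G A : SimpleGraph (Fin n)) : SimpleGraph (Fin n) where
  Adj u v := QLN.MQ S (pair G A) (Fin.castAdd n u) (Fin.castAdd n v)
  symm := ⟨fun u v h => (mq_matching G A).2.1 u v h⟩
  loopless := ⟨fun u h => G.irrefl ((mq_matching G A).1 u u h)⟩

/-- the set -/
private def F4_U (S : ℕ → Type) [Env S] [∀ n, Fintype (S n)] (n : ℕ) (G A : SimpleGraph (Fin n)) : Set (Fin n) :=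
  {w | QLN.UQ S (pair G A) (Fin.castAdd n w)}

private theorem F4_all (n : ℕ) : Nat.card (SimpleGraph (Fin n)) ≤ 2 ^ (n ^ 2) := by
  classical
  have h1 := Nat.card_le_card_of_injective (fun G : SimpleGraph (Fin n) => {p : Fin n × Fin n | G.Adj p.1 p.2}) (by
    intro G H h
    ext u v
    have h2 : (u, v) ∈ {p : Fin n × Fin n | G.Adj p.1 p.2} ↔ (u, v) ∈ {p : Fin n × Fin n | H.Adj p.1 p.2} := by
      have h3 : {p : Fin n × Fin n | G.Adj p.1 p.2} = {p : Fin n × Fin n | H.Adj p.1 p.2} := h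
      rw [h3]
    exact h2)
  rw [Nat.card_eq_fintype_card (α := Set (Fin n × Fin n)), Fintype.card_set, Fintype.card_prod, Fintype.card_fin] at h1
  rw [pow_two]
  exact h1

private theorem F4_eq {S : ℕ → Type} [Env S] [∀ n, Fintype (S n)] {n : ℕ} (hn : 1 ≤ n) (G A : SimpleGraph (Fin n))
    (h : ¬ ∃ j, HasPM (TK n j G) ∧ ¬ ∃ κ : Pq S (n + n), PMr (QLN.OutR (SP (n + n) (pair G A)) (TK n j G) κ)) :
    ((⊤ : G.Subgraph).deleteVerts (F4_U S n G A)).coe.oddComponents.ncard =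
      (F4_U S n G A).ncard + {v | ∀ w, ¬ (F4_M S n G A).Adj v w}.ncard := by
  push Not at h
  rw [← odd_eq]
  have h1 := mq_main (S := S) hn G A (fun d hd => by
      have h2 := h (Sum.inl d)
      rw [tk_inl G A] at h2
      exact h2 hd) (fun d v hd => by
      have h2 := h (Sum.inr (d, v))
      rw [tk_inr G A] at h2
      exact h2 hd)
  exact h1

theorem main {C k : ℕ} {bd : ℕ → ℕ} (hW : IsoMostW C) (hsp : SpOK k bd) :
    ∃ (M : ∀ n : ℕ, SimpleGraph (Fin n) → SimpleGraph (Fin n) → SimpleGraph (Fin n)) (U : ∀ n : ℕ, SimpleGraph (Fin n) → SimpleGraph (Fin n) → Set (Fin n)) (C' : ℕ),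
    AUG.RelNC2 2 (fun n G A x => (M n G A).Adj (x 0) (x 1)) ∧ AUG.RelNC2 1 (fun n G A x => x 0 ∈ U n G A) ∧
    (∀ (n : ℕ) (G A : SimpleGraph (Fin n)), M n G A ≤ G ∧ ∀ u v w, (M n G A).Adj u v → (M n G A).Adj u w → v = w) ∧
    ∀ (n : ℕ) (G : SimpleGraph (Fin n)) (W : Finset (Fin n)),
      Nat.card {A : SimpleGraph (Fin n) // ∃ G' : SimpleGraph (Fin n), (∀ u v, ¬ (u ∈ W ∧ v ∈ W) → (G'.Adj u v ↔ G.Adj u v)) ∧
        ((⊤ : G'.Subgraph).deleteVerts (U n G' A)).coe.oddComponents.ncard ≠ (U n G' A).ncard + {v | ∀ w, ¬ (M n G' A).Adj v w}.ncard} ≤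
      2 ^ (C' * Nat.log 2 n ^ 2 + bd W.card) := by
  classical
  obtain ⟨c, n0, D, hn0, hexc⟩ := exc_count hW hsp
  obtain ⟨S, i1, i2, hS⟩ := exists_SS D
  refine ⟨F4_M S, F4_U S, c + n0 ^ 2, ?_, ?_, ?_, ?_⟩
  · exact bridgeR (rel2_of_defP (P := fun n G u v => QLN.MQ S G u v) def_MQ)
  · exact bridgeR (rel1_of_defP (P := fun n G u => QLN.UQ S G u) def_UQ)
  · intro n G A
    exact ⟨fun u v h => (mq_matching G A).1 u v h, fun u v w h1 h2 => (mq_matching G A).2.2 u v w h1 h2⟩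
  · intro n G W
    rcases Nat.lt_or_ge n n0 with hn | hn
    · rcases Nat.lt_or_ge 1 n with hn1 | hn1
      · have hL : 1 ≤ Nat.log 2 n := Nat.log_pos (by norm_num) (by omega)
        have h1 : Nat.card {A : SimpleGraph (Fin n) // ∃ G' : SimpleGraph (Fin n), (∀ u v, ¬ (u ∈ W ∧ v ∈ W) → (G'.Adj u v ↔ G.Adj u v)) ∧
            ((⊤ : G'.Subgraph).deleteVerts (F4_U S n G' A)).coe.oddComponents.ncard ≠
              (F4_U S n G' A).ncard + {v | ∀ w, ¬ (F4_M S n G' A).Adj v w}.ncard} ≤ Nat.card (SimpleGraph (Fin n)) :=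
          Nat.card_le_card_of_injective (fun A => A.1) Subtype.val_injective
        refine (h1.trans (F4_all n)).trans (Nat.pow_le_pow_right (by norm_num) ?_)
        have h2 : n ^ 2 ≤ n0 ^ 2 := Nat.pow_le_pow_left hn.le 2
        have h3 : n0 ^ 2 * 1 ≤ n0 ^ 2 * Nat.log 2 n ^ 2 := Nat.mul_le_mul_left _ (Nat.one_le_pow _ _ (by omega))
        have h4 : (c + n0 ^ 2) * Nat.log 2 n ^ 2 = c * Nat.log 2 n ^ 2 + n0 ^ 2 * Nat.log 2 n ^ 2 := by ring
        omega
      · have h1 : Subsingleton (SimpleGraph (Fin n)) := by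
          have : Subsingleton (Fin n) := by
            rcases Nat.le_one_iff_eq_zero_or_eq_one.1 hn1 with rfl | rfl <;> infer_instance
          refine ⟨fun G H => ?_⟩
          ext u v
          have huv : u = v := Subsingleton.elim u v
          subst huv
          exact ⟨fun h => absurd h G.irrefl, fun h => absurd h H.irrefl⟩
        have h2 : ∀ P : SimpleGraph (Fin n) → Prop, Nat.card {A : SimpleGraph (Fin n) // P A} ≤ 1 := by
          intro P
          exact Finite.card_le_one_iff_subsingleton.2 ⟨fun a b => Subtype.ext (Subsingleton.elim _ _)⟩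
        exact (h2 _).trans Nat.one_le_two_pow
    · have h1 := hexc S (le_of_eq hS.symm) n hn G W
      have h2 : 2 ^ (c * Nat.log 2 n ^ 2 + bd W.card) ≤ 2 ^ ((c + n0 ^ 2) * Nat.log 2 n ^ 2 + bd W.card) := by
        refine Nat.pow_le_pow_right (by norm_num) (Nat.add_le_add_right (Nat.mul_le_mul_right _ (Nat.le_add_right _ _)) _)
      refine le_trans ?_ (h1.trans h2)
      refine Nat.card_le_card_of_injective (fun A : {A : SimpleGraph (Fin n) // ∃ G' : SimpleGraph (Fin n), (∀ u v, ¬ (u ∈ W ∧ v ∈ W) → (G'.Adj u v ↔ G.Adj u v)) ∧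
            ((⊤ : G'.Subgraph).deleteVerts (F4_U S n G' A)).coe.oddComponents.ncard ≠
              (F4_U S n G' A).ncard + {v | ∀ w, ¬ (F4_M S n G' A).Adj v w}.ncard} =>
          (⟨A.1, ?_⟩ : {A : SimpleGraph (Fin n) // ∃ G' : SimpleGraph (Fin n), Off W G G' ∧ ∃ j, HasPM (TK n j G') ∧
        ¬ ∃ κ : Pq S (n + n), PMr (QLN.OutR (SP (n + n) (pair G' A)) (TK n j G') κ)})) ?_
      · obtain ⟨G', hG', hne⟩ := A.2
        refine ⟨G', hG', ?_⟩
        by_contra hc
        exact hne (F4_eq (by omega) G' A.1 hc)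
      · intro a b hab
        have h := congrArg (fun z => z.1) hab
        exact Subtype.ext h

end QLN
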