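import Pool.Agent.Lib.MP_0087d5_lcQI.Stg

/-!
# Weights `r0 ^ e u v % m` without short relations

For a prime `m > N ^ (24 k + 3)` there is `r0 < m` such that no relation with coefficients in `{-1, 0, 1}` holds between the weights
`r0 ^ e u v % m` of at most `2 k` pairs: such a relation gives a polynomial of degree less than `N ^ 2` which is not zero modulo `m` and has
the zero `r0`, and there are at most `(N ^ 2 + 1) ^ (8 k)` relations.
-/

set_option autoImplicit false

namespace QLN

open Finset MTC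

private theorem R0_small {X : Type} [DecidableEq X] (S : Finset X) (m : ℕ) :
    (S.powerset.filter fun T => T.card ≤ m).card ≤ (S.card + 1) ^ m := by
  induction m with
  | zero =>
    have h1 : (S.powerset.filter fun T => T.card ≤ 0) ⊆ {∅} := by
      intro T hT
      rw [mem_filter] at hT
      rw [mem_singleton]
      exact card_eq_zero.1 (Nat.le_zero.1 hT.2)
    have h2 := card_le_card h1
    rwa [card_singleton] at h2
  | succ m ih =>
    have h1 : (S.powerset.filter fun T => T.card ≤ m + 1) ⊆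
        ((S.powerset.filter fun T => T.card ≤ m) ×ˢ insert none (S.image some)).image
          fun q => q.2.elim q.1 fun x => insert x q.1 := by
      intro T hT
      rw [mem_filter, mem_powerset] at hT
      rw [mem_image]
      rcases T.eq_empty_or_nonempty with rfl | ⟨x, hx⟩
      · refine ⟨(∅, none), ?_, rfl⟩
        rw [mem_product, mem_filter, mem_powerset]
        exact ⟨⟨empty_subset S, by rw [card_empty]; exact Nat.zero_le m⟩, mem_insert_self _ _⟩
      · refine ⟨(T.erase x, some x), ?_, ?_⟩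
        · rw [mem_product, mem_filter, mem_powerset]
          refine ⟨⟨(erase_subset x T).trans hT.1, ?_⟩, ?_⟩
          · rw [card_erase_of_mem hx]
            have := hT.2
            show T.card - 1 ≤ m
            omega
          · exact mem_insert_of_mem (mem_image.2 ⟨x, hT.1 hx, rfl⟩)
        · exact insert_erase hx
    refine (card_le_card h1).trans (card_image_le.trans ?_)
    rw [card_product, pow_succ]
    refine Nat.mul_le_mul ih ((card_insert_le _ _).trans ?_)
    exact Nat.succ_le_succ card_image_le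

section
variable {V : Type} [Fintype V] [DecidableEq V]

/-- the polynomial of a relation -/
private noncomputable def R0_P (m : ℕ) (e : V → V → ℕ) (v : V → V → ℤ) : Polynomial (ZMod m) :=
  ∑ q : V × V, Polynomial.C ((v q.1 q.2 : ℤ) : ZMod m) * Polynomial.X ^ e q.1 q.2

private theorem R0_ne {N m : ℕ} (hm : 2 < m) {e : V → V → ℕ} (he : QIS.Lab N e) {v : V → V → ℤ}
    (h1 : ∀ a b, v a b = v b a) (h2 : ∀ a, v a a = 0) (h3 : ∀ a b, v a b = 0 ∨ v a b = 1 ∨ v a b = -1)
    (h4 : v ≠ 0) : R0_P m e v ≠ 0 := by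
  obtain ⟨a, b, hab⟩ : ∃ a b, v a b ≠ 0 := by
    by_contra h
    push Not at h
    exact h4 (funext fun a => funext fun b => h a b)
  have hne : a ≠ b := by
    rintro rfl
    exact hab (h2 a)
  intro h0
  have h5 := congrArg (fun P => Polynomial.coeff P (e a b)) h0
  simp only [R0_P, Polynomial.finsetSum_coeff, Polynomial.coeff_C_mul_X_pow, Polynomial.coeff_zero] at h5
  rw [← sum_filter] at h5
  have h6 : (univ.filter fun q : V × V => e a b = e q.1 q.2) = {(a, b), (b, a)} := by
    ext q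
    rw [mem_filter, mem_insert, mem_singleton]
    constructor
    · rintro ⟨-, h⟩
      rcases he.2.1 a b q.1 q.2 hne h with ⟨h7, h8⟩ | ⟨h7, h8⟩
      · exact Or.inl (Prod.ext h7.symm h8.symm)
      · exact Or.inr (Prod.ext h8.symm h7.symm)
    · rintro (rfl | rfl)
      · exact ⟨mem_univ _, rfl⟩
      · exact ⟨mem_univ _, he.1 a b⟩
  rw [h6, sum_pair (fun h => hne (Prod.mk.inj h).1)] at h5
  dsimp only at h5
  rw [h1 b a, ← Int.cast_add] at h5
  have h7 := (ZMod.intCast_zmod_eq_zero_iff_dvd _ _).1 h5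
  rcases h3 a b with h8 | h8 | h8
  · exact hab h8
  · rw [h8] at h7
    have h9 := Int.le_of_dvd (by norm_num) h7
    omega
  · rw [h8] at h7
    have h9 : (m : ℤ) ∣ 2 := by
      have h10 := dvd_neg.2 h7
      norm_num at h10
      exact h10
    have h10 := Int.le_of_dvd (by norm_num) h9
    omega

private theorem R0_deg {N m : ℕ} {e : V → V → ℕ} (he : QIS.Lab N e) (v : V → V → ℤ) :
    (R0_P m e v).natDegree ≤ N ^ 2 := by
  unfold R0_P
  refine Polynomial.natDegree_sum_le_of_forall_le _ _ fun q _ => ?_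
  exact (Polynomial.natDegree_C_mul_X_pow_le _ _).trans (he.2.2 q.1 q.2).le

private theorem R0_root {m : ℕ} [NeZero m] {e : V → V → ℕ} {v : V → V → ℤ} {r : ℕ}
    (h : ∑ a, ∑ b, ((r ^ e a b % m : ℕ) : ℤ) * v a b = 0) :
    (R0_P m e v).IsRoot (r : ZMod m) := by
  have h1 := congrArg (fun z : ℤ => (z : ZMod m)) h
  simp only [Int.cast_sum, Int.cast_mul, Int.cast_natCast, ZMod.natCast_mod, Nat.cast_pow, Int.cast_zero] at h1
  show Polynomial.eval (r : ZMod m) (R0_P m e v) = 0
  unfold R0_P
  rw [Polynomial.eval_finsetSum, Fintype.sum_prod_type, ← h1]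
  refine sum_congr rfl fun a _ => sum_congr rfl fun b _ => ?_
  rw [Polynomial.eval_mul, Polynomial.eval_C, Polynomial.eval_pow, Polynomial.eval_X, mul_comm]

open Classical in
/-- **One number without short relations.** -/
theorem diss_exists {N : ℕ} (hV : Fintype.card V = N) (hN : 2 ≤ N) (k : ℕ) {e : V → V → ℕ} (he : QIS.Lab N e)
    {m : ℕ} (hm : m.Prime) (hmk : N ^ (24 * k + 3) < m) : ∃ r < m, Diss (fun a b => r ^ e a b % m) k := by
  by_contra hcon
  have hN1 : 1 ≤ N := by omega
  have : Fact m.Prime := ⟨hm⟩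
  have hm2 : 2 < m := by
    refine lt_of_lt_of_le ?_ hmk.le
    calc 2 < 2 ^ 3 := by norm_num
      _ ≤ N ^ 3 := Nat.pow_le_pow_left hN 3
      _ ≤ N ^ (24 * k + 3) := Nat.pow_le_pow_right hN1 (by omega)
  have hbad : ∀ r : ℕ, ∃ v : V → V → ℤ, r < m → (∀ a b, v a b = v b a) ∧ (∀ a, v a a = 0) ∧
      (∀ a b, v a b = 0 ∨ v a b = 1 ∨ v a b = -1) ∧ v ≠ 0 ∧
      (univ.filter fun q : V × V => v q.1 q.2 ≠ 0).card ≤ 4 * k ∧
      ∑ a, ∑ b, ((r ^ e a b % m : ℕ) : ℤ) * v a b = 0 := by
    intro r
    by_cases hr : r < m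
    · have h1 : ¬ Diss (fun a b => r ^ e a b % m) k := fun h => hcon ⟨r, hr, h⟩
      unfold Diss at h1
      push Not at h1
      obtain ⟨v, a1, a2, a3, a4, a5, a6⟩ := h1
      exact ⟨v, fun _ => ⟨a1, a2, a3, a4, a5, a6⟩⟩
    · exact ⟨0, fun h => absurd h hr⟩
  choose v hv using hbad
  obtain ⟨f, hf⟩ : ∃ f : ℕ → Finset (V × V) × Finset (V × V), ∀ r, f r =
      (univ.filter fun q : V × V => v r q.1 q.2 = 1, univ.filter fun q : V × V => v r q.1 q.2 = -1) :=
    ⟨_, fun _ => rfl⟩
  have hS : Fintype.card (V × V) = N ^ 2 := by rw [Fintype.card_prod, hV, sq]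
  obtain ⟨sm, hsm⟩ : ∃ sm : Finset (Finset (V × V)), sm = (univ : Finset (V × V)).powerset.filter
      fun T => T.card ≤ 4 * k := ⟨_, rfl⟩
  have hsmc : sm.card ≤ (N ^ 2 + 1) ^ (4 * k) := by
    rw [hsm]
    have h1 := R0_small (univ : Finset (V × V)) (4 * k)
    rw [card_univ, hS] at h1
    exact h1
  have himg : (range m).image f ⊆ sm ×ˢ sm := by
    intro x hx
    obtain ⟨r, hr, rfl⟩ := mem_image.1 hx
    obtain ⟨a1, a2, a3, a4, a5, a6⟩ := hv r (mem_range.1 hr)
    rw [hf, hsm, mem_product, mem_filter, mem_filter, mem_powerset, mem_powerset]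
    refine ⟨⟨subset_univ _, (card_le_card fun q hq => ?_).trans a5⟩,
      ⟨subset_univ _, (card_le_card fun q hq => ?_).trans a5⟩⟩
    · rw [mem_filter] at hq ⊢
      exact ⟨hq.1, by rw [hq.2]; exact one_ne_zero⟩
    · rw [mem_filter] at hq ⊢
      exact ⟨hq.1, by rw [hq.2]; exact neg_ne_zero.2 one_ne_zero⟩
  have hfib : ∀ x ∈ (range m).image f, ((range m).filter fun r => f r = x).card ≤ N ^ 2 := by
    intro x hx
    obtain ⟨r0, hr0, rfl⟩ := mem_image.1 hx
    obtain ⟨a1, a2, a3, a4, a5, a6⟩ := hv r0 (mem_range.1 hr0)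
    have hP := R0_ne hm2 he a1 a2 a3 a4
    have hsame : ∀ r < m, f r = f r0 → v r = v r0 := by
      intro r hr hfr
      rw [hf, hf] at hfr
      obtain ⟨e1, e2⟩ := Prod.mk.inj hfr
      obtain ⟨-, -, b3, -⟩ := hv r hr
      funext a b
      have m1 : v r a b = 1 ↔ v r0 a b = 1 := by
        have h1 := Finset.ext_iff.1 e1 (a, b)
        simpa only [mem_filter, mem_univ, true_and] using h1
      have m2 : v r a b = -1 ↔ v r0 a b = -1 := by
        have h1 := Finset.ext_iff.1 e2 (a, b)
        simpa only [mem_filter, mem_univ, true_and] using h1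
      rcases b3 a b with h | h | h
      · rcases a3 a b with h' | h' | h'
        · rw [h, h']
        · rw [m1.2 h'] at h
          exact absurd h one_ne_zero
        · rw [m2.2 h'] at h
          exact absurd h (neg_ne_zero.2 one_ne_zero)
      · rw [h, m1.1 h]
      · rw [h, m2.1 h]
    have hc : ((range m).filter fun r => f r = f r0).card ≤ (R0_P m e (v r0)).roots.toFinset.card := by
      refine card_le_card_of_injOn (fun r : ℕ => (r : ZMod m)) ?_ ?_
      · intro r hr
        rw [mem_coe, mem_filter, mem_range] at hr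
        rw [mem_coe, Multiset.mem_toFinset, Polynomial.mem_roots hP]
        obtain ⟨-, -, -, -, -, b6⟩ := hv r hr.1
        have h1 := R0_root b6
        rwa [hsame r hr.1 hr.2] at h1
      · intro r hr r' hr' h
        rw [mem_coe, mem_filter, mem_range] at hr hr'
        have h1 := (ZMod.natCast_eq_natCast_iff' r r' m).1 h
        rwa [Nat.mod_eq_of_lt hr.1, Nat.mod_eq_of_lt hr'.1] at h1
    exact hc.trans ((Multiset.toFinset_card_le _).trans ((Polynomial.card_roots' _).trans (R0_deg he _)))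
  have htot := card_le_mul_card_image (range m) (N ^ 2) hfib
  rw [card_range] at htot
  have h1 : m ≤ N ^ 2 * ((N ^ 2 + 1) ^ (4 * k) * (N ^ 2 + 1) ^ (4 * k)) := by
    refine htot.trans (Nat.mul_le_mul_left _ ((card_le_card himg).trans ?_))
    rw [card_product]
    exact Nat.mul_le_mul hsmc hsmc
  have h2 : N ^ 2 + 1 ≤ N ^ 3 := by
    have h3 : 1 ≤ N ^ 2 := Nat.one_le_pow _ _ hN1
    calc N ^ 2 + 1 ≤ N ^ 2 * 2 := by omega
      _ ≤ N ^ 2 * N := Nat.mul_le_mul_left _ hN
      _ = N ^ 3 := by ring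
  have h3 : m ≤ N ^ (24 * k + 3) := by
    calc m ≤ N ^ 2 * ((N ^ 2 + 1) ^ (4 * k) * (N ^ 2 + 1) ^ (4 * k)) := h1
      _ ≤ N ^ 2 * ((N ^ 3) ^ (4 * k) * (N ^ 3) ^ (4 * k)) :=
          Nat.mul_le_mul_left _ (Nat.mul_le_mul (Nat.pow_le_pow_left h2 _) (Nat.pow_le_pow_left h2 _))
      _ = N ^ (24 * k + 2) := by
          rw [← pow_mul, ← pow_add, ← pow_add]
          ring_nf
      _ ≤ N ^ (24 * k + 3) := Nat.pow_le_pow_right hN1 (by omega)
  omega

end

end QLN
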