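import Mathlib

/-!
# `8 d r (log r + 1) ^ 2 ≤ c r ^ (1 + ε)` for some `d` with `r < d ^ k`
-/

set_option autoImplicit false

namespace LIN

theorem eps_log (δ : ℝ) (hδ : 0 < δ) : ∃ C : ℝ, 0 < C ∧ ∀ r : ℕ, 1 ≤ r →
    ((Nat.log 2 r + 1 : ℕ) : ℝ) ^ 2 ≤ C * (r : ℝ) ^ δ := by
  refine ⟨(1 + 2 / (δ / 2)) ^ 2, by positivity, fun r hr => ?_⟩
  have hr0 : (1 : ℝ) ≤ r := by exact_mod_cast hr
  have h1 : ((Nat.log 2 r : ℕ) : ℝ) ≤ Real.log r / Real.log 2 := by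
    rw [le_div_iff₀ (Real.log_pos one_lt_two), ← Real.log_rpow two_pos]
    refine Real.log_le_log (by positivity) ?_
    rw [Real.rpow_natCast]
    exact_mod_cast Nat.pow_log_le_self 2 (by omega)
  have h2 : Real.log r ≤ (r : ℝ) ^ (δ / 2) / (δ / 2) := Real.log_le_rpow_div (by positivity) (by positivity)
  have h3 : (1 : ℝ) ≤ (r : ℝ) ^ (δ / 2) := Real.one_le_rpow hr0 (by positivity)
  have h4 : (1 / 2 : ℝ) ≤ Real.log 2 := by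
    have := Real.log_two_gt_d9
    linarith
  have h5 : ((Nat.log 2 r + 1 : ℕ) : ℝ) ≤ (1 + 2 / (δ / 2)) * (r : ℝ) ^ (δ / 2) := by
    push_cast
    have h6 : Real.log r / Real.log 2 ≤ 2 * Real.log r := by
      rw [div_le_iff₀ (Real.log_pos one_lt_two)]
      have := Real.log_nonneg hr0
      nlinarith
    have h7 : 2 * Real.log r ≤ 2 * ((r : ℝ) ^ (δ / 2) / (δ / 2)) := by linarith
    calc ((Nat.log 2 r : ℕ) : ℝ) + 1 ≤ 2 * ((r : ℝ) ^ (δ / 2) / (δ / 2)) + (r : ℝ) ^ (δ / 2) := by linarith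
      _ = _ := by ring
  calc ((Nat.log 2 r + 1 : ℕ) : ℝ) ^ 2 ≤ ((1 + 2 / (δ / 2)) * (r : ℝ) ^ (δ / 2)) ^ 2 := by gcongr
    _ = (1 + 2 / (δ / 2)) ^ 2 * (r : ℝ) ^ δ := by
      rw [mul_pow, ← Real.rpow_natCast ((r : ℝ) ^ (δ / 2)) 2, ← Real.rpow_mul (by positivity)]
      congr 2
      push_cast
      ring

theorem eps_num (ε : ℝ) (hε : 0 < ε) : ∃ k c : ℕ, 1 ≤ k ∧ ∀ r : ℕ, ∃ d : ℕ, r < d ^ k ∧
    8 * d * r * (Nat.log 2 r + 1) ^ 2 ≤ c * ⌈(r : ℝ) ^ (1 + ε)⌉₊ := by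
  obtain ⟨k, hk⟩ := exists_nat_gt (2 / ε)
  have hk0 : (0 : ℝ) < k := lt_trans (by positivity) hk
  have hk1 : 1 ≤ k := by
    have : 0 < k := by exact_mod_cast hk0
    omega
  obtain ⟨C, hC, hlog⟩ := eps_log (ε / 2) (by positivity)
  refine ⟨k, ⌈16 * C⌉₊, hk1, fun r => ?_⟩
  rcases Nat.eq_zero_or_pos r with rfl | hr
  · exact ⟨1, by simp, by simp⟩
  have hr0 : (1 : ℝ) ≤ r := by exact_mod_cast hr
  refine ⟨⌊(r : ℝ) ^ ((1 : ℝ) / k)⌋₊ + 1, ?_, ?_⟩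
  · have h1 : (r : ℝ) ^ ((1 : ℝ) / k) < (⌊(r : ℝ) ^ ((1 : ℝ) / k)⌋₊ + 1 : ℕ) := by
      push_cast
      exact Nat.lt_floor_add_one _
    have h2 : ((r : ℝ) ^ ((1 : ℝ) / k)) ^ k < ((⌊(r : ℝ) ^ ((1 : ℝ) / k)⌋₊ + 1 : ℕ) : ℝ) ^ k :=
      pow_lt_pow_left₀ h1 (by positivity) (by omega)
    have h3 : ((r : ℝ) ^ ((1 : ℝ) / k)) ^ k = r := by
      rw [← Real.rpow_natCast, ← Real.rpow_mul (by positivity), one_div, inv_mul_cancel₀ hk0.ne', Real.rpow_one]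
    rw [h3] at h2
    exact_mod_cast h2
  · have h3 : (1 : ℝ) ≤ (r : ℝ) ^ ((1 : ℝ) / k) := Real.one_le_rpow hr0 (by positivity)
    have h4 : ((⌊(r : ℝ) ^ ((1 : ℝ) / k)⌋₊ + 1 : ℕ) : ℝ) ≤ 2 * (r : ℝ) ^ (ε / 2) := by
      push_cast
      have h5 : (⌊(r : ℝ) ^ ((1 : ℝ) / k)⌋₊ : ℝ) ≤ (r : ℝ) ^ ((1 : ℝ) / k) := Nat.floor_le (by positivity)
      have h6 : (r : ℝ) ^ ((1 : ℝ) / k) ≤ (r : ℝ) ^ (ε / 2) := by
        refine Real.rpow_le_rpow_of_exponent_le hr0 ?_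
        rw [div_le_iff₀ hk0]
        have h7 : 2 < k * ε := by
          rwa [div_lt_iff₀ hε] at hk
        linarith
      linarith
    have h5 : ((8 * (⌊(r : ℝ) ^ ((1 : ℝ) / k)⌋₊ + 1) * r * (Nat.log 2 r + 1) ^ 2 : ℕ) : ℝ) ≤
        (⌈16 * C⌉₊ * ⌈(r : ℝ) ^ (1 + ε)⌉₊ : ℕ) := by
      have h6 := hlog r hr
      have h7 : (16 * C : ℝ) ≤ ⌈16 * C⌉₊ := Nat.le_ceil _
      have h8 : (r : ℝ) ^ (1 + ε) ≤ ⌈(r : ℝ) ^ (1 + ε)⌉₊ := Nat.le_ceil _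
      have h9 : (r : ℝ) ^ (1 + ε) = (r : ℝ) ^ (ε / 2) * r * (r : ℝ) ^ (ε / 2) := by
        have h10 : (1 + ε : ℝ) = ε / 2 + 1 + ε / 2 := by ring
        rw [h10, Real.rpow_add (by positivity), Real.rpow_add (by positivity), Real.rpow_one]
      calc ((8 * (⌊(r : ℝ) ^ ((1 : ℝ) / k)⌋₊ + 1) * r * (Nat.log 2 r + 1) ^ 2 : ℕ) : ℝ)
          = 8 * ((⌊(r : ℝ) ^ ((1 : ℝ) / k)⌋₊ + 1 : ℕ) : ℝ) * r * ((Nat.log 2 r + 1 : ℕ) : ℝ) ^ 2 := by push_cast; ring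
        _ ≤ 8 * (2 * (r : ℝ) ^ (ε / 2)) * r * (C * (r : ℝ) ^ (ε / 2)) := by gcongr
        _ = (16 * C) * (r : ℝ) ^ (1 + ε) := by rw [h9]; ring
        _ ≤ ⌈16 * C⌉₊ * ⌈(r : ℝ) ^ (1 + ε)⌉₊ := by gcongr
        _ = _ := by push_cast; ring
    exact_mod_cast h5

end LIN
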