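import Pool.Agent.Lib.MP_0087d5_lcQN.SDefs

/-!
# Leaf S0 (easy+): the numbers read off from the source

`pt` is the point of the walk. `zk_cast`. Proof: `pL N k x = x ^ (k * Nat.log 2 N)` for `k * Nat.log 2 N ≤ N` (the number of the `j : Fin N` with `j < k L` is `k L`), `cast_zf` (MT/CB), `Int.cast_sum`, `pow_add`; `wk D s t u = s u + ∑ i ∈ range t, s (D + 2 i + 1) * s (D + 2 i) ^ u` with `D = 12 L`, `u = k L + i`,
`s j = fG q X (g ^ j * y)`; `MTC.ext (pt …) (k L + i) = wk … (k L + i)` as `k L + i < 12 L`. `zY_symm`: `eid x y = eid y x` (`eid_comm` or by the definition). `nr_zero`, `nr_val`, `ns_val`: `rz_eq` (MT/CB): `rz q a = ((a : ℤ) : ZMod q).val`.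
`zY_cast`: `Finset.prod` over `Fin N` of `cnd (j < 4 L) … 1` is the product over `Fin (4 L)` (see `Q6` in QB for the same rewriting), `rz m (ν ^ e) = ν ^ e % m` for a natural number `ν` (`rz` is `(a % m).toNat`).
-/

set_option autoImplicit false
set_option linter.all false

namespace QLN

open Finset Pool.Agent Pool.Agent.PMNC MTC LIN PRS QRB QSR

section
variable {N q : ℕ}

/-- the point of the walk of the source `X` -/
noncomputable def pt (D : ℕ) (X : SimpleGraph (Fin N)) (g y : ZMod q) (t : ℕ) : Fin D → ZMod q := fun u => wk D (fun j => fG q X (g ^ j * y)) t (u : ℕ)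

end

section
variable {S : ℕ → Type} [Env S] [∀ n, Fintype (S n)] {N : ℕ}

private theorem S0_prod {M : Type*} [CommMonoid M] {N R : ℕ} (h : R ≤ N) (F : ℕ → M) :
    ∏ j : Fin N, (if (j : ℕ) < R then F j else 1) = ∏ j : Fin R, F j := by
  rw [Fin.prod_univ_eq_prod_range (fun j => if j < R then F j else 1) N, Fin.prod_univ_eq_prod_range F R, ← Finset.prod_filter]
  refine Finset.prod_congr ?_ fun _ _ => rfl
  ext j
  rw [Finset.mem_filter, Finset.mem_range, Finset.mem_range]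
  omega

private theorem S0_pL {N k : ℕ} (h : k * Nat.log 2 N ≤ N) (x : ℤ) : pL N k x = x ^ (k * Nat.log 2 N) := by
  unfold pL
  have h1 : ∀ j : Fin N, cnd ((j : ℕ) < k * Nat.log 2 N) x 1 = if (j : ℕ) < k * Nat.log 2 N then (fun _ : ℕ => x) j else 1 := by
    intro j
    by_cases hj : (j : ℕ) < k * Nat.log 2 N
    · rw [cnd_pos hj, if_pos hj]
    · rw [cnd_neg hj, if_neg hj]
  rw [Finset.prod_congr rfl fun j _ => h1 j, S0_prod h (fun _ : ℕ => x), Finset.prod_const, Finset.card_univ, Fintype.card_fin]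

private theorem S0_rz (m ν e : ℕ) : rz m (((ν : ℕ) : ℤ) ^ e) = ν ^ e % m := by
  unfold rz
  rw [← Int.natCast_pow, ← Int.natCast_mod, Int.toNat_natCast]

theorem zY_symm (X : SimpleGraph (Fin N)) (κ : Pq S N) (x y : Fin N) : zY X κ x y = zY X κ y x := by
  unfold zY
  rw [eid_comm]

theorem zk_cast (h12 : 12 * Nat.log 2 N ≤ N) (X : SimpleGraph (Fin N)) (κ : Pq S N) [Fact (nv κ.2.2.1).Prime] (k : ℕ) (hk : k + 4 ≤ 12) (i : Fin N) (hi : (i : ℕ) < 4 * Nat.log 2 N) :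
    ((zk k X κ i : ℤ) : ZMod (nv κ.2.2.1)) =
      MTC.ext (pt (12 * Nat.log 2 N) X ((nv κ.2.2.2.1 : ℕ) : ZMod (nv κ.2.2.1)) ((nv κ.2.2.2.2.1 : ℕ) : ZMod (nv κ.2.2.1)) (nv κ.2.2.2.2.2.1)) (k * Nat.log 2 N + (i : ℕ)) := by
  have hkN : k * Nat.log 2 N ≤ N := le_trans (Nat.mul_le_mul_right _ (by omega)) h12
  have hlt : k * Nat.log 2 N + (i : ℕ) < 12 * Nat.log 2 N := by
    have h1 : (k + 4) * Nat.log 2 N ≤ 12 * Nat.log 2 N := Nat.mul_le_mul_right _ hk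
    have h2 : (k + 4) * Nat.log 2 N = k * Nat.log 2 N + 4 * Nat.log 2 N := by ring
    omega
  unfold zk zp MTC.ext
  rw [dif_pos hlt]
  unfold pt wk
  rw [S0_pL hkN, S0_pL h12, Int.cast_add, Int.cast_sum]
  congr 1
  · rw [cast_zf]
    push_cast
    rw [pow_add]
  · refine Finset.sum_congr rfl fun s _ => ?_
    rw [S0_pL hkN, Int.cast_mul, Int.cast_mul, Int.cast_pow, Int.cast_pow, cast_zf, cast_zf]
    push_cast
    rw [← pow_add, ← pow_add, ← pow_add, add_assoc]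

/-- the numbers of the rounds -/
theorem nr_eq (h12 : 12 * Nat.log 2 N ≤ N) (X : SimpleGraph (Fin N)) (κ : Pq S N) [Fact (nv κ.2.2.1).Prime] (i : Fin N) (hi : (i : ℕ) < 4 * Nat.log 2 N) :
    nr X κ i = ((rZ (nv κ.2.2.2.2.2.2) (pt (12 * Nat.log 2 N) X ((nv κ.2.2.2.1 : ℕ) : ZMod (nv κ.2.2.1)) ((nv κ.2.2.2.2.1 : ℕ) : ZMod (nv κ.2.2.1)) (nv κ.2.2.2.2.2.1)) (i : ℕ) : ℕ) : ℤ) := by
  unfold nr rZ
  by_cases h0 : (i : ℕ) = 0
  · rw [cnd_pos h0, if_pos h0]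
  · rw [cnd_neg h0, if_neg h0]
    have : NeZero (nv κ.2.2.1) := ⟨(Fact.out : (nv κ.2.2.1).Prime).ne_zero⟩
    have h1 := zk_cast h12 X κ 0 (by norm_num) i hi
    rw [zero_mul, zero_add] at h1
    rw [rz_eq, h1]

/-- the substituted numbers -/
theorem zY_cast (h12 : 12 * Nat.log 2 N ≤ N) (X : SimpleGraph (Fin N)) (κ : Pq S N) [Fact (nv κ.2.2.1).Prime] (hm : ¬ nv κ.2.1 = 0) (x y : Fin N) :
    ((zY X κ x y : ℤ) : ZMod (nv κ.2.2.1)) =
      YZ (4 * Nat.log 2 N) (nv κ.2.1) (pt (12 * Nat.log 2 N) X ((nv κ.2.2.2.1 : ℕ) : ZMod (nv κ.2.2.1)) ((nv κ.2.2.2.2.1 : ℕ) : ZMod (nv κ.2.2.1)) (nv κ.2.2.2.2.2.1)) x y := by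
  have hN : 4 * Nat.log 2 N ≤ N := le_trans (Nat.mul_le_mul_right _ (by norm_num)) h12
  have : NeZero (nv κ.2.2.1) := ⟨(Fact.out : (nv κ.2.2.1).Prime).ne_zero⟩
  unfold zY YZ
  rw [Int.cast_prod]
  generalize hz : pt (12 * Nat.log 2 N) X ((nv κ.2.2.2.1 : ℕ) : ZMod (nv κ.2.2.1)) ((nv κ.2.2.2.2.1 : ℕ) : ZMod (nv κ.2.2.1))
    (nv κ.2.2.2.2.2.1) = z
  have h1 : ∀ j : Fin N, ((cnd ((j : ℕ) < 4 * Nat.log 2 N) (zk 8 X κ j ^ rz (nv κ.2.1) (ns X κ j ^ eid x y)) 1 : ℤ) : ZMod (nv κ.2.2.1)) =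
      if (j : ℕ) < 4 * Nat.log 2 N then (fun j : ℕ => MTC.ext z (2 * (4 * Nat.log 2 N) + j) ^
        ((MTC.ext z (4 * Nat.log 2 N + j)).val ^ eid x y % nv κ.2.1)) j else 1 := by
    intro j
    by_cases hj : (j : ℕ) < 4 * Nat.log 2 N
    · have h8 := zk_cast h12 X κ 8 (by norm_num) j hj
      have h4 := zk_cast h12 X κ 4 (by norm_num) j hj
      rw [hz] at h8 h4
      have h82 : 2 * (4 * Nat.log 2 N) + (j : ℕ) = 8 * Nat.log 2 N + (j : ℕ) := by ring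
      rw [cnd_pos hj, if_pos hj, Int.cast_pow, h8]
      show _ = MTC.ext z (2 * (4 * Nat.log 2 N) + (j : ℕ)) ^ ((MTC.ext z (4 * Nat.log 2 N + (j : ℕ))).val ^ eid x y % nv κ.2.1)
      rw [h82, ← h4, ← rz_eq]
      unfold ns
      rw [S0_rz]
    · rw [cnd_neg hj, if_neg hj, Int.cast_one]
  rw [Finset.prod_congr rfl fun j _ => h1 j]
  exact S0_prod (M := ZMod (nv κ.2.2.1)) hN (fun j : ℕ => MTC.ext z (2 * (4 * Nat.log 2 N) + j) ^
    ((MTC.ext z (4 * Nat.log 2 N + j)).val ^ eid x y % nv κ.2.1))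

end

end QLN
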