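import Pool.Agent.Lib.MP_0087d5_lcQN.CDefs
import Pool.Agent.Lib.MP_0087d5_lcQN.SG
import Pool.Agent.Lib.MP_0087d5_lcQN.R0
import Pool.Agent.Lib.MP_0087d5_lcQB.Q16

/-!
# The first weights: few unions of perfect matchings of least weight

For a good number `r0` (file R0) the graphs which agree outside `W` have at most `2 ^ (8 d r (log r + 1) ^ 2)` graphs of perfect matchings of
least weight `ω0 m r0`, `r = card W < d ^ k` (file SG).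
-/

set_option autoImplicit false

namespace QLN

open Finset MTC QSR

open Classical in
theorem spOK_gen {k : ℕ} (hk : 1 ≤ k) {bd : ℕ → ℕ}
    (h : ∀ r, ∃ d, r < d ^ k ∧ 8 * d * r * (Nat.log 2 r + 1) ^ 2 ≤ bd r) : SpOK (24 * k + 3) bd := by
  intro N hN m hm hmk
  obtain ⟨r0, hr0, hD⟩ := diss_exists (V := Fin N) (Fintype.card_fin N) (by omega) k (QRB.lab_eid N) hm hmk
  refine ⟨r0, hr0, fun T0 W => ?_⟩
  obtain ⟨d, hd, hb⟩ := h W.card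
  have hw : ∀ a b : Fin N, ω0 m r0 a b = ω0 m r0 b a := fun a b => by
    unfold ω0
    rw [Pool.Agent.PMNC.eid_comm]
  obtain ⟨s, hs⟩ : ∃ s : Finset (Fin N → Fin N → Prop), ∀ T, T ∈ s ↔ (∀ x y, T x y → T y x) ∧ (∀ x, ¬ T x x) ∧
      (∃ f, IsPM T f) ∧ ∀ x y, ¬ (x ∈ W ∧ y ∈ W) → (T x y ↔ T0 x y) :=
    ⟨univ.filter fun T => (∀ x y, T x y → T y x) ∧ (∀ x, ¬ T x x) ∧ (∃ f, IsPM T f) ∧
      ∀ x y, ¬ (x ∈ W ∧ y ∈ W) → (T x y ↔ T0 x y), fun T => by rw [mem_filter]; exact and_iff_right (mem_univ T)⟩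
  have h1 := LIN.card_HG_le s (fun T => T) (ω0 m r0) W (fun T hT => ((hs T).1 hT).2.1)
    (fun T hT T' hT' a b hab => (((hs T).1 hT).2.2.2 a b hab).trans (((hs T').1 hT').2.2.2 a b hab).symm) hw k d hk hD hd
  rw [Nat.subtype_card (s.image fun T => HG T (ω0 m r0)) fun H => ?_]
  · exact h1.trans (Nat.pow_le_pow_right two_pos hb)
  · rw [mem_image]
    constructor
    · rintro ⟨T, hT, rfl⟩
      obtain ⟨a1, a2, a3, a4⟩ := (hs T).1 hT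
      refine ⟨T, a1, a2, a3, a4, ?_⟩
      funext x y
      exact (propext ((compress T a1 a2 (ω0 m r0) hw a3).1 x y)).symm
    · rintro ⟨T, a1, a2, a3, a4, rfl⟩
      refine ⟨T, (hs T).2 ⟨a1, a2, a3, a4⟩, ?_⟩
      funext x y
      exact (propext ((compress T a1 a2 (ω0 m r0) hw a3).1 x y)).symm

/-- Exponent `3 / 2`. -/
theorem spOK_four : SpOK 51 (fun r => 8 * (Nat.sqrt r + 1) * r * (Nat.log 2 r + 1) ^ 2) :=
  spOK_gen (k := 2) one_le_two fun r => ⟨Nat.sqrt r + 1, Nat.lt_succ_sqrt' r, le_rfl⟩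

/-- Exponent `1 + ε`, for every `ε > 0`. -/
theorem spOK_eps (ε : ℝ) (hε : 0 < ε) : ∃ k c : ℕ, SpOK k (fun r => c * ⌈(r : ℝ) ^ (1 + ε)⌉₊) := by
  obtain ⟨k, hk⟩ : ∃ k : ℕ, k = ⌈2 / ε⌉₊ := ⟨_, rfl⟩
  have hk1 : 1 ≤ k := by
    rw [hk]
    exact Nat.one_le_ceil_iff.2 (div_pos two_pos hε)
  have hkR : (0 : ℝ) < (k : ℝ) := by exact_mod_cast hk1
  have hke : 1 / (k : ℝ) ≤ ε / 2 := by
    have h1 : 2 / ε ≤ (k : ℝ) := by
      rw [hk]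
      exact Nat.le_ceil _
    rw [div_le_iff₀ hε] at h1
    rw [div_le_iff₀ hkR]
    linarith
  have hl2 : 0 < Real.log 2 := Real.log_pos one_lt_two
  obtain ⟨c0, hc0⟩ : ∃ c0 : ℝ, c0 = 4 / (ε * Real.log 2) + 1 := ⟨_, rfl⟩
  refine ⟨24 * k + 3, ⌈16 * c0 ^ 2⌉₊, spOK_gen hk1 fun r => ?_⟩
  rcases Nat.eq_zero_or_pos r with rfl | hr
  · refine ⟨1, ?_, ?_⟩
    · rw [one_pow]
      exact one_pos
    · rw [Nat.mul_zero, Nat.zero_mul]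
      exact Nat.zero_le _
  have hrR : (1 : ℝ) ≤ (r : ℝ) := by exact_mod_cast hr
  have hr0 : (0 : ℝ) < (r : ℝ) := one_pos.trans_le hrR
  have hr0' : (0 : ℝ) ≤ (r : ℝ) := hr0.le
  refine ⟨⌊(r : ℝ) ^ (1 / (k : ℝ))⌋₊ + 1, ?_, ?_⟩
  · have h1 : (r : ℝ) ^ (1 / (k : ℝ)) < ((⌊(r : ℝ) ^ (1 / (k : ℝ))⌋₊ + 1 : ℕ) : ℝ) := by
      push_cast
      exact Nat.lt_floor_add_one _
    have h2 : ((r : ℝ) ^ (1 / (k : ℝ))) ^ k < ((⌊(r : ℝ) ^ (1 / (k : ℝ))⌋₊ + 1 : ℕ) : ℝ) ^ k :=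
      pow_lt_pow_left₀ h1 (Real.rpow_nonneg hr0' _) (by omega)
    rw [← Real.rpow_natCast, ← Real.rpow_mul hr0', one_div_mul_cancel hkR.ne', Real.rpow_one] at h2
    exact_mod_cast h2
  · have hx : (1 : ℝ) ≤ (r : ℝ) ^ (ε / 2) := Real.one_le_rpow hrR (half_pos hε).le
    have hd : ((⌊(r : ℝ) ^ (1 / (k : ℝ))⌋₊ + 1 : ℕ) : ℝ) ≤ 2 * (r : ℝ) ^ (ε / 2) := by
      push_cast
      have h1 := Nat.floor_le (Real.rpow_nonneg hr0' (1 / (k : ℝ)))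
      have h2 : (r : ℝ) ^ (1 / (k : ℝ)) ≤ (r : ℝ) ^ (ε / 2) := Real.rpow_le_rpow_of_exponent_le hrR hke
      linarith
    have hl : ((Nat.log 2 r + 1 : ℕ) : ℝ) ≤ c0 * (r : ℝ) ^ (ε / 4) := by
      have h1 : (Nat.log 2 r : ℝ) * Real.log 2 ≤ Real.log r := by
        rw [← Real.log_pow]
        refine Real.log_le_log (pow_pos two_pos _) ?_
        exact_mod_cast Nat.pow_log_le_self 2 hr.ne'
      have h2 : Real.log r ≤ (r : ℝ) ^ (ε / 4) / (ε / 4) := Real.log_le_rpow_div hr0' (by linarith)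
      have h3 : (1 : ℝ) ≤ (r : ℝ) ^ (ε / 4) := Real.one_le_rpow hrR (by linarith)
      have h4 : (Nat.log 2 r : ℝ) ≤ 4 / (ε * Real.log 2) * (r : ℝ) ^ (ε / 4) := by
        rw [← le_div_iff₀ hl2] at h1
        refine h1.trans ((div_le_div_of_nonneg_right h2 hl2.le).trans (le_of_eq ?_))
        field_simp
      push_cast
      rw [hc0, add_mul, one_mul]
      linarith
    have hc0p : 0 ≤ c0 := by
      rw [hc0]
      have := div_nonneg (by norm_num : (0 : ℝ) ≤ 4) (mul_nonneg hε.le hl2.le)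
      linarith
    have hl' : ((Nat.log 2 r + 1 : ℕ) : ℝ) ^ 2 ≤ c0 ^ 2 * (r : ℝ) ^ (ε / 2) := by
      have h1 := pow_le_pow_left₀ (Nat.cast_nonneg _) hl 2
      rw [mul_pow, ← Real.rpow_natCast ((r : ℝ) ^ (ε / 4)) 2, ← Real.rpow_mul hr0'] at h1
      have h2 : ε / 4 * ((2 : ℕ) : ℝ) = ε / 2 := by
        push_cast
        ring
      rwa [h2] at h1
    have hfin : ((8 * (⌊(r : ℝ) ^ (1 / (k : ℝ))⌋₊ + 1) * r * (Nat.log 2 r + 1) ^ 2 : ℕ) : ℝ) ≤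
        16 * c0 ^ 2 * (r : ℝ) ^ (1 + ε) := by
      have e1 : (r : ℝ) ^ (1 + ε) = (r : ℝ) * ((r : ℝ) ^ (ε / 2) * (r : ℝ) ^ (ε / 2)) := by
        rw [← Real.rpow_add hr0, add_halves, Real.rpow_add hr0, Real.rpow_one]
      have e2 : ((8 * (⌊(r : ℝ) ^ (1 / (k : ℝ))⌋₊ + 1) * r * (Nat.log 2 r + 1) ^ 2 : ℕ) : ℝ) =
          8 * r * (((⌊(r : ℝ) ^ (1 / (k : ℝ))⌋₊ + 1 : ℕ) : ℝ) * ((Nat.log 2 r + 1 : ℕ) : ℝ) ^ 2) := by
        push_cast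
        ring
      have e3 : ((⌊(r : ℝ) ^ (1 / (k : ℝ))⌋₊ + 1 : ℕ) : ℝ) * ((Nat.log 2 r + 1 : ℕ) : ℝ) ^ 2 ≤
          2 * (r : ℝ) ^ (ε / 2) * (c0 ^ 2 * (r : ℝ) ^ (ε / 2)) :=
        mul_le_mul hd hl' (sq_nonneg _) (by positivity)
      rw [e1, e2]
      calc 8 * (r : ℝ) * (((⌊(r : ℝ) ^ (1 / (k : ℝ))⌋₊ + 1 : ℕ) : ℝ) * ((Nat.log 2 r + 1 : ℕ) : ℝ) ^ 2)
          ≤ 8 * (r : ℝ) * (2 * (r : ℝ) ^ (ε / 2) * (c0 ^ 2 * (r : ℝ) ^ (ε / 2))) :=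
            mul_le_mul_of_nonneg_left e3 (by positivity)
        _ = 16 * c0 ^ 2 * ((r : ℝ) * ((r : ℝ) ^ (ε / 2) * (r : ℝ) ^ (ε / 2))) := by ring
    have h1 : 16 * c0 ^ 2 * (r : ℝ) ^ (1 + ε) ≤ ((⌈16 * c0 ^ 2⌉₊ * ⌈(r : ℝ) ^ (1 + ε)⌉₊ : ℕ) : ℝ) := by
      push_cast
      exact mul_le_mul (Nat.le_ceil _) (Nat.le_ceil _) (Real.rpow_nonneg hr0' _) (Nat.cast_nonneg _)
    exact_mod_cast hfin.trans h1

end QLN
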